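import Pool.Agent.K4H48.Cone.Graph

/-! The flat convex body. -/

set_option autoImplicit false

namespace Pool.Agent.K4H48.Cone

open MeasureTheory Set Filter Topology Metric
open scoped ENNReal

/-- Distance to the middle axis. -/
noncomputable def rr (x t : ℝ) : ℝ := √(x ^ 2 + t ^ 2)

lemma rr_nonneg (x t : ℝ) : 0 ≤ rr x t := Real.sqrt_nonneg _

lemma rr_sq (x t : ℝ) : rr x t ^ 2 = x ^ 2 + t ^ 2 := Real.sq_sqrt (by positivity)

lemma abs_le_rr_left (x t : ℝ) : |x| ≤ rr x t := by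
  unfold rr
  apply Real.abs_le_sqrt
  nlinarith [sq_nonneg t]

lemma abs_le_rr_right (x t : ℝ) : |t| ≤ rr x t := by
  unfold rr
  apply Real.abs_le_sqrt
  nlinarith [sq_nonneg x]

lemma rr_le (x t : ℝ) : rr x t ≤ |x| + |t| := by
  unfold rr
  rw [Real.sqrt_le_left (by positivity)]
  nlinarith [mul_nonneg (abs_nonneg x) (abs_nonneg t), sq_abs x, sq_abs t]

lemma rr_eq_norm (x t : ℝ) : rr x t = ‖(⟨x, t⟩ : ℂ)‖ := by
  unfold rr
  rw [Complex.norm_def, Complex.normSq_mk]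
  congr 1; ring

lemma rr_add_le (x t x' t' : ℝ) : rr (x + x') (t + t') ≤ rr x t + rr x' t' := by
  rw [rr_eq_norm, rr_eq_norm, rr_eq_norm]
  have : (⟨x + x', t + t'⟩ : ℂ) = ⟨x, t⟩ + ⟨x', t'⟩ := rfl
  rw [this]
  exact norm_add_le _ _

lemma rr_mul {s : ℝ} (hs : 0 ≤ s) (x t : ℝ) : rr (s * x) (s * t) = s * rr x t := by
  unfold rr
  rw [show (s * x) ^ 2 + (s * t) ^ 2 = s ^ 2 * (x ^ 2 + t ^ 2) by ring,
    Real.sqrt_mul (sq_nonneg s), Real.sqrt_sq hs]

lemma rr_neg (x t : ℝ) : rr (-x) (-t) = rr x t := by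
  unfold rr
  rw [neg_sq, neg_sq]

lemma continuous_rr : Continuous fun p : P3 => rr p.1.1 p.2 := by
  unfold rr; fun_prop

/-- The body. -/
def Om (H a ε : ℝ) : Set (En 3) :=
  {q | |q 0| < 1 ∧ |q 2| < H ∧ |q 1| < ε * (1 - a * rr (q 0) (q 2))}

lemma mem_Om_mk3 {H a ε : ℝ} {p : P3} :
    mk3 p ∈ Om H a ε ↔ |p.1.1| < 1 ∧ |p.2| < H ∧ |p.1.2| < ε * (1 - a * rr p.1.1 p.2) := Iff.rfl

lemma isOpen_Om (H a ε : ℝ) : IsOpen (Om H a ε) := by
  have h0 : Continuous fun q : En 3 => |q 0| := by fun_prop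
  have h2 : Continuous fun q : En 3 => |q 2| := by fun_prop
  have h1 : Continuous fun q : En 3 => |q 1| := by fun_prop
  have h3 : Continuous fun q : En 3 => ε * (1 - a * rr (q 0) (q 2)) := by
    unfold rr; fun_prop
  exact (isOpen_lt h0 continuous_const).inter
    ((isOpen_lt h2 continuous_const).inter (isOpen_lt h1 h3))

lemma zero_mem_Om {H a ε : ℝ} (hH : 0 < H) (hε : 0 < ε) : (0 : En 3) ∈ Om H a ε := by
  refine ⟨by simp, by simpa using hH, ?_⟩
  simp [rr, hε]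

lemma convex_Om {H a ε : ℝ} (ha : 0 ≤ a) (hε : 0 ≤ ε) : Convex ℝ (Om H a ε) := by
  intro p hp q hq s t hs ht hst
  obtain ⟨p1, p2, p3⟩ := hp
  obtain ⟨q1, q2, q3⟩ := hq
  have key : ∀ (x y m : ℝ), |x| < m → |y| < m → |s * x + t * y| < m := by
    intro x y m hx hy
    rw [abs_lt] at hx hy ⊢
    have e : m = s * m + t * m := by rw [← add_mul, hst, one_mul]
    rcases hs.lt_or_eq with h | h
    · constructor <;> nlinarith
    · have ht1 : t = 1 := by linarith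
      subst ht1
      rw [← h]
      constructor <;> linarith
  refine ⟨?_, ?_, ?_⟩
  · simpa using key _ _ _ p1 q1
  · simpa using key _ _ _ p2 q2
  · simp only [PiLp.add_apply, PiLp.smul_apply, smul_eq_mul]
    have h1 : rr (s * p 0 + t * q 0) (s * p 2 + t * q 2) ≤
        s * rr (p 0) (p 2) + t * rr (q 0) (q 2) := by
      refine (rr_add_le _ _ _ _).trans ?_
      rw [rr_mul hs, rr_mul ht]
    have h2 : |s * p 1 + t * q 1| ≤ s * |p 1| + t * |q 1| := by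
      refine (abs_add_le _ _).trans ?_
      rw [abs_mul, abs_mul, abs_of_nonneg hs, abs_of_nonneg ht]
    have h3 : s * |p 1| + t * |q 1| < s * (ε * (1 - a * rr (p 0) (p 2))) +
        t * (ε * (1 - a * rr (q 0) (q 2))) := by
      rcases hs.lt_or_eq with h | h
      · have := mul_lt_mul_of_pos_left p3 h
        have := mul_le_mul_of_nonneg_left q3.le ht
        linarith
      · have ht1 : t = 1 := by linarith
        subst ht1
        rw [← h]
        linarith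
    have h4 : s * (ε * (1 - a * rr (p 0) (p 2))) + t * (ε * (1 - a * rr (q 0) (q 2))) =
        ε * (1 - a * (s * rr (p 0) (p 2) + t * rr (q 0) (q 2))) := by
      have : t = 1 - s := by linarith
      subst this
      ring
    have h5 : ε * (1 - a * (s * rr (p 0) (p 2) + t * rr (q 0) (q 2))) ≤
        ε * (1 - a * rr (s * p 0 + t * q 0) (s * p 2 + t * q 2)) := by
      gcongr
    linarith

lemma neg_mem_Om {H a ε : ℝ} {q : En 3} (h : q ∈ Om H a ε) : -q ∈ Om H a ε := by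
  obtain ⟨h1, h2, h3⟩ := h
  refine ⟨by simpa using h1, by simpa using h2, ?_⟩
  simp only [PiLp.neg_apply, abs_neg, rr_neg]
  exact h3

lemma bounded_Om {H a ε : ℝ} (ha : 0 ≤ a) (hε : 0 ≤ ε) : Bornology.IsBounded (Om H a ε) := by
  rw [isBounded_iff_forall_norm_le]
  refine ⟨1 + H + ε, fun q hq => ?_⟩
  obtain ⟨h1, h2, h3⟩ := hq
  have h4 : |q 1| ≤ ε := by
    refine h3.le.trans ?_
    have := mul_nonneg ha (rr_nonneg (q 0) (q 2))
    nlinarith
  rw [EuclideanSpace.norm_eq, Real.sqrt_le_left (by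
    have := abs_nonneg (q 2); linarith)]
  rw [Fin.sum_univ_three]
  simp only [Real.norm_eq_abs]
  have := abs_nonneg (q 0)
  have := abs_nonneg (q 1)
  have := abs_nonneg (q 2)
  have a0 : |q 0| ^ 2 ≤ 1 ^ 2 := by gcongr
  have a1 : |q 1| ^ 2 ≤ ε ^ 2 := by gcongr
  have a2 : |q 2| ^ 2 ≤ H ^ 2 := by gcongr
  have : 0 < H := lt_of_le_of_lt (abs_nonneg _) h2
  nlinarith [mul_nonneg hε this.le]

lemma meas_Om (H a ε : ℝ) : MeasurableSet (Om H a ε) := (isOpen_Om H a ε).measurableSet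

lemma vol_Om_ne_top {H a ε : ℝ} (ha : 0 ≤ a) (hε : 0 ≤ ε) : volume (Om H a ε) ≠ ⊤ :=
  (bounded_Om ha hε).measure_lt_top.ne

/-- A coordinate box. -/
def bx (α β γ₁ γ₂ : ℝ) : Set P3 := (Ioo (-α) α ×ˢ Ioo (-β) β) ×ˢ Ioc γ₁ γ₂

lemma vol_bx {α β γ₁ γ₂ : ℝ} (hα : 0 ≤ α) :
    volume (bx α β γ₁ γ₂) = ENNReal.ofReal (2 * α * (2 * β)) * ENNReal.ofReal (γ₂ - γ₁) := by
  unfold bx
  rw [show (volume : Measure P3) = ((volume : Measure ℝ).prod (volume : Measure ℝ)).prod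
    (volume : Measure ℝ) from rfl, Measure.prod_prod, Measure.prod_prod, Real.volume_Ioo,
    Real.volume_Ioo, Real.volume_Ioc, ← ENNReal.ofReal_mul (by linarith)]
  congr 2
  ring

lemma vol_Om_ge {H a ε : ℝ} (hH : 0 < H) (ha : 0 ≤ a) (ha1 : a * (H + 1) ≤ 1 / 2) (hε : 0 < ε) :
    ENNReal.ofReal (4 * H * ε) ≤ volume (Om H a ε) := by
  rw [vol3]
  have h : (Ioo (-1) 1 ×ˢ Ioo (-(ε / 2)) (ε / 2)) ×ˢ Ioo (-H) H ⊆ mk3 ⁻¹' Om H a ε := by
    rintro ⟨⟨x, y⟩, t⟩ ⟨⟨h1, h2⟩, h3⟩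
    simp only [mem_Ioo] at h1 h2 h3
    rw [mem_preimage, mem_Om_mk3]
    simp only
    rw [← abs_lt] at h1 h2 h3
    refine ⟨h1, h3, ?_⟩
    have h4 : rr x t ≤ H + 1 := (rr_le x t).trans (by linarith)
    have h5 : a * rr x t ≤ 1 / 2 := (mul_le_mul_of_nonneg_left h4 ha).trans ha1
    refine h2.trans_le ?_
    nlinarith
  refine le_trans (le_of_eq ?_) (measure_mono h)
  rw [show (volume : Measure P3) = ((volume : Measure ℝ).prod (volume : Measure ℝ)).prod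
    (volume : Measure ℝ) from rfl, Measure.prod_prod, Measure.prod_prod, Real.volume_Ioo,
    Real.volume_Ioo, Real.volume_Ioo, ← ENNReal.ofReal_mul (by norm_num),
    ← ENNReal.ofReal_mul (mul_nonneg (by norm_num) (by linarith))]
  congr 1
  ring

lemma vol_Om_mid {H a ε : ℝ} (ha : 0 ≤ a) (hε : 0 < ε) :
    volume (Om H a ε ∩ {q | |q 2| ≤ 1}) ≤ ENNReal.ofReal (8 * ε) := by
  rw [vol3]
  have h : mk3 ⁻¹' (Om H a ε ∩ {q | |q 2| ≤ 1}) ⊆
      (Ioo (-1) 1 ×ˢ Ioo (-ε) ε) ×ˢ Icc (-1) 1 := by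
    rintro ⟨⟨x, y⟩, t⟩ ⟨⟨h1, h2, h3⟩, h4⟩
    simp only [mem_ofPred_eq, mk3_2] at h4
    simp only [mk3_0, mk3_1, mk3_2] at h1 h2 h3
    simp only [mem_prod, mem_Ioo, mem_Icc]
    rw [← abs_lt, ← abs_lt, ← abs_le]
    refine ⟨⟨h1, ?_⟩, h4⟩
    refine h3.trans_le ?_
    have := mul_nonneg ha (rr_nonneg x t)
    nlinarith
  refine (measure_mono h).trans (le_of_eq ?_)
  rw [show (volume : Measure P3) = ((volume : Measure ℝ).prod (volume : Measure ℝ)).prod
    (volume : Measure ℝ) from rfl, Measure.prod_prod, Measure.prod_prod, Real.volume_Ioo,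
    Real.volume_Ioo, Real.volume_Icc, ← ENNReal.ofReal_mul (by norm_num),
    ← ENNReal.ofReal_mul (mul_nonneg (by norm_num) (by linarith))]
  congr 1
  ring

end Pool.Agent.K4H48.Cone
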