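import Pool.Agent.K4H48.Cone.Coord

/-! Plane convex sets of large area contain boxes. -/

set_option autoImplicit false

namespace Pool.Agent.K4H48.Cone

open MeasureTheory Set Filter Topology Metric
open scoped ENNReal

lemma far_pts {A : Set ℝ} {k : ℝ} (hk : 0 ≤ k) (h : ENNReal.ofReal (2 * k) < volume A) :
    ∃ x ∈ A, ∃ y ∈ A, k ≤ y - x := by
  by_contra hcon
  push Not at hcon
  have hne : A.Nonempty := by
    rw [nonempty_iff_ne_empty]
    rintro rfl
    simp at h
  obtain ⟨x, hx⟩ := hne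
  have hsub : A ⊆ ball x k := by
    intro y hy
    rw [mem_ball, Real.dist_eq, abs_lt]
    have h1 := hcon x hx y hy
    have h2 := hcon y hy x hx
    constructor <;> linarith
  have h3 := measure_mono (μ := volume) hsub
  rw [Real.volume_ball] at h3
  exact absurd (lt_of_lt_of_le h h3) (lt_irrefl _)

/-- A plane convex set in `(-1,1) × (-ε,ε)` with area at least `c ε` contains a box of size
comparable to `1 × ε`. -/
lemma plane_box {S : Set (ℝ × ℝ)} (hS : Convex ℝ S) (hSm : MeasurableSet S) {ε c : ℝ} (hε : 0 < ε)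
    (hc : 0 < c) (hc1 : c ≤ 9) (hsub : ∀ w ∈ S, |w.1| < 1 ∧ |w.2| < ε)
    (harea : ENNReal.ofReal (c * ε) ≤ volume S) :
    ∃ x₀ v₀ : ℝ, ∀ x v : ℝ, |x - x₀| < (c / 9) ^ 2 / 6 → |v - v₀| < (c / 9) ^ 2 / 6 →
      (x, ε * v) ∈ S := by
  set k : ℝ := c / 9 with hk
  have hk0 : 0 < k := by positivity
  have hk1 : k ≤ 1 := by rw [hk]; linarith
  set ℓ : ℝ → ℝ≥0∞ := fun x => volume (Prod.mk x ⁻¹' S) with hℓ
  have hℓm : Measurable ℓ := measurable_measure_prodMk_left hSm
  have hvol : volume S = ∫⁻ x, ℓ x := by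
    rw [show (volume : Measure (ℝ × ℝ)) = (volume : Measure ℝ).prod (volume : Measure ℝ) from rfl,
      Measure.prod_apply hSm]
  have hℓ2 : ∀ x, ℓ x ≤ ENNReal.ofReal (2 * ε) := by
    intro x
    have : Prod.mk x ⁻¹' S ⊆ ball 0 ε := by
      intro y hy
      rw [mem_ball, Real.dist_eq, sub_zero]
      exact (hsub _ hy).2
    calc ℓ x ≤ volume (ball (0 : ℝ) ε) := measure_mono this
      _ = _ := Real.volume_ball _ _
  have hℓ0 : ∀ x, x ∉ ball (0 : ℝ) 1 → ℓ x = 0 := by
    intro x hx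
    have : Prod.mk x ⁻¹' S = ∅ := by
      ext y
      simp only [mem_preimage, mem_empty_iff_false, iff_false]
      intro hy
      apply hx
      rw [mem_ball, Real.dist_eq, sub_zero]
      exact (hsub _ hy).1
    simp only [hℓ, this, measure_empty]
  set G : Set ℝ := {x | ENNReal.ofReal (c * ε / 4) < ℓ x} with hG
  have hGm : MeasurableSet G := measurableSet_lt measurable_const hℓm
  have hGvol : ENNReal.ofReal (c / 4) ≤ volume G := by
    have h1 : ∫⁻ x, ℓ x ≤ ENNReal.ofReal (2 * ε) * volume G + ENNReal.ofReal (c * ε / 4) * 2 := by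
      calc ∫⁻ x, ℓ x ≤ ∫⁻ x, (G.indicator (fun _ => ENNReal.ofReal (2 * ε)) x +
            (ball (0 : ℝ) 1).indicator (fun _ => ENNReal.ofReal (c * ε / 4)) x) := by
            refine lintegral_mono fun x => ?_
            by_cases hx : x ∈ G
            · rw [indicator_of_mem hx]
              exact (hℓ2 x).trans le_self_add
            · rw [indicator_of_notMem hx, zero_add]
              by_cases hx2 : x ∈ ball (0 : ℝ) 1
              · rw [indicator_of_mem hx2]
                simp only [hG, mem_ofPred_eq, not_lt] at hx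
                exact hx
              · rw [hℓ0 x hx2]; exact zero_le'
        _ = _ := by
            rw [lintegral_add_left (measurable_const.indicator hGm), lintegral_indicator hGm,
              lintegral_indicator measurableSet_ball, setLIntegral_const, setLIntegral_const,
              Real.volume_ball]
            norm_num
    rw [← hvol] at h1
    have h2 := harea.trans h1
    by_contra h3
    push Not at h3
    have hGfin : volume G ≠ ⊤ := h3.ne_top
    have h4 : (volume G).toReal < c / 4 := by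
      rw [← ENNReal.toReal_ofReal (show 0 ≤ c / 4 by positivity)]
      exact (ENNReal.toReal_lt_toReal hGfin ENNReal.ofReal_ne_top).2 h3
    have h5 : c * ε ≤ 2 * ε * (volume G).toReal + c * ε / 4 * 2 := by
      have h6 := ENNReal.toReal_mono (ENNReal.add_ne_top.2
        ⟨ENNReal.mul_ne_top ENNReal.ofReal_ne_top hGfin,
          ENNReal.mul_ne_top ENNReal.ofReal_ne_top (by norm_num)⟩) h2
      rw [ENNReal.toReal_ofReal (by positivity), ENNReal.toReal_add
        (ENNReal.mul_ne_top ENNReal.ofReal_ne_top hGfin)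
        (ENNReal.mul_ne_top ENNReal.ofReal_ne_top (by norm_num)), ENNReal.toReal_mul,
        ENNReal.toReal_mul, ENNReal.toReal_ofReal (by positivity),
        ENNReal.toReal_ofReal (by positivity)] at h6
      simpa using h6
    nlinarith
  -- two far points of `G`
  have hGfar : ENNReal.ofReal (2 * k) < volume G := by
    refine lt_of_lt_of_le ?_ hGvol
    rw [ENNReal.ofReal_lt_ofReal_iff (by positivity)]
    rw [hk]; linarith
  obtain ⟨x₁, hx₁, x₂, hx₂, hx12⟩ := far_pts hk0.le hGfar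
  have hslice : ∀ x ∈ G, ∃ y z : ℝ, (x, y) ∈ S ∧ (x, z) ∈ S ∧ k * ε ≤ z - y := by
    intro x hx
    have h1 : ENNReal.ofReal (2 * (k * ε)) < volume (Prod.mk x ⁻¹' S) := by
      refine lt_of_lt_of_le ?_ (le_of_lt hx)
      rw [ENNReal.ofReal_lt_ofReal_iff (by positivity)]
      rw [hk]; nlinarith
    obtain ⟨y, hy, z, hz, hyz⟩ := far_pts (by positivity) h1
    exact ⟨y, z, hy, hz, hyz⟩
  obtain ⟨y₁, z₁, hy₁, hz₁, h1⟩ := hslice x₁ hx₁
  obtain ⟨y₂, z₂, hy₂, hz₂, h2⟩ := hslice x₂ hx₂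
  refine ⟨(x₁ + x₂) / 2, (y₁ + z₁ + y₂ + z₂) / 4 / ε, fun x v hx hv => ?_⟩
  have hd : 0 < x₂ - x₁ := by linarith
  set η : ℝ := k ^ 2 / 6 with hη
  have hη0 : 0 < η := by positivity
  have hηk : η ≤ k / 6 := by rw [hη]; nlinarith
  set lam : ℝ := (x - x₁) / (x₂ - x₁) with hlam
  have hl2 : |lam - 1 / 2| < η / k := by
    have e : lam - 1 / 2 = (x - (x₁ + x₂) / 2) / (x₂ - x₁) := by
      rw [hlam]; field_simp; ring
    rw [e, abs_div, abs_of_pos hd, div_lt_div_iff₀ hd hk0]
    have : 0 ≤ |x - (x₁ + x₂) / 2| := abs_nonneg _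
    nlinarith
  have hηk2 : η / k ≤ 1 / 6 := by
    rw [div_le_iff₀ hk0]; linarith
  rw [abs_lt] at hl2
  have hl0 : 0 < lam := by linarith [hl2.1]
  have hl1 : lam < 1 := by linarith [hl2.2]
  have hxl : x = (1 - lam) * x₁ + lam * x₂ := by
    rw [hlam]; field_simp; ring
  have hL : (x, (1 - lam) * y₁ + lam * y₂) ∈ S := by
    have := hS hy₁ hy₂ (show 0 ≤ 1 - lam by linarith) hl0.le (by ring)
    simp only [Prod.smul_mk, smul_eq_mul, Prod.mk_add_mk] at this
    rw [hxl]; exact this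
  have hU : (x, (1 - lam) * z₁ + lam * z₂) ∈ S := by
    have := hS hz₁ hz₂ (show 0 ≤ 1 - lam by linarith) hl0.le (by ring)
    simp only [Prod.smul_mk, smul_eq_mul, Prod.mk_add_mk] at this
    rw [hxl]; exact this
  set L : ℝ := (1 - lam) * y₁ + lam * y₂ with hLd
  set U : ℝ := (1 - lam) * z₁ + lam * z₂ with hUd
  have hUL : k * ε ≤ U - L := by
    have : U - L = (1 - lam) * (z₁ - y₁) + lam * (z₂ - y₂) := by rw [hUd, hLd]; ring
    rw [this]
    nlinarith
  -- the centre
  have b1 := (hsub _ hy₁).2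
  have b2 := (hsub _ hy₂).2
  have b3 := (hsub _ hz₁).2
  have b4 := (hsub _ hz₂).2
  simp only at b1 b2 b3 b4
  rw [abs_lt] at b1 b2 b3 b4
  set M : ℝ := (y₂ + z₂) / 2 - (y₁ + z₁) / 2 with hM
  have hMb : |M| ≤ 2 * ε := by
    rw [abs_le]; constructor <;> linarith
  have hmid : (L + U) / 2 - (y₁ + z₁ + y₂ + z₂) / 4 = (lam - 1 / 2) * M := by
    rw [hLd, hUd, hM]; ring
  have hmid2 : |(lam - 1 / 2) * M| ≤ η / k * (2 * ε) := by
    rw [abs_mul]
    have h5 : |lam - 1 / 2| ≤ η / k := by rw [abs_le]; exact ⟨hl2.1.le, hl2.2.le⟩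
    exact mul_le_mul h5 hMb (abs_nonneg _) (by positivity)
  have hv2 : |ε * v - (y₁ + z₁ + y₂ + z₂) / 4| < ε * η := by
    have e : ε * v - (y₁ + z₁ + y₂ + z₂) / 4 = ε * (v - (y₁ + z₁ + y₂ + z₂) / 4 / ε) := by
      field_simp
    rw [e, abs_mul, abs_of_pos hε]
    exact mul_lt_mul_of_pos_left hv hε
  have hkey : ε * η + η / k * (2 * ε) ≤ k * ε / 2 := by
    have e : η / k = k / 6 := by rw [hη]; field_simp
    rw [e]
    nlinarith
  rw [abs_le] at hmid2
  rw [abs_lt] at hv2
  have hyL : L ≤ ε * v := by linarith [hmid2.1, hmid2.2, hv2.1, hv2.2]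
  have hyU : ε * v ≤ U := by linarith [hmid2.1, hmid2.2, hv2.1, hv2.2]
  have hULpos : 0 < U - L := lt_of_lt_of_le (by positivity) hUL
  have hcomb := hS hL hU (show 0 ≤ (U - ε * v) / (U - L) by
    apply div_nonneg <;> linarith) (show 0 ≤ (ε * v - L) / (U - L) by
    apply div_nonneg <;> linarith) (by field_simp; ring)
  have e2 : ((U - ε * v) / (U - L)) • ((x, L) : ℝ × ℝ) + ((ε * v - L) / (U - L)) • (x, U) =
      (x, ε * v) := by
    simp only [Prod.smul_mk, smul_eq_mul, Prod.mk_add_mk, Prod.mk.injEq]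
    constructor <;> (field_simp; ring)
  rwa [e2] at hcomb

end Pool.Agent.K4H48.Cone
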