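import Pool.Agent.K4H48.Cone.Body

/-! The competitor of half volume below a cosine graph. -/

set_option autoImplicit false

namespace Pool.Agent.K4H48.Cone

open MeasureTheory Set Filter Topology Metric
open scoped ENNReal Real

lemma null_graph {u : ℝ → ℝ} (hu : Continuous u) : volume {q : En 3 | q 2 = u (q 0)} = 0 := by
  rw [vol3]
  have h1 : mk3 ⁻¹' {q : En 3 | q 2 = u (q 0)} = {p : P3 | p.2 = u p.1.1} := rfl
  have hm : MeasurableSet {p : P3 | p.2 = u p.1.1} := by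
    apply IsClosed.measurableSet
    exact isClosed_eq continuous_snd (hu.comp (continuous_fst.comp continuous_fst))
  rw [h1, ← (mp_shear u hu).measure_preimage hm.nullMeasurableSet]
  have h2 : (shear u hu) ⁻¹' {p : P3 | p.2 = u p.1.1} = (univ : Set (ℝ × ℝ)) ×ˢ ({0} : Set ℝ) := by
    ext p
    simp [shear_apply]
  rw [h2, show (volume : Measure P3) = (volume : Measure (ℝ × ℝ)).prod (volume : Measure ℝ) from rfl,
    Measure.prod_prod]
  simp

lemma meas_sub {u : ℝ → ℝ} (hu : Continuous u) : MeasurableSet {q : En 3 | q 2 ≤ u (q 0)} := by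
  apply IsClosed.measurableSet
  exact isClosed_le (by fun_prop) (hu.comp (by fun_prop))

lemma meas_sup {u : ℝ → ℝ} (hu : Continuous u) : MeasurableSet {q : En 3 | q 2 < u (q 0)} := by
  apply IsOpen.measurableSet
  exact isOpen_lt (by fun_prop) (hu.comp (by fun_prop))

/-- central reflection preserves volume -/
lemma vol_neg_set (S : Set (En 3)) : volume {q | -q ∈ S} = volume S := by
  have : {q | -q ∈ S} = -S := rfl
  rw [this]
  exact Measure.measure_neg volume S

lemma half_zero {H a ε : ℝ} :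
    volume (Om H a ε) / 2 ≤ volume (Om H a ε ∩ {q | q 2 < 0}) := by
  set S := Om H a ε ∩ {q | q 2 < 0} with hS
  have h1 : Om H a ε ⊆ S ∪ ({q | -q ∈ S} ∪ {q | q 2 = (fun _ : ℝ => (0 : ℝ)) (q 0)}) := by
    intro q hq
    rcases lt_trichotomy (q 2) 0 with h | h | h
    · exact Or.inl ⟨hq, h⟩
    · exact Or.inr (Or.inr h)
    · refine Or.inr (Or.inl ⟨neg_mem_Om hq, ?_⟩)
      simpa using h
  have h2 := measure_mono (μ := volume) h1
  have h3 : volume (Om H a ε) ≤ volume S + volume S := by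
    have h4 : volume ({q | -q ∈ S} ∪ {q : En 3 | q 2 = (fun _ : ℝ => (0 : ℝ)) (q 0)}) ≤
        volume S := by
      refine (measure_union_le _ _).trans ?_
      rw [vol_neg_set, null_graph continuous_const, add_zero]
    exact h2.trans ((measure_union_le _ _).trans (add_le_add le_rfl h4))
  rw [← two_mul] at h3
  exact ENNReal.div_le_of_le_mul' h3

lemma int_prod_strip {β : ℝ} (hβ : 0 ≤ β) (f : ℝ → ℝ) :
    ∫ w in (Ioo (-1 : ℝ) 1 ×ˢ Ioo (-β) β : Set (ℝ × ℝ)), f w.1 = 2 * β * ∫ x in (-1 : ℝ)..1, f x := by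
  have h := setIntegral_prod_mul (μ := (volume : Measure ℝ)) (ν := (volume : Measure ℝ)) f
    (fun _ => (1 : ℝ)) (Ioo (-1 : ℝ) 1) (Ioo (-β) β)
  simp only [mul_one] at h
  rw [show (volume : Measure (ℝ × ℝ)) = (volume : Measure ℝ).prod (volume : Measure ℝ) from rfl, h,
    intervalIntegral.integral_of_le (by norm_num), integral_Ioc_eq_integral_Ioo,
    setIntegral_const, Real.volume_real_Ioo_of_le (by linarith)]
  simp only [smul_eq_mul, mul_one]
  ring

lemma intOn_strip {β : ℝ} {f : ℝ → ℝ} (hf : Continuous f) :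
    IntegrableOn (fun w : ℝ × ℝ => f w.1) (Ioo (-1 : ℝ) 1 ×ˢ Ioo (-β) β) := by
  have h1 : IntegrableOn (fun w : ℝ × ℝ => f w.1) (Icc (-1 : ℝ) 1 ×ˢ Icc (-β) β) :=
    (hf.comp continuous_fst).continuousOn.integrableOn_compact (isCompact_Icc.prod isCompact_Icc)
  exact h1.mono_set (prod_mono Ioo_subset_Icc_self Ioo_subset_Icc_self)

lemma vol_between {β : ℝ} (hβ : 0 ≤ β) {f g : ℝ → ℝ} (hf : Continuous f) (hg : Continuous g)
    (hfg : ∀ x, f x ≤ g x) :
    volume {p : P3 | |p.1.1| < 1 ∧ |p.1.2| < β ∧ f p.1.1 < p.2 ∧ p.2 < g p.1.1} =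
      ENNReal.ofReal (2 * β * ∫ x in (-1 : ℝ)..1, (g x - f x)) := by
  have h1 : {p : P3 | |p.1.1| < 1 ∧ |p.1.2| < β ∧ f p.1.1 < p.2 ∧ p.2 < g p.1.1} =
      regionBetween (fun w : ℝ × ℝ => f w.1) (fun w : ℝ × ℝ => g w.1)
        (Ioo (-1 : ℝ) 1 ×ˢ Ioo (-β) β) := by
    ext ⟨⟨x, y⟩, t⟩
    simp only [regionBetween, mem_ofPred_eq, mem_prod, mem_Ioo, abs_lt]
    tauto
  rw [h1, show (volume : Measure P3) = (volume : Measure (ℝ × ℝ)).prod (volume : Measure ℝ) from rfl,
    volume_regionBetween_eq_integral (intOn_strip hf) (intOn_strip hg)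
      (measurableSet_Ioo.prod measurableSet_Ioo) (fun w _ => hfg w.1)]
  congr 1
  exact int_prod_strip hβ (fun x => g x - f x)

/-- A graph of large enough mean has at least half of the body below it. -/
lemma half_le {H a ε m : ℝ} (hH : 1 < H) (ha : 0 ≤ a) (ha1 : a ≤ 1 / 2) (hε : 0 < ε)
    {w : ℝ → ℝ} (hw : Continuous w) (hm1 : m < 1) (hwm : ∀ x, |w x| ≤ m)
    (hmean : 4 * a * m ≤ ∫ x in (-1 : ℝ)..1, w x) :
    volume (Om H a ε) / 2 ≤ volume (Om H a ε ∩ {q | q 2 ≤ w (q 0)}) := by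
  set Ω := Om H a ε with hΩ
  have hfin : volume Ω ≠ ⊤ := vol_Om_ne_top ha hε.le
  set wp : ℝ → ℝ := fun x => max (w x) 0 with hwp
  set wn : ℝ → ℝ := fun x => max (-w x) 0 with hwn
  have hwpc : Continuous wp := hw.max continuous_const
  have hwnc : Continuous wn := hw.neg.max continuous_const
  have hwsub : ∀ x, w x = wp x - wn x := by
    intro x
    simp only [hwp, hwn]
    rcases le_total 0 (w x) with h | h
    · rw [max_eq_left h, max_eq_right (by linarith)]; ring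
    · rw [max_eq_right h, max_eq_left (by linarith)]; ring
  -- lower piece
  have h1 : volume (Ω ∩ {q | w (q 0) < q 2 ∧ q 2 < 0}) ≤
      ENNReal.ofReal (2 * ε * ∫ x in (-1 : ℝ)..1, wn x) := by
    have h2 := vol_between hε.le (f := fun x => - wn x) (g := fun _ => 0) hwnc.neg continuous_const
      (fun x => by simp [hwn])
    simp only [zero_sub, neg_neg] at h2
    rw [← h2, vol3]
    refine measure_mono ?_
    rintro ⟨⟨x, y⟩, t⟩ ⟨⟨h3, _, h4⟩, h5, h6⟩
    simp only [mk3_0, mk3_1, mk3_2] at h3 h4 h5 h6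
    refine ⟨h3, ?_, ?_, h6⟩
    · refine h4.trans_le ?_
      have := mul_nonneg ha (rr_nonneg x t)
      nlinarith
    · simp only [hwn]
      have : -w x ≤ max (-w x) 0 := le_max_left _ _
      linarith
  have h2 : ENNReal.ofReal (2 * (ε * (1 - 2 * a)) * ∫ x in (-1 : ℝ)..1, wp x) ≤
      volume (Ω ∩ {q | 0 < q 2 ∧ q 2 < w (q 0)}) := by
    have h2 := vol_between (β := ε * (1 - 2 * a)) (mul_nonneg hε.le (by linarith))
      (f := fun _ => 0) (g := wp) continuous_const hwpc (fun x => by simp [hwp])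
    simp only [sub_zero] at h2
    rw [← h2, vol3]
    refine measure_mono ?_
    rintro ⟨⟨x, y⟩, t⟩ ⟨h3, h4, h5, h6⟩
    simp only at h3 h4 h5 h6
    have h7 : t < w x := by
      simp only [hwp] at h6
      rcases lt_max_iff.1 h6 with h | h
      · exact h
      · exact absurd h5 (not_lt.2 h.le)
    have h8 : w x ≤ m := (abs_le.1 (hwm x)).2
    have ht : |t| < 1 := by rw [abs_lt]; constructor <;> linarith
    refine ⟨⟨h3, by simp only [mk3_2]; linarith, ?_⟩, h5, h7⟩
    simp only [mk3_0, mk3_1, mk3_2]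
    refine h4.trans_le ?_
    have h9 : rr x t ≤ 2 := (rr_le x t).trans (by linarith)
    have h10 : a * rr x t ≤ 2 * a := by nlinarith
    have := mul_le_mul_of_nonneg_left h10 hε.le
    nlinarith
  have h3 : volume (Ω ∩ {q | q 2 < 0}) + volume (Ω ∩ {q | 0 < q 2 ∧ q 2 < w (q 0)}) ≤
      volume (Ω ∩ {q | q 2 ≤ w (q 0)}) + volume (Ω ∩ {q | w (q 0) < q 2 ∧ q 2 < 0}) := by
    have hmm : MeasurableSet (Ω ∩ {q : En 3 | 0 < q 2 ∧ q 2 < w (q 0)}) := by
      refine (meas_Om H a ε).inter ?_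
      have h0 : MeasurableSet {q : En 3 | 0 < q 2} :=
        (isOpen_lt continuous_const (by fun_prop : Continuous fun q : En 3 => q 2)).measurableSet
      exact h0.inter (meas_sup hw)
    rw [← measure_union _ hmm]
    · refine le_trans (measure_mono ?_) (measure_union_le _ _)
      rintro q (⟨hq, h4⟩ | ⟨hq, h4, h5⟩)
      · rcases le_or_gt (q 2) (w (q 0)) with h | h
        · exact Or.inl ⟨hq, h⟩
        · exact Or.inr ⟨hq, h, h4⟩
      · exact Or.inl ⟨hq, h5.le⟩
    · rw [disjoint_left]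
      rintro q ⟨_, h4⟩ ⟨_, h5, _⟩
      simp only [mem_ofPred_eq] at h4
      linarith
  have hint : ∀ {f : ℝ → ℝ}, Continuous f → IntervalIntegrable f volume (-1) 1 :=
    fun hf => hf.intervalIntegrable _ _
  have h4 : ∫ x in (-1 : ℝ)..1, w x = (∫ x in (-1 : ℝ)..1, wp x) - ∫ x in (-1 : ℝ)..1, wn x := by
    rw [← intervalIntegral.integral_sub (hint hwpc) (hint hwnc)]
    exact intervalIntegral.integral_congr fun x _ => hwsub x
  have h5 : ∫ x in (-1 : ℝ)..1, wp x ≤ 2 * m := by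
    have h6 : ∫ x in (-1 : ℝ)..1, wp x ≤ ∫ x in (-1 : ℝ)..1, m := by
      apply intervalIntegral.integral_mono_on (by norm_num) (hint hwpc) (by simp)
      intro x _
      simp only [hwp]
      have := hwm x
      rw [abs_le] at this
      exact max_le this.2 (by linarith [this.1, this.2])
    rw [intervalIntegral.integral_const] at h6
    simp only [smul_eq_mul] at h6
    linarith
  have h6 : 2 * ε * (∫ x in (-1 : ℝ)..1, wn x) ≤
      2 * (ε * (1 - 2 * a)) * ∫ x in (-1 : ℝ)..1, wp x := by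
    have h7 : (∫ x in (-1 : ℝ)..1, wn x) ≤ (1 - 2 * a) * ∫ x in (-1 : ℝ)..1, wp x := by
      nlinarith
    have := mul_le_mul_of_nonneg_left h7 hε.le
    nlinarith
  have h7 : volume (Ω ∩ {q | w (q 0) < q 2 ∧ q 2 < 0}) ≤
      volume (Ω ∩ {q | 0 < q 2 ∧ q 2 < w (q 0)}) :=
    h1.trans ((ENNReal.ofReal_le_ofReal h6).trans h2)
  have h8 : volume (Ω ∩ {q | 0 < q 2 ∧ q 2 < w (q 0)}) ≠ ⊤ :=
    ne_top_of_le_ne_top hfin (measure_mono inter_subset_left)
  have h9 : volume (Ω ∩ {q | q 2 < 0}) + volume (Ω ∩ {q | 0 < q 2 ∧ q 2 < w (q 0)}) ≤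
      volume (Ω ∩ {q | q 2 ≤ w (q 0)}) + volume (Ω ∩ {q | 0 < q 2 ∧ q 2 < w (q 0)}) :=
    h3.trans (by gcongr)
  exact half_zero.trans ((ENNReal.add_le_add_iff_right h8).1 h9)

/-- The profile of the competitor. -/
noncomputable def uu (δ h x : ℝ) : ℝ := δ * (Real.cos (π * x) - h)

lemma contDiff_uu (δ h : ℝ) : ContDiff ℝ 2 (uu δ h) := by
  unfold uu
  exact contDiff_const.mul ((Real.contDiff_cos.comp (contDiff_const.mul contDiff_id)).sub
    contDiff_const)

lemma hasDerivAt_uu (δ h x : ℝ) : HasDerivAt (uu δ h) (-(δ * π * Real.sin (π * x))) x := by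
  unfold uu
  have h1 : HasDerivAt (fun x : ℝ => π * x) π x := by
    simpa using (hasDerivAt_id x).const_mul π
  have h2 := ((Real.hasDerivAt_cos (π * x)).comp x h1)
  have h3 := (h2.sub_const h).const_mul δ
  refine h3.congr_deriv ?_
  ring

lemma abs_deriv_uu {δ h x : ℝ} (hδ : 0 ≤ δ) : |deriv (uu δ h) x| ≤ π * δ := by
  rw [(hasDerivAt_uu δ h x).deriv, abs_neg, abs_mul, abs_of_nonneg (mul_nonneg hδ Real.pi_pos.le)]
  have := Real.abs_sin_le_one (π * x)
  have h2 := mul_le_mul_of_nonneg_left this (mul_nonneg hδ Real.pi_pos.le)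
  linarith

lemma uu_neg (δ h x : ℝ) : uu δ h (-x) = uu δ h x := by
  unfold uu
  rw [mul_neg, Real.cos_neg]

lemma abs_uu {δ h x : ℝ} (hδ : 0 ≤ δ) (h1 : -(1 / 5) ≤ h) (h2 : h ≤ 1 / 5) :
    |uu δ h x| ≤ 6 / 5 * δ := by
  unfold uu
  rw [abs_mul, abs_of_nonneg hδ]
  have h3 : |Real.cos (π * x) - h| ≤ 6 / 5 := by
    rw [abs_le]
    have := Real.neg_one_le_cos (π * x)
    have := Real.cos_le_one (π * x)
    constructor <;> linarith
  nlinarith

lemma int_uu (δ h : ℝ) : ∫ x in (-1 : ℝ)..1, uu δ h x = -(2 * δ * h) := by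
  have h1 : ∀ x ∈ uIcc (-1 : ℝ) 1, HasDerivAt (fun x => δ * (Real.sin (π * x) / π - h * x))
      (uu δ h x) x := by
    intro x _
    have h1 : HasDerivAt (fun x : ℝ => π * x) π x := by
      simpa using (hasDerivAt_id x).const_mul π
    have h2 := ((Real.hasDerivAt_sin (π * x)).comp x h1).div_const π
    have h3 : HasDerivAt (fun x : ℝ => h * x) h x := by
      simpa using (hasDerivAt_id x).const_mul h
    have h4 := (h2.sub h3).const_mul δ
    refine h4.congr_deriv ?_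
    unfold uu
    field_simp
  rw [intervalIntegral.integral_eq_sub_of_hasDerivAt h1
    ((contDiff_uu δ h).continuous.intervalIntegrable _ _)]
  simp only [mul_one, mul_neg, Real.sin_pi, Real.sin_neg]
  ring

lemma half_up {H a ε δ : ℝ} (hH : 1 < H) (ha : 0 ≤ a) (ha1 : a ≤ 1 / 24) (hε : 0 < ε)
    (hδ : 0 < δ) (hδ1 : δ ≤ 1 / 4) :
    volume (Om H a ε) / 2 ≤ volume (Om H a ε ∩ {q | q 2 ≤ uu δ (-(1 / 5)) (q 0)}) := by
  refine half_le hH ha (by linarith) hε (contDiff_uu _ _).continuous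
    (m := 6 / 5 * δ) (by linarith) (fun x => abs_uu hδ.le (by norm_num) (by norm_num)) ?_
  rw [int_uu]
  nlinarith

lemma half_down {H a ε δ : ℝ} (hH : 1 < H) (ha : 0 ≤ a) (ha1 : a ≤ 1 / 24) (hε : 0 < ε)
    (hδ : 0 < δ) (hδ1 : δ ≤ 1 / 4) :
    volume (Om H a ε ∩ {q | q 2 ≤ uu δ (1 / 5) (q 0)}) ≤ volume (Om H a ε) / 2 := by
  have hc : Continuous (uu δ (1 / 5)) := (contDiff_uu _ _).continuous
  have h1 := half_le (w := fun x => - uu δ (1 / 5) x) hH ha (by linarith) hε
    hc.neg (m := 6 / 5 * δ) (by linarith)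
    (fun x => by rw [abs_neg]; exact abs_uu hδ.le (by norm_num) (by norm_num)) (by
      rw [intervalIntegral.integral_neg, int_uu]
      nlinarith)
  have h2 : volume (Om H a ε ∩ {q | q 2 ≤ - uu δ (1 / 5) (q 0)}) =
      volume (Om H a ε ∩ {q | uu δ (1 / 5) (q 0) ≤ q 2}) := by
    rw [← vol_neg_set]
    congr 1
    ext q
    simp only [mem_ofPred_eq, mem_inter_iff, PiLp.neg_apply, uu_neg, neg_le_neg_iff]
    refine and_congr_left fun _ => ⟨fun h => ?_, neg_mem_Om⟩
    have := neg_mem_Om h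
    rwa [neg_neg] at this
  rw [h2] at h1
  have h3 : volume (Om H a ε ∩ {q | q 2 ≤ uu δ (1 / 5) (q 0)}) ≤
      volume (Om H a ε ∩ {q | q 2 < uu δ (1 / 5) (q 0)}) := by
    have : Om H a ε ∩ {q | q 2 ≤ uu δ (1 / 5) (q 0)} ⊆
        (Om H a ε ∩ {q | q 2 < uu δ (1 / 5) (q 0)}) ∪ {q | q 2 = uu δ (1 / 5) (q 0)} := by
      rintro q ⟨hq, h⟩
      rcases (show q 2 ≤ uu δ (1 / 5) (q 0) from h).lt_or_eq with h' | h'
      · exact Or.inl ⟨hq, h'⟩
      · exact Or.inr h'
    refine (measure_mono this).trans ((measure_union_le _ _).trans ?_)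
    rw [null_graph hc, add_zero]
  refine h3.trans ?_
  have h4 : volume (Om H a ε ∩ {q | q 2 < uu δ (1 / 5) (q 0)}) +
      volume (Om H a ε ∩ {q | uu δ (1 / 5) (q 0) ≤ q 2}) = volume (Om H a ε) := by
    rw [← measure_inter_add_diff (Om H a ε) (meas_sup hc)]
    congr 2
    ext q
    simp
  have hfin : volume (Om H a ε) ≠ ⊤ := vol_Om_ne_top ha hε.le
  have h5 : volume (Om H a ε ∩ {q | q 2 < uu δ (1 / 5) (q 0)}) + volume (Om H a ε) / 2 ≤
      volume (Om H a ε) / 2 + volume (Om H a ε) / 2 := by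
    rw [ENNReal.add_halves]
    conv_rhs => rw [← h4]
    gcongr
  exact (ENNReal.add_le_add_iff_right (ENNReal.div_ne_top hfin (by norm_num))).1 h5

lemma exists_half {H a ε δ : ℝ} (hH : 1 < H) (ha : 0 ≤ a) (ha1 : a ≤ 1 / 24) (hε : 0 < ε)
    (hδ : 0 < δ) (hδ1 : δ ≤ 1 / 4) :
    ∃ h : ℝ, -(1 / 5) ≤ h ∧ h ≤ 1 / 5 ∧
      volume (Om H a ε ∩ {q | q 2 ≤ uu δ h (q 0)}) = volume (Om H a ε) / 2 := by
  have hfin : volume (Om H a ε) ≠ ⊤ := vol_Om_ne_top ha hε.le
  have hfin2 : volume (Om H a ε) / 2 ≠ ⊤ := ENNReal.div_ne_top hfin (by norm_num)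
  set V : ℝ → ℝ := fun h => ∫ q, (Om H a ε ∩ {q | q 2 ≤ uu δ h (q 0)}).indicator 1 q with hV
  have hms : ∀ h, MeasurableSet (Om H a ε ∩ {q | q 2 ≤ uu δ h (q 0)}) := fun h =>
    (meas_Om H a ε).inter (meas_sub (contDiff_uu _ _).continuous)
  have hVe : ∀ h, V h = (volume (Om H a ε ∩ {q | q 2 ≤ uu δ h (q 0)})).toReal := by
    intro h
    simp only [hV]
    rw [integral_indicator_one (hms h)]
    rfl
  have hsf : ∀ h, volume (Om H a ε ∩ {q | q 2 ≤ uu δ h (q 0)}) ≠ ⊤ := fun h =>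
    ne_top_of_le_ne_top hfin (measure_mono inter_subset_left)
  have hcont : Continuous V := by
    rw [continuous_iff_continuousAt]
    intro h₀
    refine continuousAt_of_dominated (bound := (Om H a ε).indicator 1) ?_ ?_ ?_ ?_
    · exact Eventually.of_forall fun h => (measurable_one.indicator (hms h)).aestronglyMeasurable
    · refine Eventually.of_forall fun h => Eventually.of_forall fun q => ?_
      have h0 : 0 ≤ (Om H a ε ∩ {q | q 2 ≤ uu δ h (q 0)}).indicator (1 : En 3 → ℝ) q :=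
        indicator_nonneg (fun _ _ => zero_le_one) _
      rw [Real.norm_of_nonneg h0]
      exact indicator_le_indicator_of_subset inter_subset_left (fun _ => zero_le_one) q
    · rw [integrable_indicator_iff (meas_Om H a ε)]
      exact integrableOn_const hfin
    · have h1 : ∀ᵐ q : En 3, q ∉ {q : En 3 | q 2 = uu δ h₀ (q 0)} :=
        measure_eq_zero_iff_ae_notMem.1 (null_graph (contDiff_uu δ h₀).continuous)
      filter_upwards [h1] with q hq
      have hcq : Continuous fun h => uu δ h (q 0) := by unfold uu; fun_prop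
      rcases lt_or_gt_of_ne (show q 2 ≠ uu δ h₀ (q 0) from hq) with h2 | h2
      · have h3 : ∀ᶠ h in 𝓝 h₀, q 2 < uu δ h (q 0) :=
          hcq.continuousAt.eventually (eventually_gt_nhds h2)
        have h4 : (fun _ : ℝ => (Om H a ε).indicator (1 : En 3 → ℝ) q) =ᶠ[𝓝 h₀] fun h =>
            (Om H a ε ∩ {q | q 2 ≤ uu δ h (q 0)}).indicator 1 q := by
          filter_upwards [h3] with h hh
          by_cases hqO : q ∈ Om H a ε
          · have h5 : q ∈ Om H a ε ∩ {q | q 2 ≤ uu δ h (q 0)} := ⟨hqO, hh.le⟩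
            rw [indicator_of_mem hqO, indicator_of_mem h5]
          · have h5 : q ∉ Om H a ε ∩ {q | q 2 ≤ uu δ h (q 0)} := fun h' => hqO h'.1
            rw [indicator_of_notMem hqO, indicator_of_notMem h5]
        exact continuousAt_const.congr h4
      · have h3 : ∀ᶠ h in 𝓝 h₀, uu δ h (q 0) < q 2 :=
          hcq.continuousAt.eventually (eventually_lt_nhds h2)
        have h4 : (fun _ : ℝ => (0 : ℝ)) =ᶠ[𝓝 h₀] fun h =>
            (Om H a ε ∩ {q | q 2 ≤ uu δ h (q 0)}).indicator 1 q := by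
          filter_upwards [h3] with h hh
          have h5 : q ∉ Om H a ε ∩ {q | q 2 ≤ uu δ h (q 0)} := fun h' =>
            absurd h'.2 (not_le.2 hh)
          rw [indicator_of_notMem h5]
        exact continuousAt_const.congr h4
  have hlo : V (1 / 5) ≤ (volume (Om H a ε) / 2).toReal := by
    rw [hVe]
    exact ENNReal.toReal_mono hfin2 (half_down hH ha ha1 hε hδ hδ1)
  have hhi : (volume (Om H a ε) / 2).toReal ≤ V (-(1 / 5)) := by
    rw [hVe]
    exact ENNReal.toReal_mono (hsf _) (half_up hH ha ha1 hε hδ hδ1)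
  obtain ⟨h, hh, hhV⟩ := intermediate_value_Icc' (show (-(1 / 5) : ℝ) ≤ 1 / 5 by norm_num)
    hcont.continuousOn ⟨hlo, hhi⟩
  refine ⟨h, hh.1, hh.2, ?_⟩
  rw [hVe] at hhV
  exact (ENNReal.toReal_eq_toReal_iff' (hsf h) hfin2).1 hhV

end Pool.Agent.K4H48.Cone
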