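import Pool.Agent.K4H48.Cone.Comp

/-! The perimeter of the competitor. -/

set_option autoImplicit false

namespace Pool.Agent.K4H48.Cone

open MeasureTheory Set Filter Topology Metric
open scoped ENNReal Real

lemma continuous_rr_u {u : ℝ → ℝ} (hu : Continuous u) : Continuous fun x => rr x (u x) := by
  unfold rr; fun_prop

lemma area_W {a ε : ℝ} (ha : 0 ≤ a) (ha1 : a ≤ 1 / 24) (hε : 0 < ε) {u : ℝ → ℝ}
    (hu : Continuous u) (hu1 : ∀ x, |u x| ≤ 1) :
    volume {w : ℝ × ℝ | |w.1| < 1 ∧ |w.2| < ε * (1 - a * rr w.1 (u w.1))} =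
      ENNReal.ofReal (2 * ε * (2 - a * ∫ x in (-1 : ℝ)..1, rr x (u x))) := by
  have hc := continuous_rr_u hu
  set g : ℝ → ℝ := fun x => ε * (1 - a * rr x (u x)) with hg
  have hgc : Continuous g := by simp only [hg]; fun_prop
  have h1 : {w : ℝ × ℝ | |w.1| < 1 ∧ |w.2| < ε * (1 - a * rr w.1 (u w.1))} =
      regionBetween (fun x => -g x) g (Ioo (-1 : ℝ) 1) := by
    ext ⟨x, y⟩
    simp only [regionBetween, mem_ofPred_eq, mem_Ioo, abs_lt, hg]
  have hint : ∀ {f : ℝ → ℝ}, Continuous f → IntegrableOn f (Ioo (-1 : ℝ) 1) := fun hf =>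
    (hf.continuousOn.integrableOn_compact isCompact_Icc).mono_set Ioo_subset_Icc_self
  rw [h1, show (volume : Measure (ℝ × ℝ)) = (volume : Measure ℝ).prod (volume : Measure ℝ) from rfl,
    volume_regionBetween_eq_integral (f := fun x => -g x) (hint (f := fun x => -g x) hgc.neg)
      (hint hgc) measurableSet_Ioo]
  · congr 1
    rw [← integral_Ioc_eq_integral_Ioo, ← intervalIntegral.integral_of_le (by norm_num)]
    have h2 : ∀ x, (g - fun x => -g x) x = 2 * ε * (1 - a * rr x (u x)) := by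
      intro x
      simp only [Pi.sub_apply, hg]; ring
    simp only [h2]
    rw [intervalIntegral.integral_const_mul, intervalIntegral.integral_sub (by simp)
      ((hc.intervalIntegrable _ _).const_mul a), intervalIntegral.integral_const_mul]
    simp only [intervalIntegral.integral_const, smul_eq_mul]
    norm_num
  · intro x hx
    have h2 : rr x (u x) ≤ 2 := (rr_le _ _).trans (by
      have := hu1 x
      have : |x| < 1 := abs_lt.2 hx
      linarith)
    have h3 : 0 ≤ g x := by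
      simp only [hg]
      apply mul_nonneg hε.le
      nlinarith [rr_nonneg x (u x)]
    linarith

/-- The flux of an admissible field through the graph. -/
lemma flux_le {H a ε : ℝ} (ha : 0 ≤ a) (ha1 : a ≤ 1 / 24) (hε : 0 < ε) {u : ℝ → ℝ}
    (hu : ContDiff ℝ 2 u) (hu1 : ∀ x, |u x| ≤ 1) {m : ℝ} (hum : ∀ x, |deriv u x| ≤ m)
    {ψ : En 3 → En 3} (hψ : Adm (Om H a ε) ψ) :
    ∫ x in Om H a ε ∩ {q | q 2 ≤ u (q 0)}, dv ψ x ≤
      (1 + m ^ 2 / 2) * (2 * ε * (2 - a * ∫ x in (-1 : ℝ)..1, rr x (u x))) := by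
  have hc := continuous_rr_u hu.continuous
  have hm0 : 0 ≤ m := (abs_nonneg _).trans (hum 0)
  have h0 : ∫ x in Om H a ε ∩ {q | q 2 ≤ u (q 0)}, dv ψ x =
      ∫ x in {q : En 3 | q 2 ≤ u (q 0)}, dv ψ x := by
    refine (setIntegral_eq_of_subset_of_forall_sdiff_eq_zero (meas_sub hu.continuous)
      inter_subset_right ?_).symm
    rintro q ⟨h1, h2⟩
    exact dv_zero_of_notMem fun h3 => h2 ⟨hψ.subset h3, h1⟩
  rw [h0, graph_flux hu hψ.smooth hψ.compact]
  set W : Set (ℝ × ℝ) := {w | |w.1| < 1 ∧ |w.2| < ε * (1 - a * rr w.1 (u w.1))} with hW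
  have hWm : MeasurableSet W := by
    have h1 : Continuous fun w : ℝ × ℝ => |w.1| := by fun_prop
    have h2 : Continuous fun w : ℝ × ℝ => |w.2| := by fun_prop
    have h3 : Continuous fun w : ℝ × ℝ => ε * (1 - a * rr w.1 (u w.1)) :=
      continuous_const.mul (continuous_const.sub (continuous_const.mul (hc.comp continuous_fst)))
    exact ((isOpen_lt h1 continuous_const).inter (isOpen_lt h2 h3)).measurableSet
  have hWfin : volume W ≠ ⊤ := by
    rw [hW, area_W ha ha1 hε hu.continuous hu1]; exact ENNReal.ofReal_ne_top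
  have hzero : ∀ w, w ∉ W → ψ (mk3 (w, u w.1)) = 0 := by
    intro w hw
    by_contra h2
    have h3 := hψ.subset (subset_tsupport _ h2)
    exact hw ⟨h3.1, h3.2.2⟩
  have hdc : Continuous (deriv u) := hu.continuous_deriv (by norm_num)
  have hpc : ∀ i : Fin 3, Continuous fun w : ℝ × ℝ => ψ (mk3 (w, u w.1)) i := by
    intro i
    have h1 : Continuous fun w : ℝ × ℝ => mk3L (w, u w.1) :=
      mk3L.continuous.comp (continuous_id.prodMk (hu.continuous.comp continuous_fst))
    exact (EuclideanSpace.proj (𝕜 := ℝ) i).continuous.comp (hψ.smooth.continuous.comp h1)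
  have hcont : Continuous fun w : ℝ × ℝ =>
      ψ (mk3 (w, u w.1)) 2 - deriv u w.1 * ψ (mk3 (w, u w.1)) 0 :=
    (hpc 2).sub ((hdc.comp continuous_fst).mul (hpc 0))
  have hsupp : HasCompactSupport fun w : ℝ × ℝ =>
      ψ (mk3 (w, u w.1)) 2 - deriv u w.1 * ψ (mk3 (w, u w.1)) 0 := by
    refine HasCompactSupport.intro ((isCompact_Icc (a := (-1 : ℝ)) (b := 1)).prod
      (isCompact_Icc (a := -ε) (b := ε))) fun w hw => ?_
    have h1 : w ∉ W := by
      intro h2
      apply hw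
      obtain ⟨h3, h4⟩ := h2
      rw [mem_prod, mem_Icc, mem_Icc, ← abs_le, ← abs_le]
      refine ⟨h3.le, h4.le.trans ?_⟩
      have := mul_nonneg ha (rr_nonneg w.1 (u w.1))
      nlinarith
    rw [hzero w h1]
    simp
  have hle : ∀ w, ψ (mk3 (w, u w.1)) 2 - deriv u w.1 * ψ (mk3 (w, u w.1)) 0 ≤
      W.indicator (fun _ => 1 + m ^ 2 / 2) w := by
    intro w
    by_cases hw : w ∈ W
    · rw [indicator_of_mem hw]
      have h1 := hψ.norm_le (mk3 (w, u w.1))
      rw [EuclideanSpace.norm_eq, Real.sqrt_le_one, Fin.sum_univ_three] at h1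
      simp only [Real.norm_eq_abs, sq_abs] at h1
      set p := ψ (mk3 (w, u w.1)) 0
      set q := ψ (mk3 (w, u w.1)) 2
      have h2 := hum w.1
      have h3 : deriv u w.1 ^ 2 ≤ m ^ 2 := by
        rw [← sq_abs (deriv u w.1)]
        gcongr
      nlinarith [sq_nonneg (q - 1), sq_nonneg (p + deriv u w.1), sq_nonneg (ψ (mk3 (w, u w.1)) 1)]
    · rw [indicator_of_notMem hw, hzero w hw]
      simp
  calc ∫ w : ℝ × ℝ, (ψ (mk3 (w, u w.1)) 2 - deriv u w.1 * ψ (mk3 (w, u w.1)) 0)
      ≤ ∫ w, W.indicator (fun _ => 1 + m ^ 2 / 2) w := by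
        refine integral_mono (hcont.integrable_of_hasCompactSupport hsupp) ?_ hle
        rw [integrable_indicator_iff hWm]
        exact integrableOn_const hWfin
    _ = _ := by
        rw [integral_indicator_const _ hWm, smul_eq_mul, mul_comm]
        congr 1
        unfold Measure.real
        rw [hW, area_W ha ha1 hε hu.continuous hu1, ENNReal.toReal_ofReal]
        apply mul_nonneg (by positivity)
        have h1 : ∫ x in (-1 : ℝ)..1, rr x (u x) ≤ ∫ x in (-1 : ℝ)..1, (2 : ℝ) := by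
          apply intervalIntegral.integral_mono_on (by norm_num) (hc.intervalIntegrable _ _)
            (by simp)
          intro x hx
          refine (rr_le _ _).trans ?_
          have := hu1 x
          have : |x| ≤ 1 := abs_le.2 hx
          linarith
        simp only [intervalIntegral.integral_const, smul_eq_mul] at h1
        nlinarith

lemma rr_gain {δ h x : ℝ} (hδ : 0 < δ) (h2 : h ≤ 1 / 5)
    (hx1 : δ ≤ x) (hx2 : x ≤ 1 / 4) :
    x + δ ^ 2 / 12 * x⁻¹ ≤ rr x (uu δ h x) := by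
  have hx0 : 0 < x := hδ.trans_le hx1
  have hcos : 7 / 10 ≤ Real.cos (π * x) := by
    have h3 : Real.cos (π / 4) ≤ Real.cos (π * x) := by
      apply Real.cos_le_cos_of_nonneg_of_le_pi
      · positivity
      · linarith [Real.pi_pos]
      · nlinarith [Real.pi_pos]
    rw [Real.cos_pi_div_four] at h3
    have h4 : (1.4 : ℝ) ≤ √2 := by
      apply Real.le_sqrt_of_sq_le
      norm_num
    linarith
  have hu : (δ / 2) ^ 2 ≤ uu δ h x ^ 2 := by
    unfold uu
    rw [mul_pow]
    have : (1 / 2 : ℝ) ≤ Real.cos (π * x) - h := by linarith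
    have : (1 / 4 : ℝ) ≤ (Real.cos (π * x) - h) ^ 2 := by nlinarith
    nlinarith [sq_nonneg δ]
  unfold rr
  apply Real.le_sqrt_of_sq_le
  have h3 : (x + δ ^ 2 / 12 * x⁻¹) ^ 2 = x ^ 2 + δ ^ 2 / 6 + (δ ^ 2 / 12 * x⁻¹) ^ 2 := by
    field_simp
    ring
  have h4 : δ ^ 2 / 12 * x⁻¹ ≤ δ / 12 := by
    have : δ * x⁻¹ ≤ 1 := by
      rw [← div_eq_mul_inv, div_le_one hx0]; exact hx1
    nlinarith
  have h5 : 0 ≤ δ ^ 2 / 12 * x⁻¹ := by positivity
  rw [h3]
  nlinarith

lemma gain {δ h : ℝ} (hδ : 0 < δ) (hδ1 : δ ≤ 1 / 4) (h2 : h ≤ 1 / 5) :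
    1 + δ ^ 2 / 12 * Real.log ((1 / 4) / δ) ≤ ∫ x in (-1 : ℝ)..1, rr x (uu δ h x) := by
  have hc := continuous_rr_u (contDiff_uu δ h).continuous
  have hi : ∀ a b : ℝ, IntervalIntegrable (fun x => rr x (uu δ h x)) volume a b :=
    fun a b => hc.intervalIntegrable a b
  rw [← intervalIntegral.integral_add_adjacent_intervals (hi (-1) 0) (hi 0 1),
    ← intervalIntegral.integral_add_adjacent_intervals (hi 0 δ) (hi δ 1),
    ← intervalIntegral.integral_add_adjacent_intervals (hi δ (1 / 4)) (hi (1 / 4) 1)]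
  have e1 : (1 / 2 : ℝ) ≤ ∫ x in (-1 : ℝ)..0, rr x (uu δ h x) := by
    have h3 : ∫ x in (-1 : ℝ)..0, -x = 1 / 2 := by
      rw [intervalIntegral.integral_neg, integral_id]; norm_num
    rw [← h3]
    apply intervalIntegral.integral_mono_on (by norm_num)
      (continuous_neg.intervalIntegrable _ _) (hi _ _)
    intro x hx
    exact (neg_le_abs x).trans (abs_le_rr_left _ _)
  have e2 : ∀ a b : ℝ, a ≤ b → (b ^ 2 - a ^ 2) / 2 ≤ ∫ x in a..b, rr x (uu δ h x) := by
    intro a b hab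
    rw [← integral_id]
    apply intervalIntegral.integral_mono_on hab
      (continuous_id.intervalIntegrable _ _) (hi _ _)
    intro x hx
    exact (le_abs_self x).trans (abs_le_rr_left _ _)
  have e3 : ((1 / 4) ^ 2 - δ ^ 2) / 2 + δ ^ 2 / 12 * Real.log ((1 / 4) / δ) ≤
      ∫ x in δ..(1 / 4), rr x (uu δ h x) := by
    have h0 : (0 : ℝ) ∉ uIcc δ (1 / 4) := by
      rw [uIcc_of_le hδ1]
      intro h3
      exact absurd h3.1 (not_le.2 hδ)
    have hinv : IntervalIntegrable (fun x : ℝ => x⁻¹) volume δ (1 / 4) :=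
      intervalIntegral.intervalIntegrable_inv (fun x hx h4 => h0 (h4 ▸ hx)) continuousOn_id
    have hid : IntervalIntegrable (fun x : ℝ => x) volume δ (1 / 4) :=
      continuous_id.intervalIntegrable _ _
    rw [← integral_id, ← integral_inv h0, ← intervalIntegral.integral_const_mul,
      ← intervalIntegral.integral_add hid (hinv.const_mul _)]
    apply intervalIntegral.integral_mono_on hδ1
      (hid.add (hinv.const_mul _)) (hi _ _)
    intro x hx
    exact rr_gain hδ h2 hx.1 hx.2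
  have e4 := e2 0 δ hδ.le
  have e5 := e2 (1 / 4) 1 (by norm_num)
  norm_num at e5
  nlinarith

/-- The competitor. -/
theorem exists_comp {H a : ℝ} (hH : 1 < H) (ha : 0 < a) (ha1 : a ≤ 1 / 24) :
    ∃ γ : ℝ, 0 < γ ∧ ∀ ε : ℝ, 0 < ε → ∃ F : Set (En 3), MeasurableSet F ∧ F ⊆ Om H a ε ∧
      volume F = volume (Om H a ε) / 2 ∧
      per (Om H a ε) F ≤ ENNReal.ofReal (2 * ε * (2 - a - γ)) := by
  set δ : ℝ := 1 / 4 * Real.exp (-(200 / a)) with hδd
  have hδ : 0 < δ := by positivity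
  have hδ1 : δ ≤ 1 / 4 := by
    have : Real.exp (-(200 / a)) ≤ 1 := Real.exp_le_one_iff.2 (by
      have : 0 < 200 / a := by positivity
      linarith)
    rw [hδd]; linarith
  have hlog : Real.log ((1 / 4) / δ) = 200 / a := by
    have : (1 / 4) / δ = Real.exp (200 / a) := by
      rw [hδd, Real.exp_neg]
      field_simp
    rw [this, Real.log_exp]
  refine ⟨6 * δ ^ 2, by positivity, fun ε hε => ?_⟩
  obtain ⟨h, h1, h2, hV⟩ := exists_half hH ha.le ha1 hε hδ hδ1
  refine ⟨Om H a ε ∩ {q | q 2 ≤ uu δ h (q 0)}, (meas_Om H a ε).inter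
    (meas_sub (contDiff_uu _ _).continuous), inter_subset_left, hV, per_le fun ψ hψ => ?_⟩
  apply ENNReal.ofReal_le_ofReal
  have hu1 : ∀ x, |uu δ h x| ≤ 1 := fun x => (abs_uu hδ.le h1 h2).trans (by linarith)
  refine (flux_le ha.le ha1 hε (contDiff_uu δ h) hu1 (fun x => abs_deriv_uu hδ.le) hψ).trans ?_
  have hg := gain hδ hδ1 h2
  rw [hlog] at hg
  set I := ∫ x in (-1 : ℝ)..1, rr x (uu δ h x)
  have hpi : π ^ 2 ≤ 10 := by
    have := Real.pi_lt_d2
    have := Real.pi_pos
    nlinarith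
  have hm : (π * δ) ^ 2 ≤ 10 * δ ^ 2 := by
    rw [mul_pow]; nlinarith [sq_nonneg δ]
  have haI : a + 50 / 3 * δ ^ 2 ≤ a * I := by
    have h3 := mul_le_mul_of_nonneg_left hg ha.le
    have h4 : a * (1 + δ ^ 2 / 12 * (200 / a)) = a + 50 / 3 * δ ^ 2 := by
      field_simp
      ring
    linarith
  have hδ2 : 0 ≤ δ ^ 2 := sq_nonneg δ
  have hI2 : 0 ≤ (π * δ) ^ 2 / 2 := by positivity
  have key : (1 + (π * δ) ^ 2 / 2) * (2 - a * I) ≤ 2 - a - 6 * δ ^ 2 := by
    have h5 : (π * δ) ^ 2 / 2 * (2 - a * I) ≤ (π * δ) ^ 2 / 2 * 2 := by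
      apply mul_le_mul_of_nonneg_left _ hI2
      nlinarith
    nlinarith
  have := mul_le_mul_of_nonneg_left key (show 0 ≤ 2 * ε by positivity)
  linarith

end Pool.Agent.K4H48.Cone
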