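import Pool.Agent.K4H48.Cone.Body
import Pool.Agent.K4H48.Cone.Box

/-! A cone of large volume inside the body contains a wide box cone. -/

set_option autoImplicit false

namespace Pool.Agent.K4H48.Cone

open MeasureTheory Set Filter Topology Metric
open scoped ENNReal

lemma slice_large {P : Set P3} (hP : MeasurableSet P) {α H ε : ℝ} (hH : 1 < H) (hε : 0 < ε)
    (hsub : ∀ p ∈ P, p.2 ∈ Ioo α (α + (H - 1))) (hvol : ENNReal.ofReal (12 * ε) ≤ volume P) :
    ∃ t ∈ Ioo α (α + (H - 1)), ENNReal.ofReal (12 / H * ε) ≤ volume {w : ℝ × ℝ | (w, t) ∈ P} := by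
  by_contra hcon
  push Not at hcon
  have h1 : volume P = ∫⁻ t, volume {w : ℝ × ℝ | (w, t) ∈ P} := by
    rw [show (volume : Measure P3) = (volume : Measure (ℝ × ℝ)).prod (volume : Measure ℝ) from rfl,
      Measure.prod_apply_symm hP]
    rfl
  have h2 : ∫⁻ t, volume {w : ℝ × ℝ | (w, t) ∈ P} ≤
      ∫⁻ t, (Ioo α (α + (H - 1))).indicator (fun _ => ENNReal.ofReal (12 / H * ε)) t := by
    refine lintegral_mono fun t => ?_
    by_cases ht : t ∈ Ioo α (α + (H - 1))
    · rw [indicator_of_mem ht]
      exact (hcon t ht).le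
    · rw [indicator_of_notMem ht]
      have : {w : ℝ × ℝ | (w, t) ∈ P} = ∅ := by
        ext w
        simp only [mem_ofPred_eq, mem_empty_iff_false, iff_false]
        intro hw
        exact ht (hsub _ hw)
      rw [this, measure_empty]
  rw [lintegral_indicator measurableSet_Ioo, setLIntegral_const, Real.volume_Ioo,
    ← ENNReal.ofReal_mul (by positivity)] at h2
  rw [h1] at hvol
  have h3 := hvol.trans h2
  have h4 : 0 ≤ 12 / H * ε * (α + (H - 1) - α) := by
    apply mul_nonneg (by positivity)
    linarith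
  rw [ENNReal.ofReal_le_ofReal_iff h4] at h3
  have h5 : 12 / H * ε * (α + (H - 1) - α) = 12 * ε - 12 / H * ε := by
    field_simp
    ring
  rw [h5] at h3
  have h6 : 0 < 12 / H * ε := by positivity
  linarith

/-- The aperture of the box cone. -/
noncomputable def apert (H : ℝ) : ℝ := (12 / H / 9) ^ 2 / 6 / (2 * H)

theorem cone_box {H a ε c : ℝ} (hc : 0 < c) (hH : c * H = 8) (hH8 : 8 ≤ H)
    (ha : 0 ≤ a) (ha1 : a * (H + 1) ≤ 1 / 2) (hε : 0 < ε) {Γ : ConvexCone ℝ (En 3)}
    (hΓ : ENNReal.ofReal c * volume (Om H a ε) ≤ volume (Om H a ε ∩ (Γ : Set (En 3)))) :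
    ∃ ξ ζ : ℝ, |ξ| ≤ 1 ∧ |ζ| + a + apert H ≤ 1 ∧
      ((∀ x y t : ℝ, 0 < t → |x - ξ * t| < apert H * t → |y - ε * (ζ * t)| < ε * (apert H * t) →
        mk3 ((x, y), t) ∈ Γ) ∨
      (∀ x y t : ℝ, 0 < t → |x - ξ * t| < apert H * t → |y - ε * (ζ * t)| < ε * (apert H * t) →
        -mk3 ((x, y), t) ∈ Γ)) := by
  set Ω := Om H a ε with hΩ
  have hH0 : 0 < H := by linarith
  set D : Set (En 3) := interior (Ω ∩ (Γ : Set (En 3))) with hD
  have hconv : Convex ℝ (Ω ∩ (Γ : Set (En 3))) := (convex_Om ha hε.le).inter Γ.convex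
  have hDc : Convex ℝ D := hconv.interior
  have hDsub : D ⊆ Ω ∩ (Γ : Set (En 3)) := interior_subset
  have hDvol : volume (Ω ∩ (Γ : Set (En 3))) ≤ volume D := by
    have h1 : Ω ∩ (Γ : Set (En 3)) ⊆ D ∪ frontier (Ω ∩ (Γ : Set (En 3))) := by
      intro x hx
      by_cases h : x ∈ D
      · exact Or.inl h
      · exact Or.inr ⟨subset_closure hx, h⟩
    refine (measure_mono h1).trans ((measure_union_le _ _).trans ?_)
    rw [hconv.addHaar_frontier volume, add_zero]
  set P : Set P3 := mk3 ⁻¹' D with hP
  have hPo : IsOpen P := isOpen_interior.preimage mk3L.continuous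
  have hPc : Convex ℝ P := hDc.linear_preimage mk3L.toLinearMap
  have hPsub : ∀ p ∈ P, |p.1.1| < 1 ∧ |p.2| < H ∧ |p.1.2| < ε * (1 - a * rr p.1.1 p.2) :=
    fun p hp => mem_Om_mk3.1 (hDsub hp).1
  have hPvol : ENNReal.ofReal (32 * ε) ≤ volume P := by
    have h1 := vol_Om_ge hH0 ha ha1 hε
    calc ENNReal.ofReal (32 * ε) = ENNReal.ofReal c * ENNReal.ofReal (4 * H * ε) := by
          rw [← ENNReal.ofReal_mul hc.le]
          congr 1
          have : c * (4 * H * ε) = 4 * (c * H) * ε := by ring
          rw [this, hH]; ring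
      _ ≤ ENNReal.ofReal c * volume Ω := by gcongr
      _ ≤ volume D := hΓ.trans hDvol
      _ = volume P := vol3 D
  have hPmid : volume (P ∩ {p | |p.2| ≤ 1}) ≤ ENNReal.ofReal (8 * ε) := by
    have h1 := vol_Om_mid (H := H) ha hε
    rw [vol3] at h1
    refine (measure_mono ?_).trans h1
    rintro p ⟨h2, h3⟩
    exact ⟨(hDsub h2).1, h3⟩
  set P1 : Set P3 := P ∩ {p | 1 < p.2} with hP1
  set P2 : Set P3 := P ∩ {p | p.2 < -1} with hP2
  have hP1m : MeasurableSet P1 :=
    (hPo.inter (isOpen_lt continuous_const continuous_snd)).measurableSet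
  have hP2m : MeasurableSet P2 :=
    (hPo.inter (isOpen_lt continuous_snd continuous_const)).measurableSet
  have hcase : ENNReal.ofReal (12 * ε) ≤ volume P1 ∨ ENNReal.ofReal (12 * ε) ≤ volume P2 := by
    by_contra hcon
    push Not at hcon
    obtain ⟨h1, h2⟩ := hcon
    have h3 : P ⊆ (P ∩ {p | |p.2| ≤ 1}) ∪ (P1 ∪ P2) := by
      intro p hp
      rcases le_or_gt |p.2| 1 with h | h
      · exact Or.inl ⟨hp, h⟩
      · rcases lt_abs.1 h with h' | h'
        · exact Or.inr (Or.inl ⟨hp, h'⟩)
        · exact Or.inr (Or.inr ⟨hp, show p.2 < -1 by linarith⟩)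
    have h4 : volume P < ENNReal.ofReal (8 * ε) + (ENNReal.ofReal (12 * ε) +
        ENNReal.ofReal (12 * ε)) := by
      refine lt_of_le_of_lt ((measure_mono h3).trans ((measure_union_le _ _).trans
        (add_le_add hPmid (measure_union_le _ _)))) ?_
      exact ENNReal.add_lt_add_left ENNReal.ofReal_ne_top (ENNReal.add_lt_add h1 h2)
    rw [← ENNReal.ofReal_add (by positivity) (by positivity),
      ← ENNReal.ofReal_add (by positivity) (by positivity)] at h4
    have h5 := hPvol.trans_lt h4
    rw [show 8 * ε + (12 * ε + 12 * ε) = 32 * ε by ring] at h5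
    exact lt_irrefl _ h5
  -- a good slice
  have hslice : ∃ z : ℝ, 1 < |z| ∧ |z| < H ∧
      ENNReal.ofReal (12 / H * ε) ≤ volume {w : ℝ × ℝ | (w, z) ∈ P} := by
    rcases hcase with h | h
    · obtain ⟨z, hz, hz2⟩ := slice_large hP1m (α := 1) (H := H) (by linarith) hε (by
        rintro p ⟨hp, hp2⟩
        refine ⟨hp2, ?_⟩
        have := (hPsub p hp).2.1
        rw [abs_lt] at this
        linarith [this.2]) h
      have hz1 : 1 < z := hz.1
      have hzH : z < H := by linarith [hz.2]
      refine ⟨z, by rw [abs_of_pos (by linarith)]; exact hz1,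
        by rw [abs_of_pos (by linarith)]; exact hzH, hz2.trans (measure_mono ?_)⟩
      intro w hw
      exact (show (w, z) ∈ P1 from hw).1
    · obtain ⟨z, hz, hz2⟩ := slice_large hP2m (α := -H) (H := H) (by linarith) hε (by
        rintro p ⟨hp, hp2⟩
        have := (hPsub p hp).2.1
        rw [abs_lt] at this
        refine ⟨this.1, ?_⟩
        have h2 : p.2 < -1 := hp2
        linarith) h
      have hz1 : -H < z := hz.1
      have hzH : z < -1 := by linarith [hz.2]
      refine ⟨z, by rw [abs_of_neg (by linarith)]; linarith,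
        by rw [abs_of_neg (by linarith)]; linarith, hz2.trans (measure_mono ?_)⟩
      intro w hw
      exact (show (w, z) ∈ P2 from hw).1
  obtain ⟨z, hz1, hzH, hzv⟩ := hslice
  have hz0 : z ≠ 0 := by
    rintro rfl
    simp at hz1
    linarith
  set S : Set (ℝ × ℝ) := {w | (w, z) ∈ P} with hS
  have hSc : Convex ℝ S := by
    intro w hw w' hw' s t hs ht hst
    have := hPc (show (w, z) ∈ P from hw) (show (w', z) ∈ P from hw') hs ht hst
    have e : s • ((w, z) : P3) + t • (w', z) = (s • w + t • w', z) := by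
      ext1
      · rfl
      · simp only [Prod.smul_mk, smul_eq_mul, Prod.mk_add_mk]
        rw [← add_mul, hst, one_mul]
    rw [e] at this
    exact this
  have hSm : MeasurableSet S :=
    (hPo.preimage (by fun_prop : Continuous fun w : ℝ × ℝ => ((w, z) : P3))).measurableSet
  have hSsub : ∀ w ∈ S, |w.1| < 1 ∧ |w.2| < ε := by
    intro w hw
    obtain ⟨h1, _, h2⟩ := hPsub _ hw
    refine ⟨h1, h2.trans_le ?_⟩
    have := mul_nonneg ha (rr_nonneg w.1 z)
    simp only
    nlinarith
  obtain ⟨x₀, v₀, hbox⟩ := plane_box hSc hSm hε (c := 12 / H) (by positivity)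
    (by rw [div_le_iff₀ hH0]; linarith) hSsub hzv
  set η : ℝ := (12 / H / 9) ^ 2 / 6 with hη
  have hη0 : 0 < η := by positivity
  have hap : apert H = η / (2 * H) := rfl
  have hmem : ∀ x v : ℝ, |x - x₀| < η → |v - v₀| < η → ((x, ε * v), z) ∈ P :=
    fun x v hx hv => hbox x v hx hv
  have hzpos : 0 < |z| := by linarith
  have hx0 : |x₀| < 1 := (hPsub _ (hmem x₀ v₀ (by simpa using hη0) (by simpa using hη0))).1
  have hv0 : |v₀| + η / 2 < 1 - a * |z| := by
    have key : ∀ v : ℝ, |v - v₀| < η → |v| < 1 - a * |z| := by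
      intro v hv
      have h1 := (hPsub _ (hmem x₀ v (by simpa using hη0) hv)).2.2
      simp only at h1
      rw [abs_mul, abs_of_pos hε] at h1
      have h2 := lt_of_mul_lt_mul_left h1 hε.le
      have h3 := mul_le_mul_of_nonneg_left (abs_le_rr_right x₀ z) ha
      linarith
    rcases le_total 0 v₀ with h | h
    · have h1 := key (v₀ + η / 2) (by
        rw [add_sub_cancel_left, abs_of_pos (by positivity)]; linarith)
      rw [abs_of_nonneg (by positivity)] at h1
      rw [abs_of_nonneg h]; exact h1
    · have h1 := key (v₀ - η / 2) (by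
        rw [show v₀ - η / 2 - v₀ = -(η / 2) by ring, abs_neg, abs_of_pos (by positivity)]
        linarith)
      rw [abs_of_nonpos (by linarith)] at h1
      rw [abs_of_nonpos h]; linarith
  refine ⟨x₀ / z, v₀ / z, ?_, ?_, ?_⟩
  · rw [abs_div, div_le_one hzpos]
    linarith
  · rw [abs_div, hap]
    have h1 : |v₀| / |z| ≤ (1 - a * |z| - η / 2) / |z| := by
      rw [div_le_div_iff_of_pos_right hzpos]; linarith
    have h2 : (1 - a * |z| - η / 2) / |z| = 1 / |z| - a - η / (2 * |z|) := by
      field_simp
    have h3 : 1 / |z| ≤ 1 := by rw [div_le_one hzpos]; exact hz1.le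
    have h4 : η / (2 * H) ≤ η / (2 * |z|) := by
      apply div_le_div_of_nonneg_left hη0.le (by positivity)
      linarith
    linarith
  · have key : ∀ x y t : ℝ, 0 < t → |x - x₀ / z * t| < apert H * t →
        |y - ε * (v₀ / z * t)| < ε * (apert H * t) → mk3 ((x * z / t, y * z / t), z) ∈ Γ := by
      intro x y t ht h1 h2
      have h3 : |x * z / t - x₀| < η := by
        have e : x * z / t - x₀ = (x - x₀ / z * t) * (z / t) := by
          field_simp
        rw [e, abs_mul, abs_div, abs_of_pos ht]
        calc |x - x₀ / z * t| * (|z| / t) < apert H * t * (|z| / t) := by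
              apply mul_lt_mul_of_pos_right h1 (by positivity)
          _ = apert H * |z| := by field_simp
          _ ≤ apert H * (2 * H) := by
              apply mul_le_mul_of_nonneg_left _ (by rw [hap]; positivity)
              linarith
          _ = η := by rw [hap]; field_simp
      have h4 : |y * z / t / ε - v₀| < η := by
        have e : y * z / t / ε - v₀ = (y - ε * (v₀ / z * t)) * (z / t / ε) := by
          field_simp
        rw [e, abs_mul, abs_div, abs_div, abs_of_pos ht, abs_of_pos hε]
        calc |y - ε * (v₀ / z * t)| * (|z| / t / ε) < ε * (apert H * t) * (|z| / t / ε) := by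
              apply mul_lt_mul_of_pos_right h2 (by positivity)
          _ = apert H * |z| := by field_simp
          _ ≤ apert H * (2 * H) := by
              apply mul_le_mul_of_nonneg_left _ (by rw [hap]; positivity)
              linarith
          _ = η := by rw [hap]; field_simp
      have h5 := hmem _ _ h3 h4
      have e : ε * (y * z / t / ε) = y * z / t := by field_simp
      rw [e] at h5
      exact (hDsub h5).2
    have hsc : ∀ (r : ℝ) (p : P3), r • mk3 p = mk3 (r • p) := fun r p => (mk3L.map_smul r p).symm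
    rcases lt_or_gt_of_ne hz0 with hz | hz
    · refine Or.inr fun x y t ht h1 h2 => ?_
      have h3 := Γ.smul_mem (show 0 < t / (-z) from div_pos ht (by linarith)) (key x y t ht h1 h2)
      have e : (t / (-z)) • mk3 ((x * z / t, y * z / t), z) = -mk3 ((x, y), t) := by
        rw [hsc]
        have : -mk3 ((x, y), t) = mk3 (-((x, y), t)) := (mk3L.map_neg _).symm
        rw [this]
        congr 1
        ext
        · simp only [Prod.smul_mk, smul_eq_mul, Prod.neg_mk]; field_simp
        · simp only [Prod.smul_mk, smul_eq_mul, Prod.neg_mk]; field_simp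
        · simp only [Prod.smul_mk, smul_eq_mul, Prod.neg_mk]; field_simp
      rw [e] at h3
      exact h3
    · refine Or.inl fun x y t ht h1 h2 => ?_
      have h3 := Γ.smul_mem (show 0 < t / z from div_pos ht hz) (key x y t ht h1 h2)
      have e : (t / z) • mk3 ((x * z / t, y * z / t), z) = mk3 ((x, y), t) := by
        rw [hsc]
        congr 1
        ext
        · simp only [Prod.smul_mk, smul_eq_mul]; field_simp
        · simp only [Prod.smul_mk, smul_eq_mul]; field_simp
        · simp only [Prod.smul_mk, smul_eq_mul]; field_simp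
      rw [e] at h3
      exact h3

end Pool.Agent.K4H48.Cone
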