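import Pool.Agent.K4H48.Cone.Per

/-! Coordinates in three-dimensional Euclidean space, and the flux through a graph. -/

set_option autoImplicit false

namespace Pool.Agent.K4H48.Cone

open MeasureTheory Set Filter Topology Metric

/-- Coordinate space, with the last coordinate separated. -/
abbrev P3 : Type := (ℝ × ℝ) × ℝ

/-- The point with given coordinates. -/
noncomputable def mk3 (p : P3) : En 3 := !₂[p.1.1, p.1.2, p.2]

@[simp] lemma mk3_0 (p : P3) : mk3 p 0 = p.1.1 := rfl
@[simp] lemma mk3_1 (p : P3) : mk3 p 1 = p.1.2 := rfl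
@[simp] lemma mk3_2 (p : P3) : mk3 p 2 = p.2 := rfl

/-- `mk3` as a continuous linear map. -/
noncomputable def mk3L : P3 →L[ℝ] En 3 :=
  LinearMap.toContinuousLinearMap
    { toFun := mk3
      map_add' := by
        intro p q; ext i; fin_cases i <;> simp [mk3]
      map_smul' := by
        intro c p; ext i; fin_cases i <;> simp [mk3] }

lemma mk3L_apply (p : P3) : mk3L p = mk3 p := rfl

/-- coordinates of a point -/
noncomputable def co (q : En 3) : P3 := ((q 0, q 1), q 2)

lemma mk3_co (q : En 3) : mk3 (co q) = q := by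
  ext i; fin_cases i <;> rfl

lemma co_mk3 (p : P3) : co (mk3 p) = p := rfl

/-- `mk3` as a measurable equivalence. -/
noncomputable def e3 : P3 ≃ᵐ En 3 where
  toFun := mk3
  invFun := co
  left_inv := co_mk3
  right_inv := mk3_co
  measurable_toFun := mk3L.continuous.measurable
  measurable_invFun := by
    have : Continuous co := by unfold co; fun_prop
    exact this.measurable

lemma e3_apply (p : P3) : e3 p = mk3 p := rfl

lemma mp3 : MeasurePreserving mk3 (volume : Measure P3) (volume : Measure (En 3)) := by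
  have h1 : MeasurePreserving (MeasurableEquiv.piFinSuccAbove (fun _ : Fin 3 => ℝ) 2) :=
    volume_preserving_piFinSuccAbove (fun _ : Fin 3 => ℝ) 2
  have h2 : MeasurePreserving (MeasurableEquiv.finTwoArrow (α := ℝ)) :=
    volume_preserving_finTwoArrow ℝ
  have h3 : MeasurePreserving (Prod.swap : P3 → ℝ × (ℝ × ℝ)) (volume.prod volume)
      (volume.prod volume) := Measure.measurePreserving_swap
  have h4 : MeasurePreserving (Prod.map id (MeasurableEquiv.finTwoArrow (α := ℝ)).symm :
      ℝ × (ℝ × ℝ) → ℝ × (Fin 2 → ℝ)) (volume.prod volume) (volume.prod volume) :=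
    (MeasurePreserving.id volume).prod h2.symm
  have h5 : MeasurePreserving (@WithLp.toLp 2 (Fin 3 → ℝ)) := PiLp.volume_preserving_toLp (Fin 3)
  have h6 := h5.comp ((h1.symm _).comp (h4.comp h3))
  have e : mk3 = (@WithLp.toLp 2 (Fin 3 → ℝ)) ∘
      ((MeasurableEquiv.piFinSuccAbove (fun _ : Fin 3 => ℝ) 2).symm ∘
        (Prod.map id (MeasurableEquiv.finTwoArrow (α := ℝ)).symm ∘ Prod.swap)) := by
    funext p
    ext i
    fin_cases i <;> rfl
  rw [e]
  exact h6

lemma mp3' : MeasurePreserving e3 (volume : Measure P3) (volume : Measure (En 3)) := mp3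

lemma int3 (f : En 3 → ℝ) : ∫ x, f x = ∫ p, f (mk3 p) :=
  (mp3'.integral_comp' (g := f)).symm

lemma setInt3 (S : Set (En 3)) (f : En 3 → ℝ) :
    ∫ x in S, f x = ∫ p in mk3 ⁻¹' S, f (mk3 p) :=
  (mp3'.setIntegral_preimage_emb e3.measurableEmbedding f S).symm

lemma vol3 (S : Set (En 3)) : volume S = volume (mk3 ⁻¹' S) :=
  (mp3'.measure_preimage_equiv S).symm

/-- The divergence in coordinates. -/
lemma dv_mk3 {ψ : En 3 → En 3} (hψ : ContDiff ℝ 1 ψ) (p : P3) :
    dv ψ (mk3 p) = fderiv ℝ (fun p => ψ (mk3 p) 0) p ((1, 0), 0) +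
      fderiv ℝ (fun p => ψ (mk3 p) 1) p ((0, 1), 0) +
      fderiv ℝ (fun p => ψ (mk3 p) 2) p ((0, 0), 1) := by
  have h1 : ∀ (i : Fin 3) (v : P3), fderiv ℝ (fun p => ψ (mk3 p) i) p v =
      (fderiv ℝ ψ (mk3 p) (mk3 v)) i := by
    intro i v
    have h2 : HasFDerivAt (fun p => ψ (mk3L p)) ((fderiv ℝ ψ (mk3L p)).comp mk3L) p :=
      ((hψ.differentiable (by norm_num)) (mk3L p)).hasFDerivAt.comp p mk3L.hasFDerivAt
    have h3 := ((EuclideanSpace.proj (𝕜 := ℝ) i).hasFDerivAt (x := ψ (mk3L p))).comp p h2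
    have h4 : HasFDerivAt (fun p => ψ (mk3 p) i)
        ((EuclideanSpace.proj (𝕜 := ℝ) i).comp ((fderiv ℝ ψ (mk3L p)).comp mk3L)) p := h3
    rw [h4.fderiv]
    rfl
  rw [dv_eq_sum, Fin.sum_univ_three, h1, h1, h1]
  have e0 : mk3 ((1, 0), 0) = EuclideanSpace.single 0 1 := by
    ext i; fin_cases i <;> simp [mk3]
  have e1 : mk3 ((0, 1), 0) = EuclideanSpace.single 1 1 := by
    ext i; fin_cases i <;> simp [mk3]
  have e2 : mk3 ((0, 0), 1) = EuclideanSpace.single 2 1 := by
    ext i; fin_cases i <;> simp [mk3]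
  rw [e0, e1, e2]

lemma int_fderiv_zero {E : Type*} [NormedAddCommGroup E] [NormedSpace ℝ E]
    [FiniteDimensional ℝ E] [MeasurableSpace E] [BorelSpace E] (μ : Measure E)
    [μ.IsAddHaarMeasure] {g : E → ℝ} (hg : ContDiff ℝ 1 g) (hc : HasCompactSupport g) (v : E) :
    ∫ x, fderiv ℝ g x v ∂μ = 0 := by
  have hgi : Integrable g μ := hg.continuous.integrable_of_hasCompactSupport hc
  have hdc : Continuous fun x => fderiv ℝ g x v :=
    (hg.continuous_fderiv (by norm_num)).clm_apply continuous_const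
  have hdi : Integrable (fun x => fderiv ℝ g x v) μ :=
    hdc.integrable_of_hasCompactSupport (hc.fderiv_apply ℝ v)
  have h := integral_mul_fderiv_eq_neg_fderiv_mul_of_integrable (μ := μ) (𝕜 := ℝ)
    (f := fun _ : E => (1 : ℝ)) (g := g) (v := v) (by simp) (by simpa using hdi)
    (by simpa using hgi) (fun x _ => differentiableAt_const _)
    (fun x _ => (hg.differentiable (by norm_num)) x)
  simpa using h

lemma half_t {g : P3 → ℝ} (hg : ContDiff ℝ 1 g) (hc : HasCompactSupport g) :
    ∫ p in (univ : Set (ℝ × ℝ)) ×ˢ Iic (0 : ℝ), fderiv ℝ g p ((0, 0), 1) =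
      ∫ w : ℝ × ℝ, g (w, 0) := by
  have hdc : Continuous fun x => fderiv ℝ g x ((0, 0), 1) :=
    (hg.continuous_fderiv (by norm_num)).clm_apply continuous_const
  have hdi : Integrable (fun x => fderiv ℝ g x ((0, 0), 1)) :=
    hdc.integrable_of_hasCompactSupport (hc.fderiv_apply ℝ _)
  rw [show (volume : Measure P3) = (volume : Measure (ℝ × ℝ)).prod (volume : Measure ℝ) from rfl,
    setIntegral_prod _ hdi.integrableOn, Measure.restrict_univ]
  refine integral_congr_ae (Eventually.of_forall fun w => ?_)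
  simp only
  have h1 : ContDiff ℝ 1 (fun t : ℝ => g (w, t)) := hg.comp (by fun_prop)
  have h2 : HasCompactSupport (fun t : ℝ => g (w, t)) := by
    refine HasCompactSupport.intro (hc.isCompact.image continuous_snd) fun t ht => ?_
    by_contra h3
    exact ht ⟨(w, t), subset_tsupport _ h3, rfl⟩
  rw [← HasCompactSupport.integral_Iic_deriv_eq h1 h2 0]
  refine integral_congr_ae (Eventually.of_forall fun t => ?_)
  simp only
  have h3 : HasDerivAt (fun t : ℝ => ((w, t) : P3)) ((0, 0), 1) t :=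
    (hasDerivAt_const t w).prodMk (hasDerivAt_id t)
  exact (((hg.differentiable (by norm_num)) (w, t)).hasFDerivAt.comp_hasDerivAt t h3).deriv.symm

lemma half_w {g : P3 → ℝ} (hg : ContDiff ℝ 1 g) (hc : HasCompactSupport g) (v : ℝ × ℝ) :
    ∫ p in (univ : Set (ℝ × ℝ)) ×ˢ Iic (0 : ℝ), fderiv ℝ g p (v, 0) = 0 := by
  have hdc : Continuous fun x => fderiv ℝ g x (v, 0) :=
    (hg.continuous_fderiv (by norm_num)).clm_apply continuous_const
  have hdi : Integrable (fun x => fderiv ℝ g x (v, 0)) :=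
    hdc.integrable_of_hasCompactSupport (hc.fderiv_apply ℝ _)
  rw [show (volume : Measure P3) = (volume : Measure (ℝ × ℝ)).prod (volume : Measure ℝ) from rfl,
    ← setIntegral_prod_swap, setIntegral_prod _ (by
      have h := hdi.swap
      exact h.integrableOn), Measure.restrict_univ]
  refine integral_eq_zero_of_ae (Eventually.of_forall fun t => ?_)
  simp only [Prod.swap_prod_mk, Pi.zero_apply]
  have h1 : ContDiff ℝ 1 (fun w : ℝ × ℝ => g (w, t)) := hg.comp (by fun_prop)
  have h2 : HasCompactSupport (fun w : ℝ × ℝ => g (w, t)) := by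
    refine HasCompactSupport.intro (hc.isCompact.image continuous_fst) fun w hw => ?_
    by_contra h3
    exact hw ⟨(w, t), subset_tsupport _ h3, rfl⟩
  refine Eq.trans (integral_congr_ae (Eventually.of_forall fun w => ?_))
    (int_fderiv_zero volume h1 h2 v)
  simp only
  have h3 : HasFDerivAt (fun w : ℝ × ℝ => ((w, t) : P3))
      ((ContinuousLinearMap.id ℝ (ℝ × ℝ)).prod 0) w :=
    (hasFDerivAt_id w).prodMk (hasFDerivAt_const t w)
  have h4 := ((hg.differentiable (by norm_num)) (w, t)).hasFDerivAt.comp w h3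
  have h5 : fderiv ℝ (fun w : ℝ × ℝ => g (w, t)) w =
      (fderiv ℝ g (w, t)).comp ((ContinuousLinearMap.id ℝ (ℝ × ℝ)).prod 0) := h4.fderiv
  rw [h5]
  simp

end Pool.Agent.K4H48.Cone
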