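import Pool.Agent.K4H48.Cone.Field2

/-! The flux of the calibrating field through the middle section. -/

set_option autoImplicit false

namespace Pool.Agent.K4H48.Cone

open MeasureTheory Set Filter Topology Metric

variable {τ s : ℝ} {P : Prof τ s} {ε a ξ ζ : ℝ}

lemma vol_strip {α β : ℝ} (hαβ : α ≤ β) {g : ℝ → ℝ} (hg : Continuous g)
    (hg0 : ∀ x ∈ Icc α β, 0 ≤ g x) :
    volume {w : ℝ × ℝ | w.1 ∈ Icc α β ∧ |w.2| < g w.1} =
      ENNReal.ofReal (∫ x in α..β, 2 * g x) := by
  have h1 : {w : ℝ × ℝ | w.1 ∈ Icc α β ∧ |w.2| < g w.1} =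
      regionBetween (fun x => -g x) g (Icc α β) := by
    ext ⟨x, y⟩
    simp only [regionBetween, mem_ofPred_eq, mem_Ioo, abs_lt]
  have hint : ∀ {f : ℝ → ℝ}, Continuous f → IntegrableOn f (Icc α β) := fun hf =>
    hf.continuousOn.integrableOn_compact isCompact_Icc
  rw [h1, show (volume : Measure (ℝ × ℝ)) = (volume : Measure ℝ).prod (volume : Measure ℝ) from rfl,
    volume_regionBetween_eq_integral (f := fun x => -g x) (hint (f := fun x => -g x) hg.neg)
      (hint hg) measurableSet_Icc]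
  · congr 1
    rw [integral_Icc_eq_integral_Ioc, ← intervalIntegral.integral_of_le hαβ]
    refine intervalIntegral.integral_congr fun x _ => ?_
    simp only [Pi.sub_apply]; ring
  · intro x hx
    have := hg0 x hx
    linarith

lemma meas_strip {α β : ℝ} {g : ℝ → ℝ} (hg : Continuous g) :
    MeasurableSet {w : ℝ × ℝ | w.1 ∈ Icc α β ∧ |w.2| < g w.1} := by
  have h1 : MeasurableSet {w : ℝ × ℝ | w.1 ∈ Icc α β} := measurable_fst measurableSet_Icc
  have h2 : MeasurableSet {w : ℝ × ℝ | |w.2| < g w.1} :=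
    (isOpen_lt (by fun_prop) (hg.comp continuous_fst)).measurableSet
  exact h1.inter h2

lemma f2_zero (hs : 0 < s) (hτ1 : τ ≤ 1 / 2) (x y : ℝ) :
    f2 P ε a ξ ((x, y), 0) = P.χ |x| * P.b (y / (ε * (1 - a * |x|))) := by
  have hr : rr x 0 = |x| := by
    unfold rr
    rw [show x ^ 2 + (0 : ℝ) ^ 2 = x ^ 2 by ring, Real.sqrt_sq_eq_abs]
  unfold f2 fG
  simp only
  rw [hr]
  rcases lt_trichotomy x 0 with h | h | h
  · have hx0 : x ≠ 0 := h.ne
    have h1 : P.F ((x - ξ * 0) / |x|) = -1 := by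
      rw [abs_of_neg h]
      apply P.F_neg
      rw [mul_zero, sub_zero, div_neg, div_self hx0]
      linarith
    rw [h1, abs_of_neg h]
    field_simp
  · rw [h, abs_zero, P.χ_left 0 (by linarith)]
    simp
  · have h1 : P.F ((x - ξ * 0) / |x|) = 1 := by
      rw [abs_of_pos h]
      apply P.F_pos
      rw [show (x - ξ * 0) / x = 1 by field_simp; ring]
      linarith
    rw [h1, abs_of_pos h]
    field_simp

lemma flux_fld (hs : 0 < s) (hs1 : s < 1 / 4) (ha : 0 < a) (ha1 : a ≤ 1 / 24) (hε : 0 < ε)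
    (hτ : 0 < τ) (hτ1 : τ ≤ 1 / 2) (hζ : |ζ| + a + τ ≤ 1) :
    2 * ε * ((1 - s) * (1 - 2 * s) * (2 - a)) ≤
      ∫ q in {q : En 3 | q 2 ≤ 0}, dv (fld P ε a ξ ζ) q := by
  have h0 := graph_flux (u := fun _ => 0) contDiff_const
    (contDiff_fld (P := P) (ξ := ξ) (ζ := ζ) hs ha ha1 hε hτ)
    (compact_fld hs ha ha1 hε hτ hζ)
  simp only [deriv_const, zero_mul, sub_zero] at h0
  rw [h0]
  have h1 : ∀ w : ℝ × ℝ, fld P ε a ξ ζ (mk3 (w, 0)) 2 =
      P.χ |w.1| * P.b (w.2 / (ε * (1 - a * |w.1|))) := fun w => f2_zero hs hτ1 w.1 w.2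
  have hnn : ∀ w : ℝ × ℝ, 0 ≤ fld P ε a ξ ζ (mk3 (w, 0)) 2 := fun w => by
    rw [h1]; exact mul_nonneg (P.χ_nonneg _) (P.b_nonneg _)
  set g₁ : ℝ → ℝ := fun x => ε * (1 - s) * (1 - a * x) with hg₁
  set g₂ : ℝ → ℝ := fun x => ε * (1 - s) * (1 + a * x) with hg₂
  have hg₁c : Continuous g₁ := by simp only [hg₁]; fun_prop
  have hg₂c : Continuous g₂ := by simp only [hg₂]; fun_prop
  set R₁ : Set (ℝ × ℝ) := {w | w.1 ∈ Icc s (1 - s) ∧ |w.2| < g₁ w.1} with hR₁
  set R₂ : Set (ℝ × ℝ) := {w | w.1 ∈ Icc (-(1 - s)) (-s) ∧ |w.2| < g₂ w.1} with hR₂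
  have hεs : 0 < ε * (1 - s) := mul_pos hε (by linarith)
  have hv₁ : volume R₁ = ENNReal.ofReal (ε * ((1 - s) * (1 - 2 * s) * (2 - a))) := by
    rw [hR₁, vol_strip (by linarith) hg₁c]
    · congr 1
      have e : ∀ x ∈ uIcc s (1 - s), HasDerivAt (fun x => 2 * (ε * (1 - s)) * (x - a * x ^ 2 / 2))
          (2 * g₁ x) x := by
        intro x _
        have e1 := ((hasDerivAt_id x).sub (((hasDerivAt_pow 2 x).const_mul a).div_const 2)).const_mul
          (2 * (ε * (1 - s)))
        refine e1.congr_deriv ?_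
        simp only [hg₁]
        norm_num
        ring
      rw [intervalIntegral.integral_eq_sub_of_hasDerivAt e
        ((continuous_const.mul hg₁c).intervalIntegrable _ _)]
      ring
    · intro x hx
      simp only [hg₁]
      apply mul_nonneg hεs.le
      nlinarith [hx.1, hx.2]
  have hv₂ : volume R₂ = ENNReal.ofReal (ε * ((1 - s) * (1 - 2 * s) * (2 - a))) := by
    rw [hR₂, vol_strip (by linarith) hg₂c]
    · congr 1
      have e : ∀ x ∈ uIcc (-(1 - s)) (-s), HasDerivAt
          (fun x => 2 * (ε * (1 - s)) * (x + a * x ^ 2 / 2)) (2 * g₂ x) x := by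
        intro x _
        have e1 := ((hasDerivAt_id x).add (((hasDerivAt_pow 2 x).const_mul a).div_const 2)).const_mul
          (2 * (ε * (1 - s)))
        refine e1.congr_deriv ?_
        simp only [hg₂]
        norm_num
        ring
      rw [intervalIntegral.integral_eq_sub_of_hasDerivAt e
        ((continuous_const.mul hg₂c).intervalIntegrable _ _)]
      ring
    · intro x hx
      simp only [hg₂]
      apply mul_nonneg hεs.le
      nlinarith [hx.1, hx.2]
  have hval : 0 ≤ ε * ((1 - s) * (1 - 2 * s) * (2 - a)) := by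
    apply mul_nonneg hε.le
    apply mul_nonneg (mul_nonneg (by linarith) (by linarith)) (by linarith)
  have hle : ∀ w : ℝ × ℝ, R₁.indicator (fun _ => (1 : ℝ)) w + R₂.indicator (fun _ => (1 : ℝ)) w ≤
      fld P ε a ξ ζ (mk3 (w, 0)) 2 := by
    intro w
    by_cases h₁ : w ∈ R₁
    · have h₂ : w ∉ R₂ := by
        intro h
        have i1 := h₁.1.1
        have i2 := h.1.2
        linarith
      rw [indicator_of_mem h₁, indicator_of_notMem h₂, add_zero, h1]
      obtain ⟨⟨i1, i2⟩, i3⟩ := h₁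
      have hw : 0 < w.1 := by linarith
      have hb : 0 < 1 - a * w.1 := by nlinarith
      rw [abs_of_pos hw, P.χ_one _ i1 i2, P.b_one, one_mul]
      rw [abs_div, abs_of_pos (mul_pos hε hb), div_le_iff₀ (mul_pos hε hb)]
      refine i3.le.trans (le_of_eq ?_)
      simp only [hg₁]; ring
    · by_cases h₂ : w ∈ R₂
      · rw [indicator_of_mem h₂, indicator_of_notMem h₁, zero_add, h1]
        obtain ⟨⟨i1, i2⟩, i3⟩ := h₂
        have hw : w.1 < 0 := by linarith
        have hb : 0 < 1 - a * -w.1 := by nlinarith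
        rw [abs_of_neg hw, P.χ_one _ (by linarith) (by linarith), P.b_one, one_mul]
        rw [abs_div, abs_of_pos (mul_pos hε hb), div_le_iff₀ (mul_pos hε hb)]
        refine i3.le.trans (le_of_eq ?_)
        simp only [hg₂]; ring
      · rw [indicator_of_notMem h₂, indicator_of_notMem h₁, zero_add]
        exact hnn w
  have hm₁ : MeasurableSet R₁ := meas_strip hg₁c
  have hm₂ : MeasurableSet R₂ := meas_strip hg₂c
  have hi₁ : Integrable (R₁.indicator fun _ => (1 : ℝ)) := by
    rw [integrable_indicator_iff hm₁]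
    exact integrableOn_const (by rw [hv₁]; exact ENNReal.ofReal_ne_top)
  have hi₂ : Integrable (R₂.indicator fun _ => (1 : ℝ)) := by
    rw [integrable_indicator_iff hm₂]
    exact integrableOn_const (by rw [hv₂]; exact ENNReal.ofReal_ne_top)
  have hfi : Integrable fun w : ℝ × ℝ => fld P ε a ξ ζ (mk3 (w, 0)) 2 := by
    have hc : Continuous fun w : ℝ × ℝ => fld P ε a ξ ζ (mk3 (w, 0)) 2 := by
      have e1 : Continuous fun w : ℝ × ℝ => mk3L (w, 0) :=
        mk3L.continuous.comp (continuous_id.prodMk continuous_const)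
      exact (EuclideanSpace.proj (𝕜 := ℝ) (2 : Fin 3)).continuous.comp
        ((contDiff_fld (P := P) (ξ := ξ) (ζ := ζ) hs ha ha1 hε hτ).continuous.comp e1)
    refine hc.integrable_of_hasCompactSupport (HasCompactSupport.intro
      ((isCompact_Icc (a := (-1 : ℝ)) (b := 1)).prod (isCompact_Icc (a := -ε) (b := ε)))
      fun w hw => ?_)
    by_contra h
    apply hw
    have h2 : mk3 (w, 0) ∈ Ks s a ε := by
      by_contra h3
      apply h
      rw [fld_zero hs ha ha1 hε hτ hζ h3]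
      rfl
    have h3 := Ks_sub (H := 2) hs ha ha1 hε (by norm_num) h2
    obtain ⟨i1, _, i3⟩ := h3
    simp only [mk3_0, mk3_1, mk3_2] at i1 i3
    rw [mem_prod, mem_Icc, mem_Icc, ← abs_le, ← abs_le]
    refine ⟨i1.le, i3.le.trans ?_⟩
    have := mul_nonneg ha.le (rr_nonneg w.1 0)
    nlinarith
  have hI := integral_mono (hi₁.add hi₂) hfi hle
  have hI2 : ∫ w, (R₁.indicator (fun _ => (1 : ℝ)) + R₂.indicator (fun _ => (1 : ℝ))) w =
      2 * ε * ((1 - s) * (1 - 2 * s) * (2 - a)) := by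
    rw [integral_add' hi₁ hi₂, integral_indicator_const _ hm₁, integral_indicator_const _ hm₂]
    unfold Measure.real
    rw [hv₁, hv₂, ENNReal.toReal_ofReal hval]
    simp only [smul_eq_mul, mul_one]
    ring
  rw [← hI2]
  exact hI

end Pool.Agent.K4H48.Cone
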