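import Pool.Agent.K4H48.Cone.Exist
import Pool.Agent.K4H48.Cone.ConeBox
import Pool.Agent.K4H48.Cone.Flux

/-! No half-volume minimizer in a flat body has the cone property. -/

set_option autoImplicit false

namespace Pool.Agent.K4H48.Cone

open MeasureTheory Set Filter Topology Metric

/-- The flux comparison, first case: the lower half cone lies in `E`. -/
lemma flux_eq_low {E K₁ K₂ Ω : Set (En 3)} (hE : MeasurableSet E) {g : En 3 → ℝ}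
    (hsupp : ∀ q, g q ≠ 0 → q ∈ Ω ∧ ((0 < q 2 ∧ q ∈ K₁) ∨ (q 2 < 0 ∧ q ∈ K₂)))
    (h1 : volume ((Ω ∩ K₂) \ E) = 0) (h2 : volume ((Ω ∩ K₁) ∩ E) = 0) :
    ∫ q in E, g q = ∫ q in {q : En 3 | q 2 ≤ 0}, g q := by
  have hm : MeasurableSet {q : En 3 | q 2 ≤ 0} :=
    (isClosed_le (by fun_prop : Continuous fun q : En 3 => q 2) continuous_const).measurableSet
  rw [← integral_indicator hE, ← integral_indicator hm]
  refine integral_congr_ae ?_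
  filter_upwards [measure_eq_zero_iff_ae_notMem.1 h1, measure_eq_zero_iff_ae_notMem.1 h2]
    with q hq1 hq2
  by_cases hg : g q = 0
  · simp [indicator, hg]
  · obtain ⟨hΩ, ⟨ht, hK⟩ | ⟨ht, hK⟩⟩ := hsupp q hg
    · have h3 : q ∉ E := fun h => hq2 ⟨⟨hΩ, hK⟩, h⟩
      have h4 : q ∉ {q : En 3 | q 2 ≤ 0} := fun h => absurd ht (not_lt.2 h)
      rw [indicator_of_notMem h3, indicator_of_notMem h4]
    · have h3 : q ∈ E := by
        by_contra h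
        exact hq1 ⟨⟨hΩ, hK⟩, h⟩
      have h4 : q ∈ {q : En 3 | q 2 ≤ 0} := ht.le
      rw [indicator_of_mem h3, indicator_of_mem h4]

/-- The flux comparison, second case: the upper half cone lies in `E`. -/
lemma flux_eq_up {E K₁ K₂ Ω : Set (En 3)} (hE : MeasurableSet E) {g : En 3 → ℝ}
    (hgi : Integrable g) (hg0 : ∫ q, g q = 0)
    (hsupp : ∀ q, g q ≠ 0 → q ∈ Ω ∧ ((0 < q 2 ∧ q ∈ K₁) ∨ (q 2 < 0 ∧ q ∈ K₂)))
    (h1 : volume ((Ω ∩ K₁) \ E) = 0) (h2 : volume ((Ω ∩ K₂) ∩ E) = 0) :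
    ∫ q in E, g q = - ∫ q in {q : En 3 | q 2 ≤ 0}, g q := by
  have hm : MeasurableSet {q : En 3 | q 2 ≤ 0} :=
    (isClosed_le (by fun_prop : Continuous fun q : En 3 => q 2) continuous_const).measurableSet
  have h5 : ∫ q in E, g q = ∫ q in {q : En 3 | q 2 ≤ 0}ᶜ, g q := by
    rw [← integral_indicator hE, ← integral_indicator hm.compl]
    refine integral_congr_ae ?_
    filter_upwards [measure_eq_zero_iff_ae_notMem.1 h1, measure_eq_zero_iff_ae_notMem.1 h2]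
      with q hq1 hq2
    by_cases hg : g q = 0
    · simp [indicator, hg]
    · obtain ⟨hΩ, ⟨ht, hK⟩ | ⟨ht, hK⟩⟩ := hsupp q hg
      · have h3 : q ∈ E := by
          by_contra h
          exact hq1 ⟨⟨hΩ, hK⟩, h⟩
        have h4 : q ∈ {q : En 3 | q 2 ≤ 0}ᶜ := fun h => absurd ht (not_lt.2 h)
        rw [indicator_of_mem h3, indicator_of_mem h4]
      · have h3 : q ∉ E := fun h => hq2 ⟨⟨hΩ, hK⟩, h⟩
        have h4 : q ∉ {q : En 3 | q 2 ≤ 0}ᶜ := fun h => h ht.le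
        rw [indicator_of_notMem h3, indicator_of_notMem h4]
  have h6 := integral_add_compl hm hgi
  rw [h5]
  linarith

lemma adm_scale {Ω : Set (En 3)} {Φ : En 3 → En 3} (h1 : ContDiff ℝ 1 Φ)
    (hc : HasCompactSupport Φ) (hs : tsupport Φ ⊆ Ω) {M c : ℝ} (hM : 0 < M)
    (hcM : |c| = M⁻¹) (hn : ∀ q, ‖Φ q‖ ≤ M) : Adm Ω (fun q => c • Φ q) := by
  have hsup : tsupport (fun q => c • Φ q) ⊆ tsupport Φ := by
    refine closure_mono ?_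
    intro q hq
    rw [Function.mem_support] at hq ⊢
    intro h
    apply hq
    rw [h, smul_zero]
  refine ⟨h1.const_smul c, IsCompact.of_isClosed_subset hc (isClosed_tsupport _) hsup,
    hsup.trans hs, fun q => ?_⟩
  rw [norm_smul, Real.norm_eq_abs, hcM, inv_mul_le_iff₀ hM, mul_one]
  exact hn q

/-- The upper box cone. -/
def Kup (ξ ζ ε η : ℝ) : Set (En 3) :=
  {q | ∃ x y t : ℝ, 0 < t ∧ |x - ξ * t| < η * t ∧
    |y - ε * (ζ * t)| < ε * (η * t) ∧ q = mk3 ((x, y), t)}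

/-- Summary of the properties of the calibrating field. -/
theorem exists_field {a s η : ℝ} (ha : 0 < a) (ha1 : a ≤ 1 / 24) (hs : 0 < s) (hs1 : s < 1 / 4)
    (hη : 0 < η) (hη1 : η ≤ 1) :
    ∃ C : ℝ, 0 ≤ C ∧ ∀ ε ξ ζ H : ℝ, 0 < ε → 1 < H → |ξ| ≤ 1 → |ζ| + a + η ≤ 1 →
      ∃ Φ : En 3 → En 3, ContDiff ℝ 1 Φ ∧ HasCompactSupport Φ ∧ tsupport Φ ⊆ Om H a ε ∧
        (∀ q, ‖Φ q‖ ≤ 1 + (C * ε) ^ 2) ∧
        (∀ q, dv Φ q ≠ 0 → q ∈ Om H a ε ∧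
          ((0 < q 2 ∧ q ∈ Kup ξ ζ ε η) ∨ (q 2 < 0 ∧ -q ∈ Kup ξ ζ ε η))) ∧
        2 * ε * ((1 - s) * (1 - 2 * s) * (2 - a)) ≤ ∫ q in {q : En 3 | q 2 ≤ 0}, dv Φ q := by
  set τ : ℝ := η / 8 with hτ
  have hτ0 : 0 < τ := by positivity
  have hτ1 : τ ≤ 1 / 2 := by rw [hτ]; linarith
  obtain ⟨P⟩ := exists_prof hτ0 hs hs1
  refine ⟨8 * P.CF / s, by have := P.CF_nonneg; positivity, ?_⟩
  intro ε ξ ζ H hε hH hξ hζ
  have hζ' : |ζ| + a + τ ≤ 1 := by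
    have : τ ≤ η := by rw [hτ]; linarith
    linarith
  have hΦs : tsupport (fld P ε a ξ ζ) ⊆ Om H a ε := (tsupport_fld hs ha ha1 hε hτ0 hζ').trans
    (Ks_sub hs ha ha1 hε hH)
  refine ⟨fld P ε a ξ ζ, contDiff_fld hs ha ha1 hε hτ0, compact_fld hs ha ha1 hε hτ0 hζ',
    hΦs, norm_fld hs ha ha1 hε hτ0 hζ' hξ, ?_,
    flux_fld (P := P) (ξ := ξ) hs hs1 ha ha1 hε hτ0 hτ1 hζ'⟩
  intro q hq
  refine ⟨hΦs (by
    by_contra h
    exact hq (dv_zero_of_notMem h)), ?_⟩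
  obtain ⟨h1, h2, h3⟩ := dv_fld_supp hs ha ha1 hε hτ0 hτ1 hζ' hξ hq
  have hpos : 0 < |q 2| := abs_pos.2 h1
  have h4 : 4 * τ * |q 2| < η * |q 2| := by
    apply mul_lt_mul_of_pos_right _ hpos
    rw [hτ]; linarith
  have h5 := h2.trans_lt h4
  have h6 := h3.trans_lt (mul_lt_mul_of_pos_left h4 hε)
  rcases lt_or_gt_of_ne h1 with h | h
  · rw [abs_of_neg h] at h5 h6
    refine Or.inr ⟨h, -q 0, -q 1, -q 2, by linarith, ?_, ?_, ?_⟩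
    · rw [show -q 0 - ξ * -q 2 = -(q 0 - ξ * q 2) by ring, abs_neg]; exact h5
    · rw [show -q 1 - ε * (ζ * -q 2) = -(q 1 - ε * (ζ * q 2)) by ring, abs_neg]; exact h6
    · exact (mk3_co (-q)).symm
  · rw [abs_of_pos h] at h5 h6
    exact Or.inl ⟨h, q 0, q 1, q 2, h, h5, h6, (mk3_co q).symm⟩

/-- A unit field with large flux out of a set separating the two halves of the box cone. -/
lemma big_flux {Ω E K : Set (En 3)} (hE : MeasurableSet E) {Φ : En 3 → En 3} {M p : ℝ}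
    (hM : 0 < M) (h1 : ContDiff ℝ 1 Φ) (hc : HasCompactSupport Φ) (hs : tsupport Φ ⊆ Ω)
    (hn : ∀ q, ‖Φ q‖ ≤ M)
    (hsupp : ∀ q, dv Φ q ≠ 0 → q ∈ Ω ∧ ((0 < q 2 ∧ q ∈ K) ∨ (q 2 < 0 ∧ -q ∈ K)))
    (hp : p ≤ ∫ q in {q : En 3 | q 2 ≤ 0}, dv Φ q) {Γ : ConvexCone ℝ (En 3)}
    (hΓ1 : volume ((Ω ∩ (Γ : Set (En 3))) \ E) = 0) (hΓ2 : volume ((Ω ∩ {x | -x ∈ Γ}) ∩ E) = 0)
    (hK : (∀ q ∈ K, q ∈ Γ) ∨ (∀ q ∈ K, -q ∈ Γ)) :
    ∃ Z : En 3 → En 3, Adm Ω Z ∧ p / M ≤ ∫ q in E, dv Z q := by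
  set Kd : Set (En 3) := {q | -q ∈ K} with hKd
  rcases hK with hA | hB
  · have s1 : (Ω ∩ K) \ E ⊆ (Ω ∩ (Γ : Set (En 3))) \ E :=
      fun q hq => ⟨⟨hq.1.1, hA q hq.1.2⟩, hq.2⟩
    have s2 : (Ω ∩ Kd) ∩ E ⊆ (Ω ∩ {x | -x ∈ Γ}) ∩ E :=
      fun q hq => ⟨⟨hq.1.1, hA (-q) hq.1.2⟩, hq.2⟩
    have hnull1 : volume ((Ω ∩ K) \ E) = 0 := measure_mono_null s1 hΓ1
    have hnull2 : volume ((Ω ∩ Kd) ∩ E) = 0 := measure_mono_null s2 hΓ2
    have h7 := flux_eq_up (K₁ := K) (K₂ := Kd) hE (integrable_dv h1 hc) (int_dv_zero h1 hc)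
      hsupp hnull1 hnull2
    refine ⟨fun q => (-M⁻¹) • Φ q, adm_scale h1 hc hs hM
      (by rw [abs_neg, abs_of_pos (inv_pos.2 hM)]) hn, ?_⟩
    have hdv : ∀ q, dv (fun q => (-M⁻¹) • Φ q) q = -M⁻¹ * dv Φ q := fun q => dv_const_smul h1 _ q
    rw [setIntegral_congr_fun hE (fun q _ => hdv q), integral_const_mul, h7, div_eq_inv_mul]
    have := mul_le_mul_of_nonneg_left hp (inv_nonneg.2 hM.le)
    linarith
  · have s1 : (Ω ∩ Kd) \ E ⊆ (Ω ∩ (Γ : Set (En 3))) \ E := by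
      intro q hq
      have h3 := hB (-q) hq.1.2
      rw [neg_neg] at h3
      exact ⟨⟨hq.1.1, h3⟩, hq.2⟩
    have s2 : (Ω ∩ K) ∩ E ⊆ (Ω ∩ {x | -x ∈ Γ}) ∩ E :=
      fun q hq => ⟨⟨hq.1.1, hB q hq.1.2⟩, hq.2⟩
    have hnull1 : volume ((Ω ∩ Kd) \ E) = 0 := measure_mono_null s1 hΓ1
    have hnull2 : volume ((Ω ∩ K) ∩ E) = 0 := measure_mono_null s2 hΓ2
    have h7 := flux_eq_low (K₁ := K) (K₂ := Kd) hE hsupp hnull1 hnull2
    refine ⟨fun q => M⁻¹ • Φ q, adm_scale h1 hc hs hM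
      (abs_of_pos (inv_pos.2 hM)) hn, ?_⟩
    have hdv : ∀ q, dv (fun q => M⁻¹ • Φ q) q = M⁻¹ * dv Φ q := fun q => dv_const_smul h1 _ q
    rw [setIntegral_congr_fun hE (fun q _ => hdv q), integral_const_mul, h7, div_eq_inv_mul]
    exact mul_le_mul_of_nonneg_left hp (inv_nonneg.2 hM.le)

/-- Every half-volume minimizer in a suitable flat body fails the cone property. -/
theorem core {c : ℝ} (hc : 0 < c) (hc1 : c ≤ 1) :
    ∃ H a ε : ℝ, 8 ≤ H ∧ 0 < a ∧ 0 < ε ∧ volume (Om H a ε) ≠ ⊤ ∧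
      (∃ F : Set (En 3), MeasurableSet F ∧ F ⊆ Om H a ε ∧ volume F = volume (Om H a ε) / 2 ∧
        per (Om H a ε) F ≠ ⊤) ∧
      ∀ E : Set (En 3), MeasurableSet E → E ⊆ Om H a ε → volume E = volume (Om H a ε) / 2 →
        (∀ F : Set (En 3), MeasurableSet F → F ⊆ Om H a ε → volume F = volume (Om H a ε) / 2 →
          per (Om H a ε) E ≤ per (Om H a ε) F) →
        ∀ Γ : ConvexCone ℝ (En 3),
          volume ((Om H a ε ∩ (Γ : Set (En 3))) \ E) = 0 →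
          volume ((Om H a ε ∩ {x | -x ∈ Γ}) ∩ E) = 0 →
          ENNReal.ofReal c * volume (Om H a ε) ≤ volume (Om H a ε ∩ (Γ : Set (En 3))) → False := by
  obtain ⟨H, hH⟩ : ∃ H : ℝ, H = 8 / c := ⟨_, rfl⟩
  have hH8 : 8 ≤ H := by
    rw [hH, le_div_iff₀ hc]; linarith
  have hcH : c * H = 8 := by rw [hH]; field_simp
  obtain ⟨a, ha⟩ : ∃ a : ℝ, a = 1 / (24 * (H + 1)) := ⟨_, rfl⟩
  have ha0 : 0 < a := by rw [ha]; positivity
  have haH : a * (H + 1) = 1 / 24 := by rw [ha]; field_simp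
  have ha1 : a ≤ 1 / 24 := by nlinarith
  obtain ⟨γ, hγ, hcomp⟩ := exists_comp (H := H) (by linarith) ha0 ha1
  obtain ⟨s, hs0, hsγ, hs1⟩ : ∃ s : ℝ, 0 < s ∧ s ≤ γ / 24 ∧ s < 1 / 4 :=
    ⟨min (γ / 24) (1 / 8), lt_min (by positivity) (by norm_num), min_le_left _ _,
      (min_le_right _ _).trans_lt (by norm_num)⟩
  have hap : 0 < apert H := by unfold apert; positivity
  have hap1 : apert H ≤ 1 := by
    unfold apert
    have h1 : 12 / H / 9 ≤ 1 := by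
      rw [div_le_iff₀ (by norm_num), div_le_iff₀ (by linarith)]
      linarith
    have h2 : 0 ≤ 12 / H / 9 := by positivity
    rw [div_le_iff₀ (by positivity)]
    nlinarith
  obtain ⟨C, hC0, hfield⟩ := exists_field ha0 ha1 hs0 hs1 hap hap1
  obtain ⟨ε, hε, hεγ⟩ : ∃ ε : ℝ, 0 < ε ∧ (C * ε) ^ 2 ≤ γ / 8 := by
    refine ⟨Real.sqrt (γ / 8) / (C + 1), by positivity, ?_⟩
    rw [mul_div_assoc', div_pow, mul_pow, Real.sq_sqrt (by positivity),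
      div_le_iff₀ (by positivity)]
    nlinarith [sq_nonneg C, mul_nonneg hC0 hγ.le]
  obtain ⟨F, hFm, hFs, hFv, hFp⟩ := hcomp ε hε
  refine ⟨H, a, ε, hH8, ha0, hε, vol_Om_ne_top ha0.le hε.le,
    ⟨F, hFm, hFs, hFv, ne_top_of_le_ne_top ENNReal.ofReal_ne_top hFp⟩, ?_⟩
  intro E hEm hEs hEv hmin Γ hΓ1 hΓ2 hΓ3
  obtain ⟨ξ, ζ, hξ, hζ, hcone⟩ := cone_box hc hcH hH8 ha0.le (by linarith) hε hΓ3
  obtain ⟨Φ, hΦ1, hΦc, hΦs, hΦn, hsupp, hflux⟩ := hfield ε ξ ζ H hε (by linarith) hξ hζ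
  have hM0 : 0 < 1 + (C * ε) ^ 2 := by positivity
  have hK : (∀ q ∈ Kup ξ ζ ε (apert H), q ∈ Γ) ∨ (∀ q ∈ Kup ξ ζ ε (apert H), -q ∈ Γ) := by
    rcases hcone with hA | hB
    · left
      rintro q ⟨x, y, t, h1, h2, h3, rfl⟩
      exact hA x y t h1 h2 h3
    · right
      rintro q ⟨x, y, t, h1, h2, h3, rfl⟩
      exact hB x y t h1 h2 h3
  obtain ⟨Z, hZ, hZf⟩ := big_flux hEm hM0 hΦ1 hΦc hΦs hΦn hsupp hflux hΓ1 hΓ2 hK
  have h8 := ((le_per hZ).trans (hmin F hFm hFs hFv)).trans hFp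
  have hk : 2 - a - 6 * s ≤ (1 - s) * (1 - 2 * s) * (2 - a) := by
    nlinarith [mul_pos hs0 ha0, mul_nonneg (sq_nonneg s) (show 0 ≤ 2 - a by linarith)]
  have hpos : 0 < 2 * ε * ((1 - s) * (1 - 2 * s) * (2 - a)) / (1 + (C * ε) ^ 2) := by
    apply div_pos _ hM0
    apply mul_pos (by positivity)
    apply mul_pos (mul_pos (by linarith) (by linarith)) (by linarith)
  have h9 : ∫ q in E, dv Z q ≤ 2 * ε * (2 - a - γ) := by
    rcases ENNReal.ofReal_le_ofReal_iff'.1 h8 with h | h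
    · exact h
    · linarith
  have h10 : 2 * ε * ((1 - s) * (1 - 2 * s) * (2 - a)) / (1 + (C * ε) ^ 2) ≤
      2 * ε * (2 - a - γ) := hZf.trans h9
  rw [div_le_iff₀ hM0] at h10
  have h11 : (1 - s) * (1 - 2 * s) * (2 - a) ≤ (2 - a - γ) * (1 + (C * ε) ^ 2) := by
    have h12 : 2 * ε * ((1 - s) * (1 - 2 * s) * (2 - a)) ≤
        2 * ε * ((2 - a - γ) * (1 + (C * ε) ^ 2)) := by
      linarith
    exact le_of_mul_le_mul_left h12 (by positivity)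
  have h13 : (2 - a - γ) * (1 + (C * ε) ^ 2) ≤ 2 - a - γ + 2 * (C * ε) ^ 2 := by
    nlinarith [sq_nonneg (C * ε)]
  linarith

end Pool.Agent.K4H48.Cone
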