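import Pool.Agent.K4H48.Cone.Strong

/-! Existence of sets of least relative perimeter with given volume. -/

set_option autoImplicit false

namespace Pool.Agent.K4H48.Cone

open MeasureTheory Set Filter Topology Metric
open scoped ENNReal

variable {n : ℕ}

theorem exists_min {Ω : Set (En n)} (hΩ : IsOpen Ω) (hΩf : volume Ω ≠ ⊤) (v : ℝ≥0∞)
    (hex : ∃ F₀ : Set (En n), MeasurableSet F₀ ∧ F₀ ⊆ Ω ∧ volume F₀ = v ∧ per Ω F₀ ≠ ⊤) :
    ∃ E : Set (En n), MeasurableSet E ∧ E ⊆ Ω ∧ volume E = v ∧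
      ∀ F : Set (En n), MeasurableSet F → F ⊆ Ω → volume F = v → per Ω E ≤ per Ω F := by
  let S : Set ℝ≥0∞ := {p | ∃ F : Set (En n), MeasurableSet F ∧ F ⊆ Ω ∧ volume F = v ∧
    per Ω F = p}
  obtain ⟨F₀, h1, h2, h3, h4⟩ := hex
  have hSne : S.Nonempty := ⟨_, F₀, h1, h2, h3, rfl⟩
  set m := sInf S with hm
  have hmtop : m ≠ ⊤ := ne_top_of_le_ne_top h4 (sInf_le ⟨F₀, h1, h2, h3, rfl⟩)
  have hseq : ∀ k : ℕ, ∃ F : Set (En n), MeasurableSet F ∧ F ⊆ Ω ∧ volume F = v ∧
      per Ω F ≤ m + 1 / ((k : ℝ≥0∞) + 1) := by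
    intro k
    have hlt : m < m + 1 / ((k : ℝ≥0∞) + 1) := by
      refine ENNReal.lt_add_right hmtop ?_
      rw [one_div]
      simp
    obtain ⟨p, ⟨F, hF1, hF2, hF3, rfl⟩, hp⟩ := sInf_lt_iff.1 hlt
    exact ⟨F, hF1, hF2, hF3, hp.le⟩
  choose A hAm hAΩ hAv hAP using hseq
  have hbound : ∀ k, per Ω (A k) ≤ m + 1 := fun k => (hAP k).trans (by
    gcongr
    rw [one_div]
    refine ENNReal.inv_le_one.2 ?_
    exact le_add_self)
  have hm1 : m + 1 ≠ ⊤ := ENNReal.add_ne_top.2 ⟨hmtop, ENNReal.one_ne_top⟩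
  obtain ⟨f, hf, hf01, hfΩ, φ, hφ, hlim⟩ := weak_sets hΩ.measurableSet hΩf A hAm hAΩ
  have hs := strong hΩ (A := fun k => A (φ k)) (fun k => hAm _) (P := (m + 1).toReal)
    (fun k => ne_top_of_le_ne_top hm1 (hbound _)) (fun k => ENNReal.toReal_mono hm1 (hbound _))
    hf hf01 hlim
  let E : Set (En n) := {x | 1 / 2 < f x}
  have hE : MeasurableSet E := measurableSet_lt measurable_const hf
  have hEΩ : E ⊆ Ω := by
    intro x hx
    by_contra h5
    simp only [E, mem_ofPred_eq, hfΩ x h5] at hx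
    norm_num at hx
  have hfE : ∀ᵐ x : En n, f x = E.indicator (fun _ => (1 : ℝ)) x := by
    filter_upwards [hs] with x hx
    by_cases hxΩ : x ∈ Ω
    · rcases mul_eq_zero.1 (hx hxΩ) with h | h
      · have : x ∉ E := by simp only [E, mem_ofPred_eq, h]; norm_num
        rw [indicator_of_notMem this, h]
      · have h1 : f x = 1 := by linarith
        have : x ∈ E := by simp only [E, mem_ofPred_eq, h1]; norm_num
        rw [indicator_of_mem this, h1]
    · rw [indicator_of_notMem (fun h => hxΩ (hEΩ h)), hfΩ x hxΩ]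
  have hlimE : ∀ h : En n → ℝ, BM h →
      Tendsto (fun k => ∫ x in A (φ k), h x) atTop (𝓝 (∫ x in E, h x)) := by
    intro h hh
    have e : ∫ x in E, h x = ∫ x, h x * f x := by
      rw [← integral_indicator hE]
      refine integral_congr_ae (hfE.mono fun x hx => ?_)
      simp only
      rw [hx]
      by_cases hxE : x ∈ E
      · rw [indicator_of_mem hxE, indicator_of_mem hxE, mul_one]
      · rw [indicator_of_notMem hxE, indicator_of_notMem hxE, mul_zero]
    rw [e]
    exact hlim h hh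
  have hEf : volume E ≠ ⊤ := ne_top_of_le_ne_top hΩf (measure_mono hEΩ)
  have hvf : v ≠ ⊤ := by rw [← h3]; exact ne_top_of_le_ne_top hΩf (measure_mono h2)
  have hvol : volume E = v := by
    have h5 := hlimE (fun _ => 1) ⟨measurable_const, 1, fun x => by simp⟩
    simp only [setIntegral_const, smul_eq_mul, mul_one] at h5
    have h6 : ∀ k, volume.real (A (φ k)) = v.toReal := fun k => by
      unfold Measure.real; rw [hAv]
    simp only [h6] at h5
    have h7 := tendsto_nhds_unique tendsto_const_nhds h5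
    exact ((ENNReal.toReal_eq_toReal_iff' hvf hEf).1 h7).symm
  refine ⟨E, hE, hEΩ, hvol, fun F hF1 hF2 hF3 => ?_⟩
  have hle : m ≤ per Ω F := sInf_le ⟨F, hF1, hF2, hF3, rfl⟩
  refine le_trans (per_le fun Z hZ => ?_) hle
  have hBM : BM (dv Z) := by
    obtain ⟨C, hC⟩ := (continuous_dv hZ.smooth).bounded_above_of_compact_support
      (hasCompactSupport_dv hZ.compact)
    exact ⟨(continuous_dv hZ.smooth).measurable, C, fun x => by
      rw [← Real.norm_eq_abs]; exact hC x⟩
  have h5 := ENNReal.tendsto_ofReal (hlimE _ hBM)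
  have h6 : Tendsto (fun k : ℕ => m + 1 / (((φ k : ℕ) : ℝ≥0∞) + 1)) atTop (𝓝 (m + 0)) := by
    refine tendsto_const_nhds.add ?_
    have h7 : Tendsto (fun k : ℕ => 1 / ((k : ℝ≥0∞) + 1)) atTop (𝓝 0) := by
      have h8 := ENNReal.tendsto_inv_nat_nhds_zero
      have h9 := h8.comp (tendsto_add_atTop_nat 1)
      refine h9.congr fun k => ?_
      simp [one_div]
    exact h7.comp hφ.tendsto_atTop
  rw [add_zero] at h6
  exact le_of_tendsto_of_tendsto' h5 h6 fun k => (le_per hZ).trans (hAP _)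

/-- Comparison of perimeters in terms of test fields. -/
lemma fields_of_per_le {Ω E F : Set (En n)} (h : per Ω E ≤ per Ω F) {φ : En n → En n}
    (hφ : Adm Ω φ) {ε : ℝ} (hε : 0 < ε) :
    ∃ ψ : En n → En n, Adm Ω ψ ∧ ∫ x in E, dv φ x ≤ (∫ x in F, dv ψ x) + ε := by
  by_cases ha : ∫ x in E, dv φ x ≤ ε
  · refine ⟨fun _ => 0, ⟨contDiff_const, HasCompactSupport.zero, ?_, fun x => by simp⟩, ?_⟩
    · have : tsupport (fun _ : En n => (0 : En n)) = ∅ := by
        rw [tsupport_eq_empty_iff]; rfl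
      rw [this]; exact empty_subset _
    · have : ∀ x : En n, dv (fun _ : En n => (0 : En n)) x = 0 := by
        intro x
        rw [dv_eq_trc]; simp
      simp only [this, integral_zero, zero_add]
      exact ha
  · push Not at ha
    have h1 : ENNReal.ofReal ((∫ x in E, dv φ x) - ε) < per Ω F := by
      refine lt_of_lt_of_le ?_ ((le_per hφ).trans h)
      exact (ENNReal.ofReal_lt_ofReal_iff (by linarith)).2 (by linarith)
    obtain ⟨ψ, hψ⟩ := lt_iSup_iff.1 h1
    refine ⟨ψ.1, ψ.2, ?_⟩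
    have h2 := (ENNReal.ofReal_lt_ofReal_iff_of_nonneg (by linarith)).1 hψ
    linarith

end Pool.Agent.K4H48.Cone
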