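import Pool.Agent.K4H48.Cone.Prof

/-! The calibrating field. -/

set_option autoImplicit false

namespace Pool.Agent.K4H48.Cone

open MeasureTheory Set Filter Topology Metric

variable {τ s : ℝ} (P : Prof τ s) (ε a ξ ζ : ℝ)

/-- angular profile -/
noncomputable def fG (p : P3) : ℝ :=
  P.F ((p.1.1 - ξ * p.2) / rr p.1.1 p.2) * P.χ (rr p.1.1 p.2) *
    P.b (p.1.2 / (ε * (1 - a * rr p.1.1 p.2))) / rr p.1.1 p.2

/-- first component -/
noncomputable def f0 (p : P3) : ℝ := -p.2 * fG P ε a ξ p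

/-- last component -/
noncomputable def f2 (p : P3) : ℝ := p.1.1 * fG P ε a ξ p

/-- thin component -/
noncomputable def f1 (p : P3) : ℝ :=
  ε * deriv P.F ((p.1.1 - ξ * p.2) / rr p.1.1 p.2) * ((p.2 + ξ * p.1.1) / rr p.1.1 p.2 ^ 2) *
    P.χ (rr p.1.1 p.2) * (1 - a * rr p.1.1 p.2) *
    (P.B (p.1.2 / (ε * (1 - a * rr p.1.1 p.2))) -
      P.m * P.S ((p.1.2 / ε - ζ * p.2) / (τ * rr p.1.1 p.2)))

/-- the field -/
noncomputable def fld (q : En 3) : En 3 :=
  mk3 ((f0 P ε a ξ (co q), f1 P ε a ξ ζ (co q)), f2 P ε a ξ (co q))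

lemma rr_pos_arg {x t : ℝ} (h : 0 < rr x t) : 0 < x ^ 2 + t ^ 2 := by
  unfold rr at h
  exact Real.sqrt_pos.1 h

lemma contDiffAt_rr {p : P3} (h : 0 < rr p.1.1 p.2) :
    ContDiffAt ℝ 1 (fun p : P3 => rr p.1.1 p.2) p := by
  unfold rr
  refine ContDiffAt.sqrt ?_ (rr_pos_arg h).ne'
  fun_prop

variable {P ε a ξ ζ}

lemma contDiffAt_fG (hε : 0 < ε) {p : P3} (h : 0 < rr p.1.1 p.2)
    (h1 : 0 < 1 - a * rr p.1.1 p.2) : ContDiffAt ℝ 1 (fG P ε a ξ) p := by
  have hr := contDiffAt_rr h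
  have hβ : ContDiffAt ℝ 1 (fun p : P3 => ε * (1 - a * rr p.1.1 p.2)) p :=
    contDiffAt_const.mul (contDiffAt_const.sub (contDiffAt_const.mul hr))
  have hx : ContDiffAt ℝ 1 (fun p : P3 => p.1.1 - ξ * p.2) p := by fun_prop
  have hy : ContDiffAt ℝ 1 (fun p : P3 => p.1.2) p := by fun_prop
  unfold fG
  exact ((((P.hF.of_le (by norm_num)).contDiffAt.comp p (hx.div hr h.ne')).mul
    (P.hχ.contDiffAt.comp p hr)).mul
    (P.hb.contDiffAt.comp p (hy.div hβ (mul_pos hε h1).ne'))).div hr h.ne'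

lemma contDiffAt_f1 (hε : 0 < ε) (hτ : 0 < τ) {p : P3} (h : 0 < rr p.1.1 p.2)
    (h1 : 0 < 1 - a * rr p.1.1 p.2) : ContDiffAt ℝ 1 (f1 P ε a ξ ζ) p := by
  have hr := contDiffAt_rr h
  have hc : ContDiffAt ℝ 1 (fun p : P3 => 1 - a * rr p.1.1 p.2) p :=
    contDiffAt_const.sub (contDiffAt_const.mul hr)
  have hβ : ContDiffAt ℝ 1 (fun p : P3 => ε * (1 - a * rr p.1.1 p.2)) p :=
    contDiffAt_const.mul hc
  have hx : ContDiffAt ℝ 1 (fun p : P3 => p.1.1 - ξ * p.2) p := by fun_prop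
  have hx2 : ContDiffAt ℝ 1 (fun p : P3 => p.2 + ξ * p.1.1) p := by fun_prop
  have hy : ContDiffAt ℝ 1 (fun p : P3 => p.1.2) p := by fun_prop
  have hy2 : ContDiffAt ℝ 1 (fun p : P3 => p.1.2 / ε - ζ * p.2) p := by fun_prop
  have hFd : ContDiff ℝ 1 (deriv P.F) := by
    have : ContDiff ℝ (1 + 1) P.F := by
      rw [show (1 + 1 : WithTop ℕ∞) = 2 by norm_num]; exact P.hF
    exact (contDiff_succ_iff_deriv.1 this).2.2
  unfold f1
  exact ((((contDiffAt_const.mul (hFd.contDiffAt.comp p (hx.div hr h.ne'))).mul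
    (hx2.div (hr.pow 2) (pow_pos h 2).ne')).mul (P.hχ.contDiffAt.comp p hr)).mul hc).mul
    ((P.hB1.contDiffAt.comp p (hy.div hβ (mul_pos hε h1).ne')).sub
      (contDiffAt_const.mul (P.hS.contDiffAt.comp p
        (hy2.div (contDiffAt_const.mul hr) (mul_pos hτ h).ne'))))

lemma cd_of_chi (hs : 0 < s) {f : P3 → ℝ} (h0 : ∀ p : P3, P.χ (rr p.1.1 p.2) = 0 → f p = 0)
    (h1 : ∀ p : P3, 0 < rr p.1.1 p.2 → rr p.1.1 p.2 < 1 → ContDiffAt ℝ 1 f p) :
    ContDiff ℝ 1 f := by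
  rw [contDiff_iff_contDiffAt]
  intro p
  rcases lt_or_ge (rr p.1.1 p.2) (s / 2) with h | h
  · have h2 : f =ᶠ[𝓝 p] fun _ => 0 := by
      filter_upwards [continuous_rr.continuousAt.eventually (eventually_lt_nhds h)] with p' hp'
      exact h0 p' (P.χ_left _ hp'.le)
    exact contDiffAt_const.congr_of_eventuallyEq h2
  · rcases lt_or_ge (1 - s / 2) (rr p.1.1 p.2) with h' | h'
    · have h2 : f =ᶠ[𝓝 p] fun _ => 0 := by
        filter_upwards [continuous_rr.continuousAt.eventually (eventually_gt_nhds h')] with p' hp'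
        exact h0 p' (P.χ_right _ hp'.le)
      exact contDiffAt_const.congr_of_eventuallyEq h2
    · exact h1 p (by linarith) (by linarith)

lemma one_sub_pos (ha : 0 < a) (ha1 : a ≤ 1 / 24) {r : ℝ} (_hr : 0 ≤ r) (hr1 : r < 1) :
    0 < 1 - a * r := by nlinarith

lemma contDiff_fG (hs : 0 < s) (ha : 0 < a) (ha1 : a ≤ 1 / 24) (hε : 0 < ε) :
    ContDiff ℝ 1 (fG P ε a ξ) := by
  refine cd_of_chi (P := P) hs (fun p hp => ?_) (fun p hp hp1 =>
    contDiffAt_fG hε hp (one_sub_pos ha ha1 hp.le hp1))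
  unfold fG
  rw [hp]; simp

lemma contDiff_f0 (hs : 0 < s) (ha : 0 < a) (ha1 : a ≤ 1 / 24) (hε : 0 < ε) :
    ContDiff ℝ 1 (f0 P ε a ξ) := by
  have h : ContDiff ℝ 1 (fun p : P3 => -p.2) := by fun_prop
  exact h.mul (contDiff_fG hs ha ha1 hε)

lemma contDiff_f2 (hs : 0 < s) (ha : 0 < a) (ha1 : a ≤ 1 / 24) (hε : 0 < ε) :
    ContDiff ℝ 1 (f2 P ε a ξ) := by
  have h : ContDiff ℝ 1 (fun p : P3 => p.1.1) := by fun_prop
  exact h.mul (contDiff_fG hs ha ha1 hε)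

lemma contDiff_f1 (hs : 0 < s) (ha : 0 < a) (ha1 : a ≤ 1 / 24) (hε : 0 < ε) (hτ : 0 < τ) :
    ContDiff ℝ 1 (f1 P ε a ξ ζ) := by
  refine cd_of_chi (P := P) hs (fun p hp => ?_) (fun p hp hp1 =>
    contDiffAt_f1 hε hτ hp (one_sub_pos ha ha1 hp.le hp1))
  unfold f1
  rw [hp]; simp

/-- coordinates as a continuous linear map -/
noncomputable def coL : En 3 →L[ℝ] P3 :=
  ((EuclideanSpace.proj (𝕜 := ℝ) (0 : Fin 3)).prod (EuclideanSpace.proj (𝕜 := ℝ) (1 : Fin 3))).prod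
    (EuclideanSpace.proj (𝕜 := ℝ) (2 : Fin 3))

lemma coL_apply (q : En 3) : coL q = co q := rfl

lemma contDiff_fld (hs : 0 < s) (ha : 0 < a) (ha1 : a ≤ 1 / 24) (hε : 0 < ε) (hτ : 0 < τ) :
    ContDiff ℝ 1 (fld P ε a ξ ζ) := by
  have h1 : ContDiff ℝ 1 fun p : P3 => (((f0 P ε a ξ p, f1 P ε a ξ ζ p), f2 P ε a ξ p) : P3) :=
    ((contDiff_f0 hs ha ha1 hε).prodMk (contDiff_f1 hs ha ha1 hε hτ)).prodMk
      (contDiff_f2 hs ha ha1 hε)
  exact mk3L.contDiff.comp (h1.comp coL.contDiff)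

/-- The angular derivative. -/
lemma ang_deriv (hε : 0 < ε) {x y t : ℝ} (h : 0 < rr x t) (h1 : 0 < 1 - a * rr x t) :
    fderiv ℝ (fG P ε a ξ) ((x, y), t) ((-t, 0), x) =
      -(deriv P.F ((x - ξ * t) / rr x t) * ((t + ξ * x) / rr x t)) * P.χ (rr x t) *
        P.b (y / (ε * (1 - a * rr x t))) / rr x t := by
  have hG : HasFDerivAt (fG P ε a ξ) (fderiv ℝ (fG P ε a ξ) ((x, y), t)) ((x, y), t) :=
    ((contDiffAt_fG (P := P) (ξ := ξ) (p := ((x, y), t)) hε h h1).differentiableAt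
      (by norm_num)).hasFDerivAt
  let c : ℝ → P3 := fun θ => ((x * Real.cos θ - t * Real.sin θ, y),
    x * Real.sin θ + t * Real.cos θ)
  have hc0 : c 0 = ((x, y), t) := by simp [c]
  have hc : HasDerivAt c ((-t, 0), x) 0 := by
    have e1 : HasDerivAt (fun θ : ℝ => x * Real.cos θ - t * Real.sin θ) (-t) 0 := by
      have := ((Real.hasDerivAt_cos 0).const_mul x).sub ((Real.hasDerivAt_sin 0).const_mul t)
      refine this.congr_deriv ?_
      simp
    have e2 : HasDerivAt (fun θ : ℝ => x * Real.sin θ + t * Real.cos θ) x 0 := by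
      have := ((Real.hasDerivAt_sin 0).const_mul x).add ((Real.hasDerivAt_cos 0).const_mul t)
      refine this.congr_deriv ?_
      simp
    exact (e1.prodMk (hasDerivAt_const 0 y)).prodMk e2
  have hrr : ∀ θ : ℝ, rr (x * Real.cos θ - t * Real.sin θ) (x * Real.sin θ + t * Real.cos θ) =
      rr x t := by
    intro θ
    unfold rr
    congr 1
    nlinarith [Real.sin_sq_add_cos_sq θ]
  have hcomp1 : HasDerivAt (fG P ε a ξ ∘ c) (fderiv ℝ (fG P ε a ξ) ((x, y), t) ((-t, 0), x)) 0 := by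
    rw [← hc0] at hG
    have := hG.comp_hasDerivAt (0 : ℝ) hc
    rw [hc0] at this
    exact this
  have hcomp2 : fG P ε a ξ ∘ c = fun θ =>
      P.F (((x - ξ * t) * Real.cos θ - (t + ξ * x) * Real.sin θ) / rr x t) * P.χ (rr x t) *
        P.b (y / (ε * (1 - a * rr x t))) / rr x t := by
    funext θ
    simp only [Function.comp, fG, c]
    rw [hrr]
    congr 5
    ring
  have hder : HasDerivAt (fun θ : ℝ =>
      P.F (((x - ξ * t) * Real.cos θ - (t + ξ * x) * Real.sin θ) / rr x t) * P.χ (rr x t) *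
        P.b (y / (ε * (1 - a * rr x t))) / rr x t)
      (deriv P.F ((x - ξ * t) / rr x t) * (-(t + ξ * x) / rr x t) * P.χ (rr x t) *
        P.b (y / (ε * (1 - a * rr x t))) / rr x t) 0 := by
    have e1 : HasDerivAt (fun θ : ℝ =>
        ((x - ξ * t) * Real.cos θ - (t + ξ * x) * Real.sin θ) / rr x t)
        (-(t + ξ * x) / rr x t) 0 := by
      have := (((Real.hasDerivAt_cos 0).const_mul (x - ξ * t)).sub
        ((Real.hasDerivAt_sin 0).const_mul (t + ξ * x))).div_const (rr x t)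
      refine this.congr_deriv ?_
      simp
    have e2 : HasDerivAt P.F (deriv P.F ((x - ξ * t) / rr x t))
        (((x - ξ * t) * Real.cos 0 - (t + ξ * x) * Real.sin 0) / rr x t) := by
      have : ((x - ξ * t) * Real.cos 0 - (t + ξ * x) * Real.sin 0) / rr x t =
          (x - ξ * t) / rr x t := by simp
      rw [this]
      exact ((P.hF.differentiable (by norm_num)) _).hasDerivAt
    exact (((e2.comp (0 : ℝ) e1).mul_const _).mul_const _).div_const _
  rw [hcomp2] at hcomp1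
  rw [hcomp1.unique hder]
  ring

/-- The derivative of the thin component. -/
lemma thin_deriv (hε : 0 < ε) (hτ : 0 < τ) {x y t : ℝ} (h : 0 < rr x t)
    (h1 : 0 < 1 - a * rr x t) :
    fderiv ℝ (f1 P ε a ξ ζ) ((x, y), t) ((0, 1), 0) =
      ε * deriv P.F ((x - ξ * t) / rr x t) * ((t + ξ * x) / rr x t ^ 2) *
        P.χ (rr x t) * (1 - a * rr x t) *
        (P.b (y / (ε * (1 - a * rr x t))) / (ε * (1 - a * rr x t)) -
          P.m * (deriv P.S ((y / ε - ζ * t) / (τ * rr x t)) / (ε * (τ * rr x t)))) := by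
  have hG : HasFDerivAt (f1 P ε a ξ ζ) (fderiv ℝ (f1 P ε a ξ ζ) ((x, y), t)) ((x, y), t) :=
    ((contDiffAt_f1 (P := P) (ξ := ξ) (ζ := ζ) (p := ((x, y), t)) hε hτ h h1).differentiableAt
      (by norm_num)).hasFDerivAt
  have hc : HasDerivAt (fun r : ℝ => (((x, r), t) : P3)) ((0, 1), 0) y :=
    ((hasDerivAt_const y x).prodMk (hasDerivAt_id y)).prodMk (hasDerivAt_const y t)
  have hcomp1 := hG.comp_hasDerivAt y hc
  have hder : HasDerivAt (f1 P ε a ξ ζ ∘ fun r : ℝ => (((x, r), t) : P3))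
      (ε * deriv P.F ((x - ξ * t) / rr x t) * ((t + ξ * x) / rr x t ^ 2) *
        P.χ (rr x t) * (1 - a * rr x t) *
        (P.b (y / (ε * (1 - a * rr x t))) * (1 / (ε * (1 - a * rr x t))) -
          P.m * (deriv P.S ((y / ε - ζ * t) / (τ * rr x t)) * (1 / ε / (τ * rr x t))))) y := by
    have e1 : HasDerivAt (fun r : ℝ => r / (ε * (1 - a * rr x t))) (1 / (ε * (1 - a * rr x t))) y :=
      (hasDerivAt_id y).div_const _
    have e2 : HasDerivAt (fun r : ℝ => (r / ε - ζ * t) / (τ * rr x t)) (1 / ε / (τ * rr x t)) y :=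
      (((hasDerivAt_id y).div_const ε).sub_const _).div_const _
    have e3 := (P.hB (y / (ε * (1 - a * rr x t)))).comp y e1
    have e4 : HasDerivAt P.S (deriv P.S ((y / ε - ζ * t) / (τ * rr x t)))
        ((y / ε - ζ * t) / (τ * rr x t)) :=
      ((P.hS.differentiable (by norm_num)) _).hasDerivAt
    have e5 := e4.comp y e2
    exact (e3.sub (e5.const_mul P.m)).const_mul (ε * deriv P.F ((x - ξ * t) / rr x t) *
      ((t + ξ * x) / rr x t ^ 2) * P.χ (rr x t) * (1 - a * rr x t))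
  rw [hcomp1.unique hder]
  have hε' := hε.ne'
  congr 1
  congr 1
  · ring
  · field_simp

/-- The divergence of the field. -/
lemma dv_fld (hs : 0 < s) (ha : 0 < a) (ha1 : a ≤ 1 / 24) (hε : 0 < ε) (hτ : 0 < τ)
    {x y t : ℝ} (h : 0 < rr x t) (h1 : 0 < 1 - a * rr x t) :
    dv (fld P ε a ξ ζ) (mk3 ((x, y), t)) =
      -(deriv P.F ((x - ξ * t) / rr x t) * ((t + ξ * x) / rr x t ^ 2) * P.χ (rr x t) *
        (1 - a * rr x t) * P.m * deriv P.S ((y / ε - ζ * t) / (τ * rr x t)) / (τ * rr x t)) := by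
  rw [dv_mk3 (contDiff_fld hs ha ha1 hε hτ)]
  have e0 : (fun p : P3 => fld P ε a ξ ζ (mk3 p) 0) = f0 P ε a ξ := rfl
  have e1 : (fun p : P3 => fld P ε a ξ ζ (mk3 p) 1) = f1 P ε a ξ ζ := rfl
  have e2 : (fun p : P3 => fld P ε a ξ ζ (mk3 p) 2) = f2 P ε a ξ := rfl
  rw [e0, e1, e2]
  have hG : HasFDerivAt (fG P ε a ξ) (fderiv ℝ (fG P ε a ξ) ((x, y), t)) ((x, y), t) :=
    ((contDiffAt_fG (P := P) (ξ := ξ) (p := ((x, y), t)) hε h h1).differentiableAt
      (by norm_num)).hasFDerivAt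
  have d0 : fderiv ℝ (f0 P ε a ξ) ((x, y), t) ((1, 0), 0) =
      -t * fderiv ℝ (fG P ε a ξ) ((x, y), t) ((1, 0), 0) := by
    have h2 : HasFDerivAt (fun p : P3 => -p.2)
        (-(ContinuousLinearMap.snd ℝ (ℝ × ℝ) ℝ)) ((x, y), t) :=
      (hasFDerivAt_snd (𝕜 := ℝ)).neg
    have h3 := h2.mul hG
    have h4 : fderiv ℝ (f0 P ε a ξ) ((x, y), t) = _ := h3.fderiv
    rw [h4]
    simp
  have d2 : fderiv ℝ (f2 P ε a ξ) ((x, y), t) ((0, 0), 1) =
      x * fderiv ℝ (fG P ε a ξ) ((x, y), t) ((0, 0), 1) := by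
    have h2 : HasFDerivAt (fun p : P3 => p.1.1)
        ((ContinuousLinearMap.fst ℝ ℝ ℝ).comp (ContinuousLinearMap.fst ℝ (ℝ × ℝ) ℝ))
        ((x, y), t) :=
      ((ContinuousLinearMap.fst ℝ ℝ ℝ).comp (ContinuousLinearMap.fst ℝ (ℝ × ℝ) ℝ)).hasFDerivAt
    have h3 := h2.mul hG
    have h4 : fderiv ℝ (f2 P ε a ξ) ((x, y), t) = _ := h3.fderiv
    rw [h4]
    simp
  have d3 : -t * fderiv ℝ (fG P ε a ξ) ((x, y), t) ((1, 0), 0) +
      x * fderiv ℝ (fG P ε a ξ) ((x, y), t) ((0, 0), 1) =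
      fderiv ℝ (fG P ε a ξ) ((x, y), t) ((-t, 0), x) := by
    rw [← smul_eq_mul, ← smul_eq_mul, ← map_smul, ← map_smul, ← map_add]
    congr 1
    simp
  rw [d0, d2, thin_deriv hε hτ h h1]
  have := ang_deriv (P := P) (ξ := ξ) (y := y) hε h h1
  rw [← d3] at this
  have hε' := hε.ne'
  have h1' := h1.ne'
  have h' := h.ne'
  have hτ' := hτ.ne'
  have e : ε * deriv P.F ((x - ξ * t) / rr x t) * ((t + ξ * x) / rr x t ^ 2) *
        P.χ (rr x t) * (1 - a * rr x t) *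
        (P.b (y / (ε * (1 - a * rr x t))) / (ε * (1 - a * rr x t)) -
          P.m * (deriv P.S ((y / ε - ζ * t) / (τ * rr x t)) / (ε * (τ * rr x t)))) =
      deriv P.F ((x - ξ * t) / rr x t) * ((t + ξ * x) / rr x t) *
        P.χ (rr x t) * P.b (y / (ε * (1 - a * rr x t))) / rr x t -
      deriv P.F ((x - ξ * t) / rr x t) * ((t + ξ * x) / rr x t ^ 2) * P.χ (rr x t) *
        (1 - a * rr x t) * P.m * deriv P.S ((y / ε - ζ * t) / (τ * rr x t)) / (τ * rr x t) := by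
    generalize deriv P.F ((x - ξ * t) / rr x t) = α1
    generalize P.b (y / (ε * (1 - a * rr x t))) = α2
    generalize deriv P.S ((y / ε - ζ * t) / (τ * rr x t)) = α3
    generalize P.χ (rr x t) = α4
    clear this e0 e1 e2 hG d0 d2 d3
    generalize 1 - a * rr x t = α5 at h1' ⊢
    field_simp
  rw [e]
  linear_combination this

end Pool.Agent.K4H48.Cone
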