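import Pool.Agent.K4H48.Cone.Field
import Pool.Agent.K4H48.Cone.Comp2

/-! Properties of the calibrating field. -/

set_option autoImplicit false

namespace Pool.Agent.K4H48.Cone

open MeasureTheory Set Filter Topology Metric

variable {τ s : ℝ} {P : Prof τ s} {ε a ξ ζ : ℝ}

/-- closed set containing the support -/
def Ks (s a ε : ℝ) : Set (En 3) :=
  {q | s / 2 ≤ rr (q 0) (q 2) ∧ rr (q 0) (q 2) ≤ 1 - s / 2 ∧
    |q 1| ≤ (1 - s / 2) * (ε * (1 - a * rr (q 0) (q 2)))}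

lemma isClosed_Ks (s a ε : ℝ) : IsClosed (Ks s a ε) := by
  have h1 : Continuous fun q : En 3 => rr (q 0) (q 2) := by unfold rr; fun_prop
  have h2 : Continuous fun q : En 3 => |q 1| := by fun_prop
  have h3 : Continuous fun q : En 3 => (1 - s / 2) * (ε * (1 - a * rr (q 0) (q 2))) :=
    continuous_const.mul (continuous_const.mul (continuous_const.sub (continuous_const.mul h1)))
  exact (isClosed_le continuous_const h1).inter
    ((isClosed_le h1 continuous_const).inter (isClosed_le h2 h3))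

lemma Ks_sub {H : ℝ} (hs : 0 < s) (ha : 0 < a) (ha1 : a ≤ 1 / 24) (hε : 0 < ε) (hH : 1 < H) :
    Ks s a ε ⊆ Om H a ε := by
  rintro q ⟨h1, h2, h3⟩
  have h4 : rr (q 0) (q 2) < 1 := by linarith
  refine ⟨(abs_le_rr_left _ _).trans_lt h4, ((abs_le_rr_right _ _).trans_lt h4).trans hH,
    h3.trans_lt ?_⟩
  have h5 := mul_pos hε (one_sub_pos ha ha1 (rr_nonneg (q 0) (q 2)) h4)
  nlinarith

lemma fld_zero (hs : 0 < s) (ha : 0 < a) (ha1 : a ≤ 1 / 24) (hε : 0 < ε) (hτ : 0 < τ)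
    (hζ : |ζ| + a + τ ≤ 1) {q : En 3} (hq : q ∉ Ks s a ε) : fld P ε a ξ ζ q = 0 := by
  set x := q 0 with hx
  set y := q 1 with hy
  set t := q 2 with ht
  have hco : co q = ((x, y), t) := rfl
  have hfin : f0 P ε a ξ ((x, y), t) = 0 → f1 P ε a ξ ζ ((x, y), t) = 0 →
      f2 P ε a ξ ((x, y), t) = 0 → fld P ε a ξ ζ q = 0 := by
    intro h1 h2 h3
    unfold fld
    rw [hco, h1, h2, h3]
    ext i
    fin_cases i <;> simp [mk3]
  have hχ0 : P.χ (rr x t) = 0 → fld P ε a ξ ζ q = 0 := by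
    intro h
    apply hfin
    · simp [f0, fG, h]
    · simp [f1, h]
    · simp [f2, fG, h]
  rcases lt_or_ge (rr x t) (s / 2) with h | h
  · exact hχ0 (P.χ_left _ h.le)
  rcases lt_or_ge (1 - s / 2) (rr x t) with h' | h'
  · exact hχ0 (P.χ_right _ h'.le)
  have hr1 : rr x t < 1 := by linarith
  have hr0 : 0 < rr x t := by linarith
  have hc := one_sub_pos ha ha1 hr0.le hr1
  have hβ := mul_pos hε hc
  have hyb : (1 - s / 2) * (ε * (1 - a * rr x t)) < |y| := by
    by_contra h3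
    push Not at h3
    exact hq ⟨h, h', h3⟩
  have hτr : 0 < τ * rr x t := mul_pos hτ hr0
  have hζt : |ζ * t| ≤ |ζ| * rr x t := by
    rw [abs_mul]
    exact mul_le_mul_of_nonneg_left (abs_le_rr_right _ _) (abs_nonneg _)
  have hkey : (|ζ| + τ) * rr x t ≤ (1 - s / 2) * (1 - a * rr x t) := by
    have h4 : (|ζ| + τ) * rr x t ≤ (1 - a) * rr x t :=
      mul_le_mul_of_nonneg_right (by linarith) hr0.le
    nlinarith [mul_pos ha hr0, mul_pos hs (mul_pos ha hr0)]
  have hb0 : P.b (y / (ε * (1 - a * rr x t))) = 0 := by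
    apply P.b_zero
    rw [abs_div, abs_of_pos hβ, le_div_iff₀ hβ]
    exact hyb.le
  apply hfin
  · simp [f0, fG, hb0]
  · rcases lt_abs.1 hyb with h4 | h4
    · have hB : P.B (y / (ε * (1 - a * rr x t))) = P.m := by
        apply P.B_pos
        rw [le_div_iff₀ hβ]; exact h4.le
      have hS : P.S ((y / ε - ζ * t) / (τ * rr x t)) = 1 := by
        apply P.S_pos
        rw [le_div_iff₀ hτr]
        have h5 : (1 - s / 2) * (1 - a * rr x t) ≤ y / ε := by
          rw [le_div_iff₀ hε]; linarith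
        have := (abs_le.1 hζt).2
        linarith
      simp [f1, hB, hS]
    · have hB : P.B (y / (ε * (1 - a * rr x t))) = 0 := by
        apply P.B_neg
        rw [div_le_iff₀ hβ]; linarith
      have hS : P.S ((y / ε - ζ * t) / (τ * rr x t)) = 0 := by
        apply P.S_neg
        rw [div_le_iff₀ hτr]
        have h5 : y / ε ≤ -((1 - s / 2) * (1 - a * rr x t)) := by
          rw [div_le_iff₀ hε]; linarith
        have := (abs_le.1 hζt).1
        linarith
      simp [f1, hB, hS]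
  · simp [f2, fG, hb0]

lemma tsupport_fld (hs : 0 < s) (ha : 0 < a) (ha1 : a ≤ 1 / 24) (hε : 0 < ε) (hτ : 0 < τ)
    (hζ : |ζ| + a + τ ≤ 1) : tsupport (fld P ε a ξ ζ) ⊆ Ks s a ε := by
  refine closure_minimal ?_ (isClosed_Ks s a ε)
  intro q hq
  by_contra h
  exact hq (fld_zero hs ha ha1 hε hτ hζ h)

lemma isCompact_Ks (hs : 0 < s) (ha : 0 < a) (ha1 : a ≤ 1 / 24) (hε : 0 < ε) :
    IsCompact (Ks s a ε) :=
  Metric.isCompact_of_isClosed_isBounded (isClosed_Ks s a ε)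
    ((bounded_Om ha.le hε.le).subset (Ks_sub (H := 2) hs ha ha1 hε (by norm_num)))

lemma compact_fld (hs : 0 < s) (ha : 0 < a) (ha1 : a ≤ 1 / 24) (hε : 0 < ε) (hτ : 0 < τ)
    (hζ : |ζ| + a + τ ≤ 1) : HasCompactSupport (fld P ε a ξ ζ) :=
  (isCompact_Ks hs ha ha1 hε).of_isClosed_subset (isClosed_tsupport _)
    (tsupport_fld hs ha ha1 hε hτ hζ)

lemma norm_fld (hs : 0 < s) (ha : 0 < a) (ha1 : a ≤ 1 / 24) (hε : 0 < ε) (hτ : 0 < τ)
    (hζ : |ζ| + a + τ ≤ 1) (hξ : |ξ| ≤ 1) (q : En 3) :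
    ‖fld P ε a ξ ζ q‖ ≤ 1 + (8 * P.CF / s * ε) ^ 2 := by
  by_cases hq : q ∈ Ks s a ε
  swap
  · rw [fld_zero hs ha ha1 hε hτ hζ hq, norm_zero]; positivity
  obtain ⟨h1, h2, h3⟩ := hq
  set x := q 0 with hx
  set y := q 1 with hy
  set t := q 2 with ht
  have hr1 : rr x t < 1 := by linarith
  have hr0 : 0 < rr x t := by linarith
  have hc := one_sub_pos ha ha1 hr0.le hr1
  have hβ := mul_pos hε hc
  have hCF := P.CF_nonneg
  have hrs := rr_sq x t
  have e0 : fld P ε a ξ ζ q 0 = f0 P ε a ξ ((x, y), t) := rfl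
  have e1 : fld P ε a ξ ζ q 1 = f1 P ε a ξ ζ ((x, y), t) := rfl
  have e2 : fld P ε a ξ ζ q 2 = f2 P ε a ξ ((x, y), t) := rfl
  have b02 : f0 P ε a ξ ((x, y), t) ^ 2 + f2 P ε a ξ ((x, y), t) ^ 2 ≤ 1 := by
    have h4 : f0 P ε a ξ ((x, y), t) ^ 2 + f2 P ε a ξ ((x, y), t) ^ 2 =
        (rr x t * fG P ε a ξ ((x, y), t)) ^ 2 := by
      unfold f0 f2
      rw [mul_pow (rr x t), hrs]; ring
    have h5 : rr x t * fG P ε a ξ ((x, y), t) = P.F ((x - ξ * t) / rr x t) * P.χ (rr x t) *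
        P.b (y / (ε * (1 - a * rr x t))) := by
      unfold fG
      simp only
      field_simp
    rw [h4, h5, sq_le_one_iff_abs_le_one, abs_mul, abs_mul]
    have hF := P.F_abs ((x - ξ * t) / rr x t)
    have hχ : |P.χ (rr x t)| ≤ 1 := by
      rw [abs_of_nonneg (P.χ_nonneg _)]; exact P.χ_le _
    have hb : |P.b (y / (ε * (1 - a * rr x t)))| ≤ 1 := by
      rw [abs_of_nonneg (P.b_nonneg _)]; exact P.b_le _
    exact mul_le_one₀ (mul_le_one₀ hF (abs_nonneg _) hχ) (abs_nonneg _) hb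
  have b1 : |f1 P ε a ξ ζ ((x, y), t)| ≤ 8 * P.CF / s * ε := by
    unfold f1
    simp only
    rw [abs_mul, abs_mul, abs_mul, abs_mul, abs_mul, abs_of_pos hε, abs_of_pos hc]
    have hχ : |P.χ (rr x t)| ≤ 1 := by
      rw [abs_of_nonneg (P.χ_nonneg _)]; exact P.χ_le _
    have hF := P.F_der ((x - ξ * t) / rr x t)
    have hBq : |(t + ξ * x) / rr x t ^ 2| ≤ 4 / s := by
      rw [abs_div, abs_of_pos (pow_pos hr0 2), div_le_div_iff₀ (pow_pos hr0 2) hs]
      have h6 : |t + ξ * x| ≤ 2 * rr x t := by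
        refine (abs_add_le _ _).trans ?_
        rw [abs_mul]
        have h7 := abs_le_rr_left x t
        have h8 := abs_le_rr_right x t
        have h9 : |ξ| * |x| ≤ 1 * |x| := mul_le_mul_of_nonneg_right hξ (abs_nonneg _)
        linarith
      nlinarith
    have hbr : |P.B (y / (ε * (1 - a * rr x t))) -
        P.m * P.S ((y / ε - ζ * t) / (τ * rr x t))| ≤ 2 := by
      have i1 := P.B_nonneg (y / (ε * (1 - a * rr x t)))
      have i2 := P.B_le (y / (ε * (1 - a * rr x t)))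
      have i3 := P.S_nonneg ((y / ε - ζ * t) / (τ * rr x t))
      have i4 := P.S_le ((y / ε - ζ * t) / (τ * rr x t))
      have i5 := P.m_nonneg
      have i6 := P.m_le
      have i7 := mul_nonneg i5 i3
      have i8 : P.m * P.S ((y / ε - ζ * t) / (τ * rr x t)) ≤ P.m * 1 :=
        mul_le_mul_of_nonneg_left i4 i5
      rw [abs_le]; constructor <;> linarith
    have hc1 : 1 - a * rr x t ≤ 1 := by
      have := mul_pos ha hr0
      linarith
    calc ε * |deriv P.F ((x - ξ * t) / rr x t)| * |(t + ξ * x) / rr x t ^ 2| * |P.χ (rr x t)| *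
          (1 - a * rr x t) * |P.B (y / (ε * (1 - a * rr x t))) -
            P.m * P.S ((y / ε - ζ * t) / (τ * rr x t))|
        ≤ ε * P.CF * (4 / s) * 1 * 1 * 2 := by gcongr
      _ = 8 * P.CF / s * ε := by ring
  have b1' : f1 P ε a ξ ζ ((x, y), t) ^ 2 ≤ (8 * P.CF / s * ε) ^ 2 := by
    rw [← sq_abs]; gcongr
  rw [EuclideanSpace.norm_eq, Real.sqrt_le_left (by positivity), Fin.sum_univ_three]
  simp only [Real.norm_eq_abs, sq_abs]
  rw [e0, e1, e2]
  nlinarith [sq_nonneg (8 * P.CF / s * ε)]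

lemma dv_fld_supp (hs : 0 < s) (ha : 0 < a) (ha1 : a ≤ 1 / 24) (hε : 0 < ε) (hτ : 0 < τ)
    (hτ1 : τ ≤ 1 / 2) (hζ : |ζ| + a + τ ≤ 1) (hξ : |ξ| ≤ 1) {q : En 3}
    (hq : dv (fld P ε a ξ ζ) q ≠ 0) :
    q 2 ≠ 0 ∧ |q 0 - ξ * q 2| ≤ 4 * τ * |q 2| ∧
      |q 1 - ε * (ζ * q 2)| ≤ ε * (4 * τ * |q 2|) := by
  have hK : q ∈ Ks s a ε := by
    by_contra h
    exact hq (dv_zero_of_notMem fun h2 => h (tsupport_fld hs ha ha1 hε hτ hζ h2))
  obtain ⟨h1, h2, h3⟩ := hK
  have hr1 : rr (q 0) (q 2) < 1 := by linarith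
  have hr0 : 0 < rr (q 0) (q 2) := by linarith
  have hc := one_sub_pos ha ha1 hr0.le hr1
  have hd := dv_fld (P := P) (ξ := ξ) (ζ := ζ) (y := q 1) hs ha ha1 hε hτ hr0 hc
  have hmk : mk3 ((q 0, q 1), q 2) = q := mk3_co q
  rw [hmk] at hd
  have hA : |q 0 - ξ * q 2| ≤ τ * rr (q 0) (q 2) := by
    by_contra h
    push Not at h
    apply hq
    rw [hd, P.F_der_zero]
    · simp
    · rw [abs_div, abs_of_pos hr0, lt_div_iff₀ hr0]; exact h
  have hY : |q 1 / ε - ζ * q 2| ≤ τ * rr (q 0) (q 2) := by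
    by_contra h
    push Not at h
    apply hq
    rw [hd, P.S_der_zero]
    · simp
    · rw [abs_div, abs_of_pos (mul_pos hτ hr0), lt_div_iff₀ (mul_pos hτ hr0), one_mul]; exact h
  have hx : |q 0| ≤ |q 2| + τ * rr (q 0) (q 2) := by
    have h4 : |q 0| ≤ |q 0 - ξ * q 2| + |ξ * q 2| := by
      have := abs_add_le (q 0 - ξ * q 2) (ξ * q 2)
      rwa [sub_add_cancel] at this
    have h5 : |ξ * q 2| ≤ |q 2| := by
      rw [abs_mul]
      have := mul_le_mul_of_nonneg_right hξ (abs_nonneg (q 2))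
      linarith
    linarith
  have hρ : rr (q 0) (q 2) ≤ 4 * |q 2| := by
    have h4 := rr_le (q 0) (q 2)
    nlinarith
  refine ⟨?_, ?_, ?_⟩
  · intro h
    rw [h, abs_zero] at hρ
    rw [h] at hr0
    linarith
  · refine hA.trans ?_
    nlinarith
  · have e : q 1 - ε * (ζ * q 2) = ε * (q 1 / ε - ζ * q 2) := by
      field_simp
    rw [e, abs_mul, abs_of_pos hε]
    apply mul_le_mul_of_nonneg_left _ hε.le
    refine hY.trans ?_
    nlinarith

lemma int_dv_zero {n : ℕ} {Z : En n → En n} (hZ : ContDiff ℝ 1 Z) (hc : HasCompactSupport Z) :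
    ∫ x, dv Z x = 0 := by
  have h1 : ∀ x, dv Z x = ∑ i, fderiv ℝ (fun y => Z y i) x (EuclideanSpace.single i 1) := by
    intro x
    rw [dv_eq_sum]
    refine Finset.sum_congr rfl fun i _ => ?_
    have h2 : HasFDerivAt (fun y => Z y i) ((EuclideanSpace.proj (𝕜 := ℝ) i).comp (fderiv ℝ Z x)) x :=
      ((EuclideanSpace.proj (𝕜 := ℝ) i).hasFDerivAt (x := Z x)).comp x
        ((hZ.differentiable (by norm_num)) x).hasFDerivAt
    rw [h2.fderiv]
    rfl
  have hg : ∀ i : Fin n, ContDiff ℝ 1 (fun y => Z y i) := fun i =>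
    (EuclideanSpace.proj (𝕜 := ℝ) i).contDiff.comp hZ
  have hgc : ∀ i : Fin n, HasCompactSupport (fun y => Z y i) := fun i =>
    hc.comp_left (g := fun v : En n => v i) rfl
  simp_rw [h1]
  rw [integral_finsetSum]
  · exact Finset.sum_eq_zero fun i _ => int_fderiv_zero volume (hg i) (hgc i) _
  · intro i _
    have hdc : Continuous fun x => fderiv ℝ (fun y => Z y i) x (EuclideanSpace.single i 1) :=
      ((hg i).continuous_fderiv (by norm_num)).clm_apply continuous_const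
    exact hdc.integrable_of_hasCompactSupport ((hgc i).fderiv_apply ℝ _)

end Pool.Agent.K4H48.Cone
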