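import Pool.Agent.K4H48.Cone.Coord

/-! The flux of a field through a graph. -/

set_option autoImplicit false

namespace Pool.Agent.K4H48.Cone

open MeasureTheory Set Filter Topology Metric

/-- `mk3` as a homeomorphism. -/
noncomputable def h3 : P3 ≃ₜ En 3 where
  toFun := mk3
  invFun := co
  left_inv := co_mk3
  right_inv := mk3_co
  continuous_toFun := mk3L.continuous
  continuous_invFun := by unfold co; fun_prop

/-- The vertical shear given by `u`. -/
noncomputable def shear (u : ℝ → ℝ) (hu : Continuous u) : P3 ≃ₜ P3 where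
  toFun := fun p => (p.1, p.2 + u p.1.1)
  invFun := fun p => (p.1, p.2 - u p.1.1)
  left_inv := fun p => by simp
  right_inv := fun p => by simp
  continuous_toFun := by fun_prop
  continuous_invFun := by fun_prop

lemma shear_apply (u : ℝ → ℝ) (hu : Continuous u) (p : P3) :
    shear u hu p = (p.1, p.2 + u p.1.1) := rfl

lemma mp_shear (u : ℝ → ℝ) (hu : Continuous u) :
    MeasurePreserving (shear u hu) (volume : Measure P3) volume := by
  have h := MeasurePreserving.skew_product (μa := (volume : Measure (ℝ × ℝ)))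
    (μb := (volume : Measure (ℝ × ℝ))) (μc := (volume : Measure ℝ)) (μd := (volume : Measure ℝ))
    (f := id) (g := fun (w : ℝ × ℝ) (t : ℝ) => t + u w.1) (MeasurePreserving.id volume)
    (by
      have : Continuous (Function.uncurry fun (w : ℝ × ℝ) (t : ℝ) => t + u w.1) := by
        unfold Function.uncurry; fun_prop
      exact this.measurable)
    (Eventually.of_forall fun w => map_add_right_eq_self volume (u w.1))
  exact h

lemma mk3_add (p q : P3) : mk3 (p + q) = mk3 p + mk3 q := mk3L.map_add p q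

theorem graph_flux {u : ℝ → ℝ} (hu : ContDiff ℝ 2 u) {ψ : En 3 → En 3} (hψ : ContDiff ℝ 1 ψ)
    (hc : HasCompactSupport ψ) :
    ∫ x in {q : En 3 | q 2 ≤ u (q 0)}, dv ψ x =
      ∫ w : ℝ × ℝ, (ψ (mk3 (w, u w.1)) 2 - deriv u w.1 * ψ (mk3 (w, u w.1)) 0) := by
  have hu1 : ContDiff ℝ 1 u := hu.of_le (by norm_num)
  have huc : Continuous u := hu.continuous
  have hu' : ContDiff ℝ 1 (deriv u) := by
    have : ContDiff ℝ (1 + 1) u := by
      rw [show (1 + 1 : WithTop ℕ∞) = 2 by norm_num]; exact hu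
    exact (contDiff_succ_iff_deriv.1 this).2.2
  set Θ := shear u huc with hΘ
  -- the components
  let f : Fin 3 → P3 → ℝ := fun i p => ψ (mk3 p) i
  have hf : ∀ i, ContDiff ℝ 1 (f i) := by
    intro i
    have h1 : ContDiff ℝ 1 (fun p => ψ (mk3L p)) := hψ.comp mk3L.contDiff
    exact (EuclideanSpace.proj (𝕜 := ℝ) i).contDiff.comp h1
  have hfc : ∀ i, HasCompactSupport (f i) := by
    intro i
    have h1 : HasCompactSupport (ψ ∘ h3) := hc.comp_homeomorph h3
    exact h1.comp_left (g := fun v : En 3 => v i) rfl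
  have hΘ1 : ContDiff ℝ 1 (Θ : P3 → P3) := by
    have : (Θ : P3 → P3) = fun p => (p.1, p.2 + u p.1.1) := rfl
    rw [this]
    exact contDiff_fst.prodMk (contDiff_snd.add (hu1.comp (contDiff_fst.comp contDiff_fst)))
  have hg : ∀ i, ContDiff ℝ 1 (f i ∘ Θ) := fun i => (hf i).comp hΘ1
  have hgc : ∀ i, HasCompactSupport (f i ∘ Θ) := fun i => (hfc i).comp_homeomorph Θ
  have hdu : ContDiff ℝ 1 (fun p : P3 => deriv u p.1.1) :=
    hu'.comp (contDiff_fst.comp contDiff_fst)
  let G2 : P3 → ℝ := fun p => (f 2 ∘ Θ) p - deriv u p.1.1 * (f 0 ∘ Θ) p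
  have hG2 : ContDiff ℝ 1 G2 := (hg 2).sub (hdu.mul (hg 0))
  have hG2c : HasCompactSupport G2 := by
    refine HasCompactSupport.intro (((hgc 2).isCompact).union (hgc 0).isCompact) fun p hp => ?_
    rw [mem_union, not_or] at hp
    simp only [G2]
    rw [image_eq_zero_of_notMem_tsupport hp.1, image_eq_zero_of_notMem_tsupport hp.2]
    ring
  -- the derivative of the shear
  have hDΘ : ∀ p : P3, ∃ L : P3 →L[ℝ] P3, HasFDerivAt (Θ : P3 → P3) L p ∧
      ∀ v : P3, L v = (v.1, v.2 + deriv u p.1.1 * v.1.1) := by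
    intro p
    have h1 : HasFDerivAt (fun p : P3 => p.1.1)
        ((ContinuousLinearMap.fst ℝ ℝ ℝ).comp (ContinuousLinearMap.fst ℝ (ℝ × ℝ) ℝ)) p :=
      ((ContinuousLinearMap.fst ℝ ℝ ℝ).comp (ContinuousLinearMap.fst ℝ (ℝ × ℝ) ℝ)).hasFDerivAt
    have h2 : HasDerivAt u (deriv u p.1.1) p.1.1 :=
      ((hu1.differentiable (by norm_num)) p.1.1).hasDerivAt
    have h3 := h2.comp_hasFDerivAt p h1
    have h4 : HasFDerivAt (fun p : P3 => (p.1, p.2 + u p.1.1)) _ p :=
      (hasFDerivAt_fst (𝕜 := ℝ) (p := p)).prodMk ((hasFDerivAt_snd (𝕜 := ℝ) (p := p)).add h3)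
    refine ⟨_, h4, fun v => ?_⟩
    simp
  have hsum : ∀ p : P3, dv ψ (mk3 (Θ p)) = fderiv ℝ (f 0 ∘ Θ) p ((1, 0), 0) +
      fderiv ℝ (f 1 ∘ Θ) p ((0, 1), 0) + fderiv ℝ G2 p ((0, 0), 1) := by
    intro p
    obtain ⟨L, hL, hLv⟩ := hDΘ p
    have hfd : ∀ i, HasFDerivAt (f i ∘ Θ) ((fderiv ℝ (f i) (Θ p)).comp L) p := fun i =>
      (((hf i).differentiable (by norm_num)) (Θ p)).hasFDerivAt.comp p hL
    have hdu1 : HasFDerivAt (fun p : P3 => deriv u p.1.1) ((deriv (deriv u) p.1.1) •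
        ((ContinuousLinearMap.fst ℝ ℝ ℝ).comp (ContinuousLinearMap.fst ℝ (ℝ × ℝ) ℝ))) p := by
      have h1 : HasFDerivAt (fun p : P3 => p.1.1)
        ((ContinuousLinearMap.fst ℝ ℝ ℝ).comp (ContinuousLinearMap.fst ℝ (ℝ × ℝ) ℝ)) p :=
        ((ContinuousLinearMap.fst ℝ ℝ ℝ).comp (ContinuousLinearMap.fst ℝ (ℝ × ℝ) ℝ)).hasFDerivAt
      have h2 : HasDerivAt (deriv u) (deriv (deriv u) p.1.1) p.1.1 :=
        ((hu'.differentiable (by norm_num)) p.1.1).hasDerivAt
      exact h2.comp_hasFDerivAt p h1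
    have hG : HasFDerivAt G2 _ p := (hfd 2).sub (hdu1.mul (hfd 0))
    rw [dv_mk3 hψ, (hfd 0).fderiv, (hfd 1).fderiv, hG.fderiv]
    simp only [ContinuousLinearMap.comp_apply, ContinuousLinearMap.sub_apply,
      ContinuousLinearMap.add_apply, ContinuousLinearMap.smul_apply, hLv, smul_eq_mul,
      ContinuousLinearMap.coe_fst']
    simp only [mul_one, mul_zero, add_zero, zero_add]
    have e1 : (((1, 0), deriv u p.1.1) : P3) = ((1, 0), 0) + deriv u p.1.1 • ((0, 0), 1) := by
      simp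
    rw [e1, map_add, map_smul, smul_eq_mul]
    ring
  have hint : ∀ {g : P3 → ℝ} (_ : ContDiff ℝ 1 g) (_ : HasCompactSupport g) (v : P3),
      Integrable (fun x => fderiv ℝ g x v) := by
    intro g h1 h2 v
    have hdc : Continuous fun x => fderiv ℝ g x v :=
      (h1.continuous_fderiv (by norm_num)).clm_apply continuous_const
    exact hdc.integrable_of_hasCompactSupport (h2.fderiv_apply ℝ v)
  have hset : mk3 ⁻¹' {q : En 3 | q 2 ≤ u (q 0)} = {p : P3 | p.2 ≤ u p.1.1} := rfl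
  have hset2 : (Θ : P3 → P3) ⁻¹' {p : P3 | p.2 ≤ u p.1.1} =
      (univ : Set (ℝ × ℝ)) ×ˢ Iic (0 : ℝ) := by
    ext p
    simp only [hΘ, mem_preimage, shear_apply, mem_ofPred_eq, mem_prod, mem_univ, true_and, mem_Iic]
    constructor <;> intro h <;> linarith
  rw [setInt3, hset, ← (mp_shear u huc).setIntegral_preimage_emb (shear u huc).measurableEmbedding,
    ← hΘ, hset2]
  simp_rw [hsum]
  rw [integral_add, integral_add, half_w (hg 0) (hgc 0), half_w (hg 1) (hgc 1),
    half_t hG2 hG2c, zero_add, zero_add]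
  · refine integral_congr_ae (Eventually.of_forall fun w => ?_)
    simp only [G2, f, hΘ, Function.comp, shear_apply, zero_add]
  · exact (hint (hg 0) (hgc 0) _).integrableOn
  · exact (hint (hg 1) (hgc 1) _).integrableOn
  · exact ((hint (hg 0) (hgc 0) _).add (hint (hg 1) (hgc 1) _)).integrableOn
  · exact (hint hG2 hG2c _).integrableOn

end Pool.Agent.K4H48.Cone
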