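import Mathlib

/-! Relative perimeter in an open set of Euclidean space. -/

set_option autoImplicit false

namespace Pool.Agent.K4H48.Cone

open MeasureTheory Set Filter Topology Metric
open scoped ENNReal RealInnerProductSpace

/-- Euclidean space. -/
abbrev En (n : ℕ) : Type := EuclideanSpace ℝ (Fin n)

variable {n : ℕ}

/-- The divergence of a vector field, as the trace of its derivative. -/
noncomputable def dv (Z : En n → En n) (x : En n) : ℝ :=
  LinearMap.trace ℝ (En n) (fderiv ℝ Z x).toLinearMap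

/-- Admissible fields for the relative perimeter in `Ω`. -/
structure Adm (Ω : Set (En n)) (Z : En n → En n) : Prop where
  smooth : ContDiff ℝ 1 Z
  compact : HasCompactSupport Z
  subset : tsupport Z ⊆ Ω
  norm_le : ∀ x, ‖Z x‖ ≤ 1

/-- The relative perimeter of `A` in `Ω`. -/
noncomputable def per (Ω A : Set (En n)) : ℝ≥0∞ :=
  ⨆ Z : {Z : En n → En n // Adm Ω Z}, ENNReal.ofReal (∫ x in A, dv Z.1 x)

lemma le_per {Ω A : Set (En n)} {Z : En n → En n} (h : Adm Ω Z) :
    ENNReal.ofReal (∫ x in A, dv Z x) ≤ per Ω A :=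
  le_iSup (fun Z : {Z : En n → En n // Adm Ω Z} => ENNReal.ofReal (∫ x in A, dv Z.1 x)) ⟨Z, h⟩

lemma per_le {Ω A : Set (En n)} {P : ℝ≥0∞}
    (h : ∀ Z, Adm Ω Z → ENNReal.ofReal (∫ x in A, dv Z x) ≤ P) : per Ω A ≤ P :=
  iSup_le fun Z => h Z.1 Z.2

/-- the trace as a continuous linear functional -/
noncomputable def trc (n : ℕ) : (En n →L[ℝ] En n) →L[ℝ] ℝ :=
  LinearMap.toContinuousLinearMap
    ((LinearMap.trace ℝ (En n)).comp (ContinuousLinearMap.coeLM ℝ))

lemma dv_eq_trc (Z : En n → En n) (x : En n) : dv Z x = trc n (fderiv ℝ Z x) := rfl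

lemma dv_eq_sum (Z : En n → En n) (x : En n) :
    dv Z x = ∑ i, (fderiv ℝ Z x (EuclideanSpace.single i 1)) i := by
  unfold dv
  rw [LinearMap.trace_eq_sum_inner _ (EuclideanSpace.basisFun (Fin n) ℝ)]
  refine Finset.sum_congr rfl fun i _ => ?_
  rw [EuclideanSpace.basisFun_apply, EuclideanSpace.inner_single_left]
  simp

lemma continuous_dv {Z : En n → En n} (h : ContDiff ℝ 1 Z) : Continuous (dv Z) := by
  have : dv Z = fun x => trc n (fderiv ℝ Z x) := rfl
  rw [this]
  exact (trc n).continuous.comp (h.continuous_fderiv (by norm_num))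

lemma hasCompactSupport_dv {Z : En n → En n} (h : HasCompactSupport Z) :
    HasCompactSupport (dv Z) := by
  have h1 := h.fderiv ℝ
  refine h1.mono' ?_
  intro x hx
  by_contra hx2
  apply hx
  have : fderiv ℝ Z x = 0 := image_eq_zero_of_notMem_tsupport hx2
  rw [dv_eq_trc, this, map_zero]

lemma dv_zero_of_notMem {Z : En n → En n} {x : En n} (hx : x ∉ tsupport Z) : dv Z x = 0 := by
  have : fderiv ℝ Z x = 0 :=
    image_eq_zero_of_notMem_tsupport fun h => hx (tsupport_fderiv_subset ℝ h)
  rw [dv_eq_trc, this, map_zero]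

lemma integrable_dv {Z : En n → En n} (h : ContDiff ℝ 1 Z) (hc : HasCompactSupport Z) :
    Integrable (dv Z) :=
  (continuous_dv h).integrable_of_hasCompactSupport (hasCompactSupport_dv hc)

lemma dv_const_smul {Z : En n → En n} (h : ContDiff ℝ 1 Z) (c : ℝ) (x : En n) :
    dv (fun x => c • Z x) x = c * dv Z x := by
  have h1 : HasFDerivAt (fun x => c • Z x) (c • fderiv ℝ Z x) x :=
    ((h.differentiable (by norm_num)) x).hasFDerivAt.const_smul c
  rw [dv_eq_trc, dv_eq_trc, h1.fderiv, map_smul, smul_eq_mul]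

lemma dv_smul_const {f : En n → ℝ} {x : En n} (hf : DifferentiableAt ℝ f x) (h : En n) :
    dv (fun x => f x • h) x = fderiv ℝ f x h := by
  have h1 : HasFDerivAt (fun x => f x • h) ((fderiv ℝ f x).smulRight h) x :=
    hf.hasFDerivAt.smul_const h
  unfold dv
  rw [h1.fderiv]
  exact LinearMap.trace_smulRight (fderiv ℝ f x).toLinearMap h

lemma Adm.neg {Ω : Set (En n)} {Z : En n → En n} (h : Adm Ω Z) : Adm Ω (fun x => -Z x) where
  smooth := h.smooth.neg
  compact := h.compact.neg
  subset := by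
    have : (fun x => -Z x) = -Z := rfl
    rw [this, tsupport_neg]; exact h.subset
  norm_le := fun x => by rw [norm_neg]; exact h.norm_le x

end Pool.Agent.K4H48.Cone
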