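import Pool.Agent.K4H48.Cone.Body

/-! Profile functions. -/

set_option autoImplicit false

namespace Pool.Agent.K4H48.Cone

open MeasureTheory Set Filter Topology Metric

/-- Smooth profile functions used to build the field. -/
structure Prof (τ s : ℝ) where
  /-- step from minus one to one -/
  F : ℝ → ℝ
  /-- step from zero to one -/
  S : ℝ → ℝ
  /-- radial cutoff -/
  χ : ℝ → ℝ
  /-- thin cutoff -/
  b : ℝ → ℝ
  /-- primitive of the thin cutoff -/
  B : ℝ → ℝ
  /-- mass of the thin cutoff -/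
  m : ℝ
  /-- bound for the derivative of the step -/
  CF : ℝ
  hF : ContDiff ℝ 2 F
  hS : ContDiff ℝ 1 S
  hχ : ContDiff ℝ 1 χ
  hb : ContDiff ℝ 1 b
  hB : ∀ v, HasDerivAt B (b v) v
  hB1 : ContDiff ℝ 1 B
  F_abs : ∀ w, |F w| ≤ 1
  F_pos : ∀ w, τ ≤ w → F w = 1
  F_neg : ∀ w, w ≤ -τ → F w = -1
  F_der : ∀ w, |deriv F w| ≤ CF
  S_nonneg : ∀ w, 0 ≤ S w
  S_le : ∀ w, S w ≤ 1
  S_pos : ∀ w, 1 ≤ w → S w = 1
  S_neg : ∀ w, w ≤ -1 → S w = 0
  χ_nonneg : ∀ w, 0 ≤ χ w
  χ_le : ∀ w, χ w ≤ 1
  χ_left : ∀ w, w ≤ s / 2 → χ w = 0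
  χ_right : ∀ w, 1 - s / 2 ≤ w → χ w = 0
  χ_one : ∀ w, s ≤ w → w ≤ 1 - s → χ w = 1
  b_nonneg : ∀ w, 0 ≤ b w
  b_le : ∀ w, b w ≤ 1
  b_zero : ∀ w, 1 - s / 2 ≤ |w| → b w = 0
  b_one : ∀ w, |w| ≤ 1 - s → b w = 1
  B_neg : ∀ w, w ≤ -(1 - s / 2) → B w = 0
  B_pos : ∀ w, 1 - s / 2 ≤ w → B w = m
  B_nonneg : ∀ w, 0 ≤ B w
  B_le : ∀ w, B w ≤ m
  m_le : m ≤ 2
  m_nonneg : 0 ≤ m
  CF_nonneg : 0 ≤ CF

lemma Prof.F_der_zero {τ s : ℝ} (P : Prof τ s) {w : ℝ} (hw : τ < |w|) : deriv P.F w = 0 := by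
  rcases lt_abs.1 hw with h | h
  · have h1 : P.F =ᶠ[𝓝 w] fun _ => 1 := by
      filter_upwards [eventually_gt_nhds h] with x hx
      exact P.F_pos x hx.le
    rw [h1.deriv_eq]; simp
  · have h1 : P.F =ᶠ[𝓝 w] fun _ => -1 := by
      filter_upwards [eventually_lt_nhds (show w < -τ by linarith)] with x hx
      exact P.F_neg x hx.le
    rw [h1.deriv_eq]; simp

lemma Prof.S_der_zero {τ s : ℝ} (P : Prof τ s) {w : ℝ} (hw : 1 < |w|) : deriv P.S w = 0 := by
  rcases lt_abs.1 hw with h | h
  · have h1 : P.S =ᶠ[𝓝 w] fun _ => 1 := by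
      filter_upwards [eventually_gt_nhds h] with x hx
      exact P.S_pos x hx.le
    rw [h1.deriv_eq]; simp
  · have h1 : P.S =ᶠ[𝓝 w] fun _ => 0 := by
      filter_upwards [eventually_lt_nhds (show w < -1 by linarith)] with x hx
      exact P.S_neg x hx.le
    rw [h1.deriv_eq]; simp

theorem exists_prof {τ s : ℝ} (hτ : 0 < τ) (hs : 0 < s) (hs1 : s < 1 / 4) :
    Nonempty (Prof τ s) := by
  let F : ℝ → ℝ := fun w => 2 * Real.smoothTransition ((w / τ + 1) / 2) - 1
  let S : ℝ → ℝ := fun w => Real.smoothTransition ((w + 1) / 2)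
  let χ : ContDiffBump (1 / 2 : ℝ) := ⟨1 / 2 - s, 1 / 2 - s / 2, by linarith, by linarith⟩
  let b : ContDiffBump (0 : ℝ) := ⟨1 - s, 1 - s / 2, by linarith, by linarith⟩
  let B : ℝ → ℝ := fun v => ∫ x in (-1 : ℝ)..v, b x
  have hF : ContDiff ℝ 2 F := by
    have : ContDiff ℝ 2 fun w : ℝ => (w / τ + 1) / 2 := by fun_prop
    exact (contDiff_const.mul (Real.smoothTransition.contDiff.comp this)).sub contDiff_const
  have hS : ContDiff ℝ 1 S := by
    have : ContDiff ℝ 1 fun w : ℝ => (w + 1) / 2 := by fun_prop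
    exact Real.smoothTransition.contDiff.comp this
  have hbc : Continuous b := b.continuous
  have hb0 : ∀ w : ℝ, 1 - s / 2 ≤ |w| → b w = 0 := fun w hw =>
    b.zero_of_le_dist (by rw [Real.dist_eq, sub_zero]; exact hw)
  have hB : ∀ v, HasDerivAt B (b v) v := fun v =>
    (hbc.integral_hasStrictDerivAt (-1) v).hasDerivAt
  have hBd : deriv B = b := funext fun v => (hB v).deriv
  have hB1 : ContDiff ℝ 1 B := by
    rw [contDiff_one_iff_deriv]
    refine ⟨fun v => (hB v).differentiableAt, ?_⟩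
    rw [hBd]; exact hbc
  have hFpos : ∀ w, τ ≤ w → F w = 1 := by
    intro w hw
    have : 1 ≤ w / τ := by rw [le_div_iff₀ hτ]; linarith
    simp only [F]
    rw [Real.smoothTransition.one_of_one_le (by linarith)]
    norm_num
  have hFneg : ∀ w, w ≤ -τ → F w = -1 := by
    intro w hw
    have : w / τ ≤ -1 := by rw [div_le_iff₀ hτ]; linarith
    simp only [F]
    rw [Real.smoothTransition.zero_of_nonpos (by linarith)]
    norm_num
  obtain ⟨C, hC⟩ := (isCompact_Icc (a := -τ) (b := τ)).exists_bound_of_continuousOn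
    (hF.continuous_deriv (by norm_num)).continuousOn
  have hint0 : ∀ v w : ℝ, 1 - s / 2 ≤ v → 1 - s / 2 ≤ w → ∫ x in v..w, b x = 0 := by
    intro v w hv hw
    rw [intervalIntegral.integral_congr (g := fun _ => 0)]
    · simp
    · intro x hx
      have h1 : 1 - s / 2 ≤ x := (le_min hv hw).trans hx.1
      exact hb0 x (h1.trans (le_abs_self x))
  have hint1 : ∀ v w : ℝ, v ≤ -(1 - s / 2) → w ≤ -(1 - s / 2) → ∫ x in v..w, b x = 0 := by
    intro v w hv hw
    rw [intervalIntegral.integral_congr (g := fun _ => 0)]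
    · simp
    · intro x hx
      have h1 : x ≤ -(1 - s / 2) := hx.2.trans (max_le hv hw)
      refine hb0 x (le_trans ?_ (neg_le_abs x))
      linarith
  have hii : ∀ v w : ℝ, IntervalIntegrable b volume v w := fun v w => hbc.intervalIntegrable v w
  have hBn : ∀ v, v ≤ -(1 - s / 2) → B v = 0 := fun v hv => hint1 _ _ (by linarith) hv
  have hBp : ∀ v, 1 - s / 2 ≤ v → B v = B 1 := by
    intro v hv
    have h1 : B 1 = B v + ∫ x in v..1, b x :=
      (intervalIntegral.integral_add_adjacent_intervals (hii _ _) (hii _ _)).symm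
    rw [h1, hint0 v 1 hv (by linarith), add_zero]
  have hBnn : ∀ v, 0 ≤ B v := by
    intro v
    rcases le_total v (-(1 - s / 2)) with h | h
    · exact (hBn v h).ge
    · exact intervalIntegral.integral_nonneg (by linarith) fun x _ => b.nonneg
  have hBle : ∀ v, B v ≤ B 1 := by
    intro v
    rcases le_total (1 - s / 2) v with h | h
    · exact (hBp v h).le
    · have h1 : B 1 = B v + ∫ x in v..1, b x :=
        (intervalIntegral.integral_add_adjacent_intervals (hii _ _) (hii _ _)).symm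
      have h2 : 0 ≤ ∫ x in v..1, b x :=
        intervalIntegral.integral_nonneg (by linarith) fun x _ => b.nonneg
      linarith
  have hder0 : ∀ w, τ < |w| → deriv F w = 0 := by
    intro w hw
    rcases lt_abs.1 hw with h | h
    · have h1 : F =ᶠ[𝓝 w] fun _ => 1 := by
        filter_upwards [eventually_gt_nhds h] with x hx
        exact hFpos x hx.le
      rw [h1.deriv_eq]; simp
    · have h1 : F =ᶠ[𝓝 w] fun _ => -1 := by
        filter_upwards [eventually_lt_nhds (show w < -τ by linarith)] with x hx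
        exact hFneg x hx.le
      rw [h1.deriv_eq]; simp
  refine ⟨{
    F := F, S := S, χ := χ, b := b, B := B, m := B 1, CF := max C 0
    hF := hF, hS := hS, hχ := χ.contDiff, hb := b.contDiff, hB := hB, hB1 := hB1
    F_abs := ?_, F_pos := hFpos, F_neg := hFneg, F_der := ?_
    S_nonneg := fun w => Real.smoothTransition.nonneg _
    S_le := fun w => Real.smoothTransition.le_one _
    S_pos := fun w hw => Real.smoothTransition.one_of_one_le (by linarith)
    S_neg := fun w hw => Real.smoothTransition.zero_of_nonpos (by linarith)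
    χ_nonneg := fun w => χ.nonneg, χ_le := fun w => χ.le_one
    χ_left := ?_, χ_right := ?_, χ_one := ?_
    b_nonneg := fun w => b.nonneg, b_le := fun w => b.le_one
    b_zero := hb0, b_one := ?_
    B_neg := hBn, B_pos := hBp, B_nonneg := hBnn, B_le := hBle
    m_le := ?_, m_nonneg := hBnn 1, CF_nonneg := le_max_right _ _ }⟩
  · intro w
    have h1 := Real.smoothTransition.nonneg ((w / τ + 1) / 2)
    have h2 := Real.smoothTransition.le_one ((w / τ + 1) / 2)
    simp only [F]
    rw [abs_le]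
    constructor <;> linarith
  · intro w
    rcases le_or_gt |w| τ with h | h
    · exact (hC w (abs_le.1 h)).trans (le_max_left _ _)
    · rw [hder0 w h, abs_zero]; exact le_max_right _ _
  · intro w hw
    refine χ.zero_of_le_dist ?_
    rw [Real.dist_eq, abs_of_neg (by linarith)]
    show 1 / 2 - s / 2 ≤ _
    linarith
  · intro w hw
    refine χ.zero_of_le_dist ?_
    rw [Real.dist_eq, abs_of_pos (by linarith)]
    show 1 / 2 - s / 2 ≤ _
    linarith
  · intro w hw1 hw2
    refine χ.one_of_mem_closedBall ?_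
    rw [mem_closedBall, Real.dist_eq, abs_le]
    show -(1 / 2 - s) ≤ _ ∧ _ ≤ 1 / 2 - s
    constructor <;> linarith
  · intro w hw
    refine b.one_of_mem_closedBall ?_
    rw [mem_closedBall, Real.dist_eq, sub_zero]
    exact hw
  · have h1 : B 1 ≤ ∫ x in (-1 : ℝ)..1, (1 : ℝ) := by
      apply intervalIntegral.integral_mono_on (by norm_num) (hii _ _) (by simp)
      intro x _
      exact b.le_one
    simp only [intervalIntegral.integral_const, smul_eq_mul] at h1
    linarith

end Pool.Agent.K4H48.Cone
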