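import Pool.Agent.K4H48.Cone.Per

/-! Translation estimate for sets of finite relative perimeter. -/

set_option autoImplicit false

namespace Pool.Agent.K4H48.Cone

open MeasureTheory Set Filter Topology Metric
open scoped ENNReal ContDiff Manifold

variable {n : ℕ}

lemma trans_aux {Ω A : Set (En n)} (hP : per Ω A ≠ ⊤) {ψ : En n → ℝ}
    (hψ : ContDiff ℝ 1 ψ) {K : Set (En n)} (hK : IsCompact K) {δ : ℝ}
    (hKδ : cthickening δ K ⊆ Ω) (hsupp : ∀ x, x ∉ K → ψ x = 0)
    (hψ1 : ∀ x, |ψ x| ≤ 1) {h : En n} (hh : ‖h‖ ≤ δ) :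
    (∫ x in A, ψ x) - ∫ x in A, ψ (x - h) ≤ ‖h‖ * (per Ω A).toReal := by
  rcases eq_or_ne h 0 with rfl | hh0
  · simp
  have hhn : 0 < ‖h‖ := norm_pos_iff.2 hh0
  have hψc : HasCompactSupport ψ := HasCompactSupport.intro hK hsupp
  obtain ⟨R0, hR0⟩ := hK.isBounded.subset_closedBall 0
  set R : ℝ := R0 + 1 with hRdef
  have hsuppR : ∀ x, R ≤ ‖x‖ → ψ x = 0 := by
    intro x hx
    apply hsupp
    intro hxK
    have := hR0 hxK
    rw [mem_closedBall, dist_zero_right] at this
    linarith
  obtain ⟨C, hC⟩ : ∃ C, ∀ x, ‖fderiv ℝ ψ x‖ ≤ C :=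
    (hψc.fderiv ℝ).exists_bound_of_continuous (hψ.continuous_fderiv (by norm_num))
  have hC0 : 0 ≤ C := (norm_nonneg _).trans (hC 0)
  have hfd0 : ∀ x, R < ‖x‖ → fderiv ℝ ψ x = 0 := by
    intro x hx
    have : ψ =ᶠ[𝓝 x] fun _ => 0 := by
      have hop : IsOpen {y : En n | R < ‖y‖} := isOpen_lt continuous_const continuous_norm
      filter_upwards [hop.mem_nhds hx] with y hy
      exact hsuppR y (le_of_lt hy)
    rw [this.fderiv_eq]; simp
  -- derivative of the function of `t`
  have hder : ∀ t : ℝ, HasDerivAt (fun t : ℝ => ∫ x in A, ψ (x - t • h))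
      (∫ x in A, -(fderiv ℝ ψ (x - t • h) h)) t := by
    intro t
    refine (hasDerivAt_integral_of_dominated_loc_of_deriv_le (μ := volume.restrict A)
      (F := fun t x => ψ (x - t • h)) (F' := fun t x => -(fderiv ℝ ψ (x - t • h) h))
      (bound := fun x => (closedBall (0 : En n) (R + (|t| + 1) * ‖h‖)).indicator
        (fun _ => C * ‖h‖) x)
      (s := ball t 1) (ball_mem_nhds t one_pos) ?_ ?_ ?_ ?_ ?_ ?_).2
    · exact Eventually.of_forall fun s =>
        (hψ.continuous.comp (by fun_prop)).aestronglyMeasurable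
    · have h1 : Continuous (fun x : En n => ψ (x - t • h)) := hψ.continuous.comp (by fun_prop)
      have h2 : HasCompactSupport (fun x : En n => ψ (x - t • h)) := by
        have := hψc.comp_homeomorph (Homeomorph.subRight (t • h))
        exact this
      exact (h1.integrable_of_hasCompactSupport h2).integrableOn
    · have h1 : Continuous (fun x : En n => fderiv ℝ ψ (x - t • h) h) :=
        ((hψ.continuous_fderiv (by norm_num)).comp (by fun_prop)).clm_apply continuous_const
      exact h1.neg.aestronglyMeasurable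
    · refine Eventually.of_forall fun x s hs => ?_
      rw [norm_neg]
      by_cases hx : x ∈ closedBall (0 : En n) (R + (|t| + 1) * ‖h‖)
      · rw [indicator_of_mem hx]
        calc ‖fderiv ℝ ψ (x - s • h) h‖ ≤ ‖fderiv ℝ ψ (x - s • h)‖ * ‖h‖ :=
              ContinuousLinearMap.le_opNorm _ _
          _ ≤ C * ‖h‖ := by gcongr; exact hC _
      · rw [indicator_of_notMem hx]
        rw [mem_closedBall, dist_zero_right, not_le] at hx
        have h3 : ‖s • h‖ ≤ (|t| + 1) * ‖h‖ := by
          rw [norm_smul, Real.norm_eq_abs]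
          have h4 : |s| ≤ |t| + 1 := by
            rw [mem_ball, Real.dist_eq] at hs
            have := abs_sub_abs_le_abs_sub s t
            linarith
          gcongr
        have h5 : R < ‖x - s • h‖ := by
          have := norm_sub_norm_le x (s • h)
          linarith
        rw [hfd0 _ h5]; simp
    · rw [integrable_indicator_iff measurableSet_closedBall]
      refine integrableOn_const ?_ ?_
      · exact ((Measure.restrict_apply_le _ _).trans_lt measure_closedBall_lt_top).ne
      · exact enorm_ne_top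
    · refine Eventually.of_forall fun x s _ => ?_
      have h1 : HasDerivAt (fun s : ℝ => x - s • h) (-h) s := by
        simpa using ((hasDerivAt_id s).smul_const h).const_sub x
      have h2 := ((hψ.differentiable (by norm_num)) (x - s • h)).hasFDerivAt.comp_hasDerivAt s h1
      rw [map_neg] at h2
      exact h2
  -- mean value theorem
  obtain ⟨t, ht, hslope⟩ := exists_hasDerivAt_eq_slope
    (fun t : ℝ => ∫ x in A, ψ (x - t • h)) (fun t => ∫ x in A, -(fderiv ℝ ψ (x - t • h) h))
    (zero_lt_one (α := ℝ))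
    (fun t _ => (hder t).continuousAt.continuousWithinAt) (fun t _ => hder t)
  simp only [zero_smul, sub_zero, one_smul, div_one] at hslope
  have hmain : ∫ x in A, fderiv ℝ ψ (x - t • h) h ≤ ‖h‖ * (per Ω A).toReal := by
    let κ : ℝ := 1 / ‖h‖
    have hκ : 0 < κ := div_pos one_pos hhn
    let f : En n → ℝ := fun x => κ * ψ (x - t • h)
    have hf : ContDiff ℝ 1 f := contDiff_const.mul (hψ.comp (contDiff_id.sub contDiff_const))
    have hZ1 : ContDiff ℝ 1 (fun x => f x • h) := hf.smul contDiff_const
    have hth : ‖t • h‖ ≤ δ := by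
      rw [norm_smul, Real.norm_of_nonneg ht.1.le]
      calc t * ‖h‖ ≤ 1 * ‖h‖ := by
            have := ht.2.le
            gcongr
        _ ≤ δ := by rw [one_mul]; exact hh
    have hKt : IsCompact ((fun x => x + t • h) '' K) := hK.image (by fun_prop)
    have hout : ∀ x : En n, x ∉ (fun x => x + t • h) '' K → f x = 0 := by
      intro x hx
      have h5 : x - t • h ∉ K := fun h6 => hx ⟨x - t • h, h6, by simp⟩
      simp only [f, hsupp _ h5, mul_zero]
    have hZ2 : HasCompactSupport (fun x => f x • h) := by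
      refine HasCompactSupport.intro hKt fun x hx => ?_
      rw [hout x hx, zero_smul]
    have hZs : tsupport (fun x => f x • h) ⊆ Ω := by
      have h6 : tsupport (fun x => f x • h) ⊆ (fun x => x + t • h) '' K := by
        refine closure_minimal ?_ hKt.isClosed
        intro x hx
        by_contra h7
        apply hx
        simp only [hout x h7, zero_smul]
      refine h6.trans ?_
      rintro _ ⟨x, hx, rfl⟩
      apply hKδ
      refine mem_cthickening_of_dist_le _ x δ K hx ?_
      rw [dist_eq_norm]
      simpa using hth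
    have hZ3 : ∀ x, ‖f x • h‖ ≤ 1 := by
      intro x
      rw [norm_smul]
      simp only [f, norm_mul, Real.norm_of_nonneg hκ.le]
      calc κ * ‖ψ (x - t • h)‖ * ‖h‖ ≤ κ * 1 * ‖h‖ := by gcongr; exact hψ1 _
        _ = 1 := by simp only [κ]; field_simp
    have hdiv : ∀ x, dv (fun x => f x • h) x = κ * fderiv ℝ ψ (x - t • h) h := by
      intro x
      have h6 := dv_smul_const (f := f) (x := x) ((hf.differentiable (by norm_num)) x) h
      rw [h6]
      have h7 : HasFDerivAt f (κ • fderiv ℝ ψ (x - t • h)) x := by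
        have h8 : HasFDerivAt (fun x : En n => x - t • h) (ContinuousLinearMap.id ℝ (En n)) x :=
          (hasFDerivAt_id x).sub_const _
        have h9 := ((hψ.differentiable (by norm_num)) (x - t • h)).hasFDerivAt.comp x h8
        rw [ContinuousLinearMap.comp_id] at h9
        exact h9.const_mul κ
      rw [h7.fderiv]
      simp
    have h6 := le_per (A := A) (Ω := Ω) ⟨hZ1, hZ2, hZs, hZ3⟩
    simp_rw [hdiv] at h6
    rw [integral_const_mul] at h6
    have h7 := (ENNReal.ofReal_le_iff_le_toReal hP).1 h6
    have h8 : ‖h‖ * (per Ω A).toReal = (per Ω A).toReal / κ := by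
      simp only [κ]; field_simp
    rw [h8, le_div_iff₀ hκ]; linarith
  rw [integral_neg] at hslope
  linarith

/-- Translation estimate: few points of `A ∩ W` leave `A` when translated by `h`. -/
lemma trans_est {Ω A W : Set (En n)} (hA : MeasurableSet A) (hP : per Ω A ≠ ⊤) (hW : IsOpen W)
    (hWc : IsCompact (closure W)) {δ₀ : ℝ} (hWδ : cthickening δ₀ (closure W) ⊆ Ω) {h : En n}
    (hh : ‖h‖ ≤ δ₀) : volume {x | x ∈ A ∩ W ∧ x + h ∉ A} ≤
      ENNReal.ofReal (‖h‖ * (per Ω A).toReal) := by
  set A' : Set (En n) := A ∩ W with hA'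
  have hA'm : MeasurableSet A' := hA.inter hW.measurableSet
  have hWfin : volume W ≠ ⊤ := ((measure_mono subset_closure).trans_lt hWc.measure_lt_top).ne
  have hA'fin : volume A' ≠ ⊤ := ne_top_of_le_ne_top hWfin (measure_mono inter_subset_right)
  have hshift : ∀ S : Set (En n), volume {x : En n | x - h ∈ S} = volume S := by
    intro S
    have : {x : En n | x - h ∈ S} = (fun x => x + (-h)) ⁻¹' S := by
      ext x; simp [sub_eq_add_neg]
    rw [this, measure_preimage_add_right]
  have hmeasA'h : MeasurableSet {x | x ∈ A' ∧ x + h ∉ A} := by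
    refine hA'm.inter ?_
    exact (measurable_id.add_const h hA).compl
  refine ENNReal.le_of_forall_pos_le_add fun δ hδ _ => ?_
  have hδ' : (ENNReal.ofReal (δ / 2)) ≠ 0 := by
    have : (0 : ℝ) < δ / 2 := by positivity
    simpa using this
  obtain ⟨K, hKA, hKc, hK⟩ := hA'm.exists_isCompact_sdiff_lt hA'fin hδ'
  obtain ⟨U₀, hAU₀, hU₀o, -, hU₀⟩ := hA'm.exists_isOpen_sdiff_lt hA'fin hδ'
  set U : Set (En n) := U₀ ∩ W with hU
  have hUo : IsOpen U := hU₀o.inter hW
  have hAU : A' ⊆ U := subset_inter hAU₀ inter_subset_right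
  have hUd : volume (U \ A') < ENNReal.ofReal (δ / 2) :=
    (measure_mono (sdiff_subset_sdiff_left inter_subset_left)).trans_lt hU₀
  obtain ⟨f, hf0, hf1, hf⟩ := exists_contMDiffMap_zero_one_of_isClosed (n := 1)
    𝓘(ℝ, En n) (s := Uᶜ) (t := K) hUo.isClosed_compl hKc.isClosed
    (Set.disjoint_left.2 fun x hx hxK => hx (hAU (hKA hxK)))
  have hfd : ContDiff ℝ 1 (f : En n → ℝ) := f.contMDiff.contDiff
  have hsupp : ∀ x : En n, x ∉ closure W → f x = 0 := by
    intro x hx
    apply hf0
    intro hxU
    exact hx (subset_closure hxU.2)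
  have habs : ∀ x, |f x| ≤ 1 := fun x => by
    rw [abs_of_nonneg (hf x).1]; exact (hf x).2
  have hmain := trans_aux hP hfd hWc hWδ hsupp habs hh
  have hfc : HasCompactSupport (f : En n → ℝ) := HasCompactSupport.intro hWc hsupp
  have hfi : Integrable (f : En n → ℝ) := hfd.continuous.integrable_of_hasCompactSupport hfc
  have hfi2 : Integrable (fun x : En n => f (x - h)) := hfi.comp_sub_right h
  -- lower bound for the first integral
  have hKfin : volume K ≠ ⊤ := hKc.measure_lt_top.ne
  have hUfin : volume U ≠ ⊤ := ne_top_of_le_ne_top hWfin (measure_mono inter_subset_right)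
  have hKA2 : K ⊆ A := hKA.trans inter_subset_left
  have h1 : volume.real K ≤ ∫ x in A, f x := by
    calc volume.real K = ∫ x in K, (1 : ℝ) := by simp
      _ = ∫ x in K, f x := setIntegral_congr_fun hKc.measurableSet fun x hx => (hf1 hx).symm
      _ ≤ ∫ x in A, f x := setIntegral_mono_set hfi.integrableOn
          (Eventually.of_forall fun x => (hf x).1) (LE.le.eventuallyLE hKA2)
  have hSm : MeasurableSet {x : En n | x - h ∈ U} := (measurable_id.sub_const h) hUo.measurableSet
  have h2 : ∫ x in A, f (x - h) ≤ volume.real {x | x ∈ A ∧ x - h ∈ U} := by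
    have hm : MeasurableSet {x | x ∈ A ∧ x - h ∈ U} := hA.inter hSm
    have hfin2 : volume {x | x ∈ A ∧ x - h ∈ U} ≠ ⊤ := by
      refine ne_top_of_le_ne_top hUfin ?_
      rw [← hshift U]
      exact measure_mono fun x hx => hx.2
    calc ∫ x in A, f (x - h) = ∫ x in A, ({x : En n | x - h ∈ U}).indicator
          (fun x => f (x - h)) x := by
          congr 1; ext x
          by_cases hx : x - h ∈ U
          · rw [indicator_of_mem (show x ∈ {x : En n | x - h ∈ U} from hx)]
          · rw [indicator_of_notMem (show x ∉ {x : En n | x - h ∈ U} from hx), hf0 hx]; rfl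
      _ = ∫ x in A ∩ {x : En n | x - h ∈ U}, f (x - h) := setIntegral_indicator hSm
      _ ≤ ∫ x in A ∩ {x : En n | x - h ∈ U}, (1 : ℝ) :=
          setIntegral_mono_on hfi2.integrableOn (integrableOn_const hfin2 (by simp)) hm
            fun x _ => (hf _).2
      _ = volume.real {x | x ∈ A ∧ x - h ∈ U} := by
          rw [setIntegral_const, smul_eq_mul, mul_one]; rfl
  -- comparison
  have hreal : volume.real {x | x ∈ A' ∧ x + h ∉ A} ≤ ‖h‖ * (per Ω A).toReal + δ := by
    have e1 : volume.real A' ≤ volume.real K + δ / 2 := by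
      have : volume A' ≤ volume K + volume (A' \ K) := by
        calc volume A' = volume (K ∪ (A' \ K)) := by rw [union_sdiff_cancel hKA]
          _ ≤ volume K + volume (A' \ K) := measure_union_le _ _
      have h5 : volume A' ≤ volume K + ENNReal.ofReal (δ / 2) := this.trans (by gcongr)
      have h6 := ENNReal.toReal_mono (by simp [hKfin]) h5
      rw [ENNReal.toReal_add hKfin ENNReal.ofReal_ne_top, ENNReal.toReal_ofReal (by positivity)]
        at h6
      exact h6
    have e2 : volume.real {x | x ∈ A ∧ x - h ∈ U} ≤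
        volume.real {x | x ∈ A ∧ x - h ∈ A'} + δ / 2 := by
      have h5 : volume {x | x ∈ A ∧ x - h ∈ U} ≤ volume {x | x ∈ A ∧ x - h ∈ A'} +
          ENNReal.ofReal (δ / 2) := by
        calc volume {x | x ∈ A ∧ x - h ∈ U} ≤
              volume ({x | x ∈ A ∧ x - h ∈ A'} ∪ {x | x - h ∈ U \ A'}) := by
              refine measure_mono ?_
              rintro x ⟨hx1, hx2⟩
              by_cases hx3 : x - h ∈ A'
              · exact Or.inl ⟨hx1, hx3⟩
              · exact Or.inr ⟨hx2, hx3⟩
          _ ≤ volume {x | x ∈ A ∧ x - h ∈ A'} + volume {x | x - h ∈ U \ A'} := measure_union_le _ _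
          _ ≤ volume {x | x ∈ A ∧ x - h ∈ A'} + ENNReal.ofReal (δ / 2) := by
              rw [hshift (U \ A')]; gcongr
      have hfin3 : volume {x | x ∈ A ∧ x - h ∈ A'} ≠ ⊤ := by
        refine ne_top_of_le_ne_top hA'fin ?_
        rw [← hshift A']
        exact measure_mono fun x hx => hx.2
      have h6 := ENNReal.toReal_mono (by simp [hfin3]) h5
      rw [ENNReal.toReal_add hfin3 ENNReal.ofReal_ne_top, ENNReal.toReal_ofReal (by positivity)]
        at h6
      exact h6
    have e3 : volume.real {x | x ∈ A ∧ x - h ∈ A'} = volume.real {x | x ∈ A' ∧ x + h ∈ A} := by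
      unfold Measure.real
      congr 1
      rw [← hshift {x | x ∈ A' ∧ x + h ∈ A}]
      congr 1
      ext x
      simp only [mem_ofPred_eq, sub_add_cancel]
      exact and_comm
    have e4 : volume.real A' = volume.real {x | x ∈ A' ∧ x + h ∈ A} +
        volume.real {x | x ∈ A' ∧ x + h ∉ A} := by
      have h5 : A' = {x | x ∈ A' ∧ x + h ∈ A} ∪ {x | x ∈ A' ∧ x + h ∉ A} := by
        ext x
        simp only [mem_union, mem_ofPred_eq]
        tauto
      conv_lhs => rw [h5]
      refine measureReal_union ?_ hmeasA'h ?_ ?_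
      · rw [Set.disjoint_left]; exact fun x h6 h7 => h7.2 h6.2
      · exact ne_top_of_le_ne_top hA'fin (measure_mono fun x hx => hx.1)
      · exact ne_top_of_le_ne_top hA'fin (measure_mono fun x hx => hx.1)
    linarith
  have hfin4 : volume {x | x ∈ A' ∧ x + h ∉ A} ≠ ⊤ :=
    ne_top_of_le_ne_top hA'fin (measure_mono fun x hx => hx.1)
  rw [← ENNReal.ofReal_toReal hfin4]
  calc ENNReal.ofReal (volume {x | x ∈ A' ∧ x + h ∉ A}).toReal
      ≤ ENNReal.ofReal (‖h‖ * (per Ω A).toReal + δ) := ENNReal.ofReal_le_ofReal hreal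
    _ = ENNReal.ofReal (‖h‖ * (per Ω A).toReal) + δ := by
        rw [ENNReal.ofReal_add (by positivity) (by positivity), ENNReal.ofReal_coe_nnreal]

end Pool.Agent.K4H48.Cone
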