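import Pool.Agent.K4H48.Cone.Trans

/-! Weak compactness of sequences of subsets of a set of finite volume. -/

set_option autoImplicit false

namespace Pool.Agent.K4H48.Cone

open MeasureTheory Set Filter Topology Metric
open scoped ENNReal RealInnerProductSpace

variable {n : ℕ}

lemma weak_extract (μ : Measure (En n)) [IsFiniteMeasure μ] (f : ℕ → Lp ℝ 2 μ) (C : ℝ)
    (hf : ∀ k, ‖f k‖ ≤ C) :
    ∃ F : Lp ℝ 2 μ, ∃ φ : ℕ → ℕ, StrictMono φ ∧
      ∀ h : Lp ℝ 2 μ, Tendsto (fun k => ⟪f (φ k), h⟫) atTop (𝓝 ⟪F, h⟫) := by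
  have h1 : ∀ k, StrongDual.toWeakDual (InnerProductSpace.toDual ℝ (Lp ℝ 2 μ) (f k)) ∈
      WeakDual.toStrongDual ⁻¹' closedBall (0 : StrongDual ℝ (Lp ℝ 2 μ)) C := by
    intro k
    simp only [mem_preimage, mem_closedBall, dist_zero_right]
    change ‖InnerProductSpace.toDual ℝ (Lp ℝ 2 μ) (f k)‖ ≤ C
    rw [LinearIsometryEquiv.norm_map]
    exact hf k
  have : Fact ((2 : ℝ≥0∞) ≠ ∞) := ⟨by norm_num⟩
  have : SecondCountableTopology (Lp ℝ 2 μ) := inferInstance
  obtain ⟨ℓ, -, φ, hφ, hlim⟩ := WeakDual.isSeqCompact_closedBall ℝ (Lp ℝ 2 μ) 0 C h1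
  refine ⟨(InnerProductSpace.toDual ℝ (Lp ℝ 2 μ)).symm (WeakDual.toStrongDual ℓ), φ, hφ,
    fun h => ?_⟩
  have h2 := ((WeakDual.eval_continuous h).tendsto ℓ).comp hlim
  rw [InnerProductSpace.toDual_symm_apply]
  exact h2

/-- Bounded measurable functions. -/
def BM (h : En n → ℝ) : Prop := Measurable h ∧ ∃ C : ℝ, ∀ x, |h x| ≤ C

lemma BM.memLp {h : En n → ℝ} (hh : BM h) (μ : Measure (En n)) [IsFiniteMeasure μ] :
    MemLp h 2 μ := by
  obtain ⟨hm, C, hC⟩ := hh
  exact MemLp.of_bound hm.aestronglyMeasurable C (Eventually.of_forall fun x => by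
    rw [Real.norm_eq_abs]; exact hC x)

lemma BM_ind {S : Set (En n)} (hS : MeasurableSet S) : BM (S.indicator fun _ => (1 : ℝ)) :=
  ⟨measurable_const.indicator hS, 1, fun x => by
      by_cases hx : x ∈ S
      · rw [indicator_of_mem hx]; simp
      · rw [indicator_of_notMem hx]; simp⟩

/-- Weak compactness: a sequence of measurable subsets of `Ω`, `volume Ω < ∞`, has a subsequence
converging weakly to a function `f`, `0 ≤ f ≤ 1`, vanishing off `Ω`. -/
lemma weak_sets {Ω : Set (En n)} (hΩ : MeasurableSet Ω) (hΩf : volume Ω ≠ ⊤)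
    (A : ℕ → Set (En n)) (hA : ∀ k, MeasurableSet (A k)) (hAΩ : ∀ k, A k ⊆ Ω) :
    ∃ f : En n → ℝ, Measurable f ∧ (∀ x, 0 ≤ f x ∧ f x ≤ 1) ∧ (∀ x, x ∉ Ω → f x = 0) ∧
      ∃ φ : ℕ → ℕ, StrictMono φ ∧ ∀ h : En n → ℝ, BM h →
        Tendsto (fun k => ∫ x in A (φ k), h x) atTop (𝓝 (∫ x, h x * f x)) := by
  set μ : Measure (En n) := volume.restrict Ω with hμ
  have : IsFiniteMeasure μ := ⟨by rw [hμ, Measure.restrict_apply_univ]; exact hΩf.lt_top⟩
  obtain ⟨F, φ, hφ, hlim⟩ := weak_extract μ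
    (fun k => indicatorConstLp 2 (hA k) (measure_ne_top μ _) (1 : ℝ)) (μ.real univ ^ (1 / 2 : ℝ))
    (fun k => by
      refine norm_indicatorConstLp_le.trans ?_
      rw [norm_one, one_mul]
      have h1 : μ.real (A k) ≤ μ.real univ := measureReal_mono (subset_univ _)
      have h2 : (1 / (2 : ℝ≥0∞).toReal) = (1 / 2 : ℝ) := by norm_num
      rw [h2]
      exact Real.rpow_le_rpow measureReal_nonneg h1 (by norm_num))
  have hlim2 : ∀ h : En n → ℝ, BM h →
      Tendsto (fun k => ∫ x in A (φ k), h x ∂μ) atTop (𝓝 (∫ x, h x * F x ∂μ)) := by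
    intro h hh
    have h1 := hlim ((hh.memLp μ).toLp h)
    have e1 : ∀ k, ⟪indicatorConstLp 2 (hA (φ k)) (measure_ne_top μ _) (1 : ℝ),
        (hh.memLp μ).toLp h⟫ = ∫ x in A (φ k), h x ∂μ := by
      intro k
      rw [L2.inner_indicatorConstLp_one]
      exact setIntegral_congr_ae (hA _) ((hh.memLp μ).coeFn_toLp.mono fun x hx _ => hx)
    have e2 : ⟪F, (hh.memLp μ).toLp h⟫ = ∫ x, h x * F x ∂μ := by
      rw [L2.inner_def]
      refine integral_congr_ae ((hh.memLp μ).coeFn_toLp.mono fun x hx => ?_)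
      simp only [hx]
      rfl
    simp only [e1, e2] at h1
    exact h1
  have hFint : Integrable F μ := (Lp.memLp F).integrable one_le_two
  have hS : ∀ S : Set (En n), MeasurableSet S →
      Tendsto (fun k => μ.real (A (φ k) ∩ S)) atTop (𝓝 (∫ x in S, F x ∂μ)) := by
    intro S hSm
    have h1 := hlim2 _ (BM_ind hSm)
    have e1 : ∀ k, ∫ x in A (φ k), S.indicator (fun _ => (1 : ℝ)) x ∂μ =
        μ.real (A (φ k) ∩ S) := by
      intro k
      rw [setIntegral_indicator hSm]; simp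
    have e2 : ∫ x, S.indicator (fun _ => (1 : ℝ)) x * F x ∂μ = ∫ x in S, F x ∂μ := by
      rw [← integral_indicator hSm]
      congr 1; ext x
      by_cases hx : x ∈ S
      · rw [indicator_of_mem hx, indicator_of_mem hx, one_mul]
      · rw [indicator_of_notMem hx, indicator_of_notMem hx, zero_mul]
    simp only [e1, e2] at h1
    exact h1
  have hF0 : 0 ≤ᵐ[μ] F := ae_nonneg_of_forall_setIntegral_nonneg hFint fun S hSm _ =>
    ge_of_tendsto' (hS S hSm) fun k => measureReal_nonneg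
  have hF1 : 0 ≤ᵐ[μ] fun x => 1 - F x := by
    refine ae_nonneg_of_forall_setIntegral_nonneg ((integrable_const 1).sub hFint) fun S hSm _ => ?_
    rw [integral_sub (integrable_const 1).integrableOn hFint.integrableOn]
    have h1 : ∫ x in S, F x ∂μ ≤ μ.real S :=
      le_of_tendsto' (hS S hSm) fun k => measureReal_mono inter_subset_right
    simp only [integral_const, smul_eq_mul, mul_one, measureReal_restrict_apply MeasurableSet.univ,
      univ_inter]
    linarith
  let f : En n → ℝ := Ω.indicator fun x => max 0 (min 1 (F x))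
  have hFm : Measurable F := (Lp.stronglyMeasurable F).measurable
  have hfF : f =ᵐ[μ] F := by
    have h3 : ∀ᵐ x ∂μ, x ∈ Ω := ae_restrict_mem hΩ
    filter_upwards [hF0, hF1, h3] with x h0 h1 hx
    simp only [Pi.zero_apply] at h0 h1
    simp only [f]
    rw [indicator_of_mem hx, min_eq_right (by linarith), max_eq_right h0]
  refine ⟨f, (measurable_const.max (measurable_const.min hFm)).indicator hΩ, fun x => ?_,
    fun x hx => indicator_of_notMem hx _, φ, hφ, fun h hh => ?_⟩
  · by_cases hx : x ∈ Ω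
    · simp only [f, indicator_of_mem hx]
      exact ⟨le_max_left _ _, max_le zero_le_one (min_le_left _ _)⟩
    · simp only [f, indicator_of_notMem hx]
      exact ⟨le_rfl, zero_le_one⟩
  · have e : ∫ x, h x * f x = ∫ x, h x * F x ∂μ := by
      have e1 : ∫ x, h x * F x ∂μ = ∫ x, h x * f x ∂μ :=
        integral_congr_ae (hfF.mono fun x hx => by simp only [hx])
      rw [e1, hμ]
      refine (setIntegral_eq_integral_of_forall_compl_eq_zero fun x hx => ?_).symm
      simp only [f, indicator_of_notMem hx, mul_zero]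
    rw [e]
    refine (hlim2 h hh).congr fun k => ?_
    rw [hμ, Measure.restrict_restrict (hA _), inter_eq_left.2 (hAΩ _)]

end Pool.Agent.K4H48.Cone
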